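import Pool.Agent.Work.MP_add580_gt.Dense

/-!
Classification of the eigenfunctions of the Laplace-Beltrami operator of the sphere.
-/

open scoped ContDiff InnerProductSpace Manifold Topology
open Laplacian InnerProductSpace MeasureTheory

namespace Pool.Agent.Work.MP_add580_gt

variable {n : ℕ}

/-- The `k`-th eigenvalue of the sphere. -/
def ev (n k : ℕ) : ℝ := k * (k + n - 1)

lemma ev_lt (hn : 1 ≤ n) {j k : ℕ} (h : j < k) : ev n j < ev n k := by
  unfold ev
  have h1 : (1 : ℝ) ≤ n := by exact_mod_cast hn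
  have h2 : (j : ℝ) + 1 ≤ k := by exact_mod_cast h
  have h3 : (0 : ℝ) ≤ j := Nat.cast_nonneg j
  nlinarith

lemma ev_injective (hn : 1 ≤ n) {j k : ℕ} (h : ev n j = ev n k) : j = k := by
  rcases lt_trichotomy j k with h1 | h1 | h1
  · exact absurd h (ev_lt hn h1).ne
  · exact h1
  · exact absurd h (ev_lt hn h1).ne'

lemma restrict_injective {k : ℕ} {p : Euc n → ℂ} (hp : p ∈ homPoly (Euc n) k)
    (h : ∀ x : Sph n, p x = 0) : p = 0 := by
  have hne : ∀ x, x ≠ 0 → p x = 0 := by
    intro x hx
    have hpos : 0 < ‖x‖ := norm_pos_iff.2 hx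
    have h1 : x = ‖x‖ • (‖x‖⁻¹ • x) := by
      rw [smul_smul, mul_inv_cancel₀ hpos.ne', one_smul]
    rw [h1, homPoly_smul hp]
    have h2 := h ⟨‖x‖⁻¹ • x, by simp [norm_smul, hx]⟩
    simp only at h2
    rw [h2, mul_zero]
  ext x
  by_cases hx : x = 0
  · subst hx
    rcases k with _ | k
    · obtain ⟨c, rfl⟩ := mem_homPoly_zero.1 hp
      have h3 := hne (EuclideanSpace.single 0 1) (by
        intro h4
        have := congrArg (fun v : Euc n => v 0) h4
        simp at this)
      simpa using h3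
    · have h4 := homPoly_smul hp 0 0
      rw [smul_zero] at h4
      rw [h4]
      simp
  · exact hne x hx

lemma normSq_mem : (fun x : Euc n => ((‖x‖ ^ 2 : ℝ) : ℂ)) ∈ homPoly (Euc n) 2 := by
  have h1 : ∀ v : Euc n, (fun x : Euc n => ((inner ℝ v x : ℝ) : ℂ)) ∈ linForms (Euc n) :=
    fun v => ⟨Complex.ofRealCLM.toLinearMap.comp (innerSL ℝ v).toLinearMap, rfl⟩
  have h2 : (fun x : Euc n => ((‖x‖ ^ 2 : ℝ) : ℂ)) =
      ∑ i, (fun x : Euc n => ((inner ℝ (stdOrthonormalBasis ℝ (Euc n) i) x : ℝ) : ℂ)) *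
        (fun x : Euc n => ((inner ℝ (stdOrthonormalBasis ℝ (Euc n) i) x : ℝ) : ℂ)) := by
    ext x
    have h3 := (stdOrthonormalBasis ℝ (Euc n)).sum_sq_inner_right x
    rw [← h3]
    simp [sq]
  rw [h2]
  refine Submodule.sum_mem _ fun i _ => ?_
  have : homPoly (Euc n) 2 = linForms (Euc n) * linForms (Euc n) := by
    unfold homPoly
    rw [pow_two]
  rw [this]
  exact Submodule.mul_mem_mul (h1 _) (h1 _)

lemma sphLaplacian_restrict' {k : ℕ} {p : Euc n → ℂ} (hp : p ∈ homPoly (Euc n) k) (x : Sph n) :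
    sphLaplacian (fun y : Sph n => p y) x =
      Laplacian.laplacian p (x : Euc n) - (ev n k : ℂ) * p x := by
  rw [sphLaplacian_restrict hp]
  unfold ev
  push_cast
  ring

lemma harm_aux (hn : 1 ≤ n) : ∀ j : ℕ, ∀ s ∈ homPoly (Euc n) j, ∀ μ : ℝ, ev n j < μ →
    (∀ x : Sph n, Laplacian.laplacian s (x : Euc n) = ((ev n j - μ : ℝ) : ℂ) * s x) → s = 0 := by
  intro j
  induction j using Nat.strong_induction_on with
  | _ j ih =>
    intro s hs μ hμ h
    have hc : ((ev n j - μ : ℝ) : ℂ) ≠ 0 := by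
      have : ev n j - μ ≠ 0 := by
        intro h'; linarith
      exact_mod_cast this
    by_cases hj : j < 2
    · apply restrict_injective hs
      intro x
      have h1 := h x
      rw [laplacian_low hj hs] at h1
      simp only [Pi.zero_apply] at h1
      rcases mul_eq_zero.1 h1.symm with h2 | h2
      · exact absurd h2 hc
      · exact h2
    · obtain ⟨i, rfl⟩ : ∃ i, j = i + 2 := ⟨j - 2, by omega⟩
      have ht : Laplacian.laplacian s ∈ homPoly (Euc n) i := laplacian_mem hs
      have hfun : (fun y : Sph n => Laplacian.laplacian s (y : Euc n)) =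
          ((ev n (i + 2) - μ : ℝ) : ℂ) • (fun y : Sph n => s y) := by
        ext y
        exact h y
      have hlap : ∀ x : Sph n, sphLaplacian (fun y : Sph n => Laplacian.laplacian s (y : Euc n)) x
          = - (μ : ℂ) * Laplacian.laplacian s (x : Euc n) := by
        intro x
        rw [hfun]
        have h1 : sphLaplacian (((ev n (i + 2) - μ : ℝ) : ℂ) • (fun y : Sph n => s y)) x =
            ((ev n (i + 2) - μ : ℝ) : ℂ) * sphLaplacian (fun y : Sph n => s y) x := by
          unfold sphLaplacian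
          rw [radialExt_csmul]
          exact InnerProductSpace.laplacian_smul _
            ((contDiffAt_radialExt (contMDiff_restrict (homPoly_contDiff hs))
              (sph_ne_zero x)).of_le (by norm_cast))
        rw [h1, sphLaplacian_restrict' hs, h x]
        push_cast
        ring
      have ht0 : Laplacian.laplacian s = 0 := by
        refine ih i (by omega) _ ht μ ((ev_lt hn (by omega)).trans hμ) ?_
        intro x
        have h1 := sphLaplacian_restrict' ht x
        rw [hlap x] at h1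
        push_cast
        linear_combination -h1
      apply restrict_injective hs
      intro x
      have h1 := h x
      rw [ht0] at h1
      simp only [Pi.zero_apply] at h1
      rcases mul_eq_zero.1 h1.symm with h2 | h2
      · exact absurd h2 hc
      · exact h2

/-- multiplication by `‖x‖^2` followed by the Laplacian is injective -/
lemma laplacian_normSq_injective (hn : 1 ≤ n) {j : ℕ} {s : Euc n → ℂ}
    (hs : s ∈ homPoly (Euc n) j)
    (h : Laplacian.laplacian ((fun x : Euc n => ((‖x‖ ^ 2 : ℝ) : ℂ)) * s) = 0) : s = 0 := by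
  have hq : (fun x : Euc n => ((‖x‖ ^ 2 : ℝ) : ℂ)) * s ∈ homPoly (Euc n) (j + 2) := by
    have := mul_mem_homPoly (normSq_mem (n := n)) hs
    rwa [add_comm 2 j] at this
  refine harm_aux hn j s hs (ev n (j + 2)) (ev_lt hn (by omega)) ?_
  intro x
  have h1 := sphLaplacian_restrict' hs x
  have h2 := sphLaplacian_restrict' hq x
  have hfun : (fun y : Sph n => ((fun x : Euc n => ((‖x‖ ^ 2 : ℝ) : ℂ)) * s) (y : Euc n)) =
      (fun y : Sph n => s y) := by
    ext y
    have hy : ‖(y : Euc n)‖ = 1 := by simp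
    simp [hy]
  rw [hfun, h] at h2
  have hx : ‖(x : Euc n)‖ = 1 := by simp
  simp only [Pi.zero_apply, Pi.mul_apply, hx] at h2
  push_cast at h2 ⊢
  linear_combination h2 - h1

section Inv

/-- Homogeneous polynomial functions invariant under a group of linear isometries. -/
def invPoly {V : Type*} [NormedAddCommGroup V] [InnerProductSpace ℝ V]
    (G : Subgroup (V ≃ₗᵢ[ℝ] V)) (k : ℕ) : Submodule ℂ (V → ℂ) where
  carrier := {f | f ∈ homPoly V k ∧ ∀ g ∈ G, ∀ x, f (g x) = f x}
  add_mem' := by
    rintro a b ⟨h1, h2⟩ ⟨h3, h4⟩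
    exact ⟨Submodule.add_mem _ h1 h3, fun g hg x => by simp [h2 g hg x, h4 g hg x]⟩
  zero_mem' := ⟨Submodule.zero_mem _, fun g hg x => rfl⟩
  smul_mem' := by
    rintro c a ⟨h1, h2⟩
    exact ⟨Submodule.smul_mem _ _ h1, fun g hg x => by simp [h2 g hg x]⟩

lemma invPoly_le {V : Type*} [NormedAddCommGroup V] [InnerProductSpace ℝ V]
    (G : Subgroup (V ≃ₗᵢ[ℝ] V)) (k : ℕ) : invPoly G k ≤ homPoly V k := fun _ h => h.1

instance {V : Type*} [NormedAddCommGroup V] [InnerProductSpace ℝ V] [FiniteDimensional ℝ V]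
    (G : Subgroup (V ≃ₗᵢ[ℝ] V)) (k : ℕ) : FiniteDimensional ℂ (invPoly G k) :=
  Submodule.finiteDimensional_of_le (invPoly_le G k)

lemma laplacian_comp_isometry {V : Type*} [NormedAddCommGroup V] [InnerProductSpace ℝ V]
    [FiniteDimensional ℝ V] {p : V → ℂ} (hp : ContDiff ℝ 2 p) (g : V ≃ₗᵢ[ℝ] V) (x : V) :
    Laplacian.laplacian (fun y => p (g y)) x = Laplacian.laplacian p (g x) := by
  rw [laplacian_eq_iteratedFDeriv_stdOrthonormalBasis,
    laplacian_eq_iteratedFDeriv_orthonormalBasis p ((stdOrthonormalBasis ℝ V).map g)]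
  refine Finset.sum_congr rfl fun i _ => ?_
  have h := (g.toContinuousLinearEquiv : V →L[ℝ] V).iteratedFDeriv_comp_right (f := p) hp x
    (i := 2) (by norm_num)
  have h1 : iteratedFDeriv ℝ 2 (fun y => p (g y)) x =
    iteratedFDeriv ℝ 2 (p ∘ (g.toContinuousLinearEquiv : V →L[ℝ] V)) x := rfl
  rw [h1, h]
  simp only [ContinuousMultilinearMap.compContinuousLinearMap_apply]
  congr 1
  ext j
  fin_cases j <;> simp

variable (Γ : Subgroup (Orth n))

/-- The Laplacian on invariant polynomials. -/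
noncomputable def lapMap (k : ℕ) : invPoly Γ (k + 2) →ₗ[ℂ] invPoly Γ k where
  toFun p := ⟨Laplacian.laplacian (p : Euc n → ℂ), laplacian_mem p.2.1, by
    intro g hg x
    rw [← laplacian_comp_isometry (p := (p : Euc n → ℂ)) (homPoly_contDiff p.2.1) g x]
    have h : (fun y => (p : Euc n → ℂ) (g y)) = p := by
      ext y
      exact p.2.2 g hg y
    rw [h]⟩
  map_add' p q := by
    apply Subtype.ext
    ext x
    exact ContDiffAt.laplacian_add (homPoly_contDiff p.2.1).contDiffAt
      (homPoly_contDiff q.2.1).contDiffAt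
  map_smul' c p := by
    apply Subtype.ext
    ext x
    exact InnerProductSpace.laplacian_smul c (homPoly_contDiff p.2.1).contDiffAt

/-- Multiplication by `‖x‖^2` on invariant polynomials. -/
noncomputable def mulMap (k : ℕ) : invPoly Γ k →ₗ[ℂ] invPoly Γ (k + 2) where
  toFun p := ⟨(fun x : Euc n => ((‖x‖ ^ 2 : ℝ) : ℂ)) * (p : Euc n → ℂ), by
      have := mul_mem_homPoly (normSq_mem (n := n)) p.2.1
      rwa [add_comm 2 k] at this, by
      intro g hg x
      simp only [Pi.mul_apply, p.2.2 g hg x, LinearIsometryEquiv.norm_map]⟩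
  map_add' p q := by
    apply Subtype.ext
    simp [mul_add]
  map_smul' c p := by
    apply Subtype.ext
    simp

lemma lapMul_surjective (hn : 1 ≤ n) (k : ℕ) :
    Function.Surjective ((lapMap Γ k).comp (mulMap Γ k)) := by
  have h1 : Function.Injective ((lapMap Γ k).comp (mulMap Γ k)) := by
    rw [← LinearMap.ker_eq_bot, LinearMap.ker_eq_bot']
    intro p hp
    apply Subtype.ext
    apply laplacian_normSq_injective hn p.2.1
    exact congrArg Subtype.val hp
  exact LinearMap.injective_iff_surjective.1 h1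

lemma lapMap_surjective (hn : 1 ≤ n) (k : ℕ) : Function.Surjective (lapMap Γ k) := by
  intro q
  obtain ⟨p, hp⟩ := lapMul_surjective Γ hn k q
  exact ⟨mulMap Γ k p, hp⟩

/-- Harmonic invariant homogeneous polynomials. -/
noncomputable def harmPoly (k : ℕ) : Submodule ℂ (Euc n → ℂ) where
  carrier := {f | f ∈ invPoly Γ k ∧ Laplacian.laplacian f = 0}
  add_mem' := by
    rintro a b ⟨h1, h2⟩ ⟨h3, h4⟩
    refine ⟨Submodule.add_mem _ h1 h3, ?_⟩
    ext x
    rw [ContDiffAt.laplacian_add (homPoly_contDiff h1.1).contDiffAt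
      (homPoly_contDiff h3.1).contDiffAt, h2, h4]
    simp
  zero_mem' := by
    refine ⟨Submodule.zero_mem _, ?_⟩
    exact laplacian_const
  smul_mem' := by
    rintro c a ⟨h1, h2⟩
    refine ⟨Submodule.smul_mem _ _ h1, ?_⟩
    ext x
    rw [InnerProductSpace.laplacian_smul c (homPoly_contDiff h1.1).contDiffAt, h2]
    simp

lemma harmPoly_low {k : ℕ} (hk : k < 2) : harmPoly Γ k = invPoly Γ k := by
  apply le_antisymm
  · exact fun _ h => h.1
  · exact fun f h => ⟨h, laplacian_low hk h.1⟩

lemma finrank_harmPoly (hn : 1 ≤ n) (k : ℕ) :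
    Module.finrank ℂ (harmPoly Γ (k + 2)) + Module.finrank ℂ (invPoly Γ k) =
      Module.finrank ℂ (invPoly Γ (k + 2)) := by
  have h1 := LinearMap.finrank_range_add_finrank_ker (lapMap Γ k)
  rw [LinearMap.range_eq_top.2 (lapMap_surjective Γ hn k), finrank_top] at h1
  have h2 : Module.finrank ℂ (LinearMap.ker (lapMap Γ k)) =
      Module.finrank ℂ (harmPoly Γ (k + 2)) := by
    have e : (LinearMap.ker (lapMap Γ k)).map (invPoly Γ (k + 2)).subtype = harmPoly Γ (k + 2) := by
      ext f
      constructor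
      · rintro ⟨p, hp, rfl⟩
        exact ⟨p.2, congrArg Subtype.val hp⟩
      · rintro ⟨h1, h2⟩
        exact ⟨⟨f, h1⟩, Subtype.ext h2, rfl⟩
    rw [← e]
    exact (Submodule.finrank_map_subtype_eq _ _).symm
  omega

end Inv

end Pool.Agent.Work.MP_add580_gt
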