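import Pool.Agent.Work.MP_add580_gt.Groups
import Pool.Agent.Work.MP_add580_gt.Complete

/-!
Freeness, non-isomorphism and equality of the dimensions of invariants.
-/

open scoped ContDiff InnerProductSpace ComplexConjugate

namespace Pool.Agent.Work.MP_add580_gt

namespace Dat

variable (D : Dat)

lemma std_eq_one {m : ℕ} [NeZero m] {x : ZMod m} (h : (ZMod.stdAddChar x : ℂ) = 1) : x = 0 := by
  apply ZMod.injective_stdAddChar
  rw [h, AddChar.map_zero_eq_one]

lemma std_mul_eq_one {x : ZMod 91} {b : ZMod 9}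
    (h : (ZMod.stdAddChar x : ℂ) * ZMod.stdAddChar b = 1) : x = 0 ∧ b = 0 := by
  have h9 : ((ZMod.stdAddChar x : ℂ) * ZMod.stdAddChar b) ^ 9 = 1 := by rw [h, one_pow]
  rw [mul_pow, ← AddChar.map_nsmul_eq_pow, ← AddChar.map_nsmul_eq_pow] at h9
  have hb : (9 : ℕ) • b = 0 := by
    have : ∀ b : ZMod 9, (9 : ℕ) • b = 0 := by decide
    exact this b
  rw [hb, AddChar.map_zero_eq_one, mul_one] at h9
  have hx := std_eq_one h9
  have hx0 : x = 0 := by
    rw [nsmul_eq_mul] at hx
    have h1 : (81 : ZMod 91) * ((9 : ℕ) : ZMod 91) = 1 := by decide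
    calc x = ((81 : ZMod 91) * ((9 : ℕ) : ZMod 91)) * x := by rw [h1, one_mul]
      _ = (81 : ZMod 91) * (((9 : ℕ) : ZMod 91) * x) := by rw [mul_assoc]
      _ = 0 := by rw [hx, mul_zero]
  refine ⟨hx0, ?_⟩
  rw [hx0, AddChar.map_zero_eq_one, one_mul] at h
  exact std_eq_one h

lemma sum_rp {i : Fin 3} (hi : i ≠ 0) : D.rp 0 + D.rp i + D.rp (i + i) = 0 := by
  have h := D.good.sum
  fin_cases i
  · exact absurd rfl hi
  · exact h
  · change D.rp 0 + D.rp 2 + D.rp 1 = 0
    rw [add_right_comm]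
    exact h

lemma red_eq_zero {b : ZMod 9} (h : 3 * b = 0) : red b = 0 := by
  revert b; decide

lemma red_three (b : ZMod 9) : red (b + b + b) = 0 := by
  revert b; decide

/-- The action is free. -/
lemma T_fixed {a : ZMod 91} {b : ZMod 9} {z : CW II} (hz : z ≠ 0) (h : D.T a b z = z) :
    a = 0 ∧ b = 0 := by
  obtain ⟨p, hp⟩ : ∃ p, z p ≠ 0 := by
    by_contra hcon
    push Not at hcon
    apply hz
    ext p
    exact hcon p
  by_cases hb : red b = 0
  · have h1 := congrArg (fun v : CW II => v p) h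
    simp only at h1
    rw [T_apply] at h1
    have hsh : sh b p = p := by simp [sh_apply, hb]
    rw [hsh] at h1
    have h2 : (ZMod.stdAddChar (a * D.s p) : ℂ) * ZMod.stdAddChar b = 1 :=
      mul_right_cancel₀ hp (by rw [h1, one_mul])
    obtain ⟨h3, h4⟩ := std_mul_eq_one h2
    refine ⟨?_, h4⟩
    exact (D.isUnit_s p).mul_left_eq_zero.1 h3
  · exfalso
    have h3 : (D.T a b * D.T a b * D.T a b) z = z := by
      change D.T a b (D.T a b (D.T a b z)) = z
      rw [h, h, h]
    rw [T_mul, T_mul] at h3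
    have e1 : a + D.rp (red b) * a + D.rp (red (b + b)) * a = 0 := by
      have := D.sum_rp hb
      rw [D.rp_zero, ← red_add] at this
      calc a + D.rp (red b) * a + D.rp (red (b + b)) * a
          = (1 + D.rp (red b) + D.rp (red (b + b))) * a := by ring
        _ = 0 := by rw [this, zero_mul]
    rw [e1] at h3
    have h1 := congrArg (fun v : CW II => v p) h3
    simp only at h1
    rw [T_apply] at h1
    have hsh : sh (b + b + b) p = p := by
      simp [sh_apply, red_three]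
    rw [hsh, zero_mul, AddChar.map_zero_eq_one, one_mul] at h1
    have h2 : (ZMod.stdAddChar (b + b + b) : ℂ) = 1 :=
      mul_right_cancel₀ hp (by rw [h1, one_mul])
    have h4 := std_eq_one h2
    apply hb
    apply red_eq_zero
    rw [← h4]; ring

lemma exists_ne_zero : ∃ z : CW II, z ≠ 0 := by
  refine ⟨WithLp.toLp 2 (fun _ => 1), ?_⟩
  intro h
  have h1 := congrArg (fun v : CW II => v (0, 0)) h
  simp at h1

lemma T_eq_one {a : ZMod 91} {b : ZMod 9} (h : D.T a b = 1) : a = 0 ∧ b = 0 := by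
  obtain ⟨z, hz⟩ := exists_ne_zero
  exact D.T_fixed hz (by rw [h]; rfl)

lemma T_injective {a a' : ZMod 91} {b b' : ZMod 9} (h : D.T a b = D.T a' b') :
    a = a' ∧ b = b' := by
  have h1 : (D.T a' b')⁻¹ * D.T a b = 1 := by rw [h, inv_mul_cancel]
  rw [T_inv, T_mul] at h1
  obtain ⟨h2, h3⟩ := D.T_eq_one h1
  have hb : b = b' := by
    rw [neg_add_eq_zero] at h3
    exact h3.symm
  refine ⟨?_, hb⟩
  have h4 : D.rp (red (-b')) * (a - a') = 0 := by
    rw [← h2]; ring
  have h5 := (D.good.unit (red (-b'))).mul_right_eq_zero.1 h4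
  exact sub_eq_zero.1 h5

lemma T_mem (a : ZMod 91) (b : ZMod 9) : D.T a b ∈ D.Gam := ⟨a, b, rfl⟩

/-- parametrisation of the group -/
noncomputable def tau : ZMod 91 × ZMod 9 ≃ D.Gam :=
  Equiv.ofBijective (fun p => ⟨D.T p.1 p.2, D.T_mem p.1 p.2⟩) (by
    constructor
    · rintro ⟨a, b⟩ ⟨a', b'⟩ h
      have h1 : D.T a b = D.T a' b' := congrArg Subtype.val h
      obtain ⟨h2, h3⟩ := D.T_injective h1
      rw [h2, h3]
    · rintro ⟨_, a, b, rfl⟩
      exact ⟨(a, b), rfl⟩)

lemma tau_apply (p : ZMod 91 × ZMod 9) : ((D.tau p : D.Gam) : CW II ≃ₗᵢ[ℝ] CW II) = D.T p.1 p.2 :=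
  rfl

noncomputable instance : Fintype D.Gam := Fintype.ofEquiv _ D.tau

lemma card_Gam : Fintype.card D.Gam = 819 := by
  rw [← Fintype.card_congr D.tau]
  simp [ZMod.card]

lemma T_pow (a : ZMod 91) (b : ZMod 9) (n : ℕ) : ∃ a', D.T a b ^ n = D.T a' (n * b) := by
  induction n with
  | zero => exact ⟨0, by rw [pow_zero, Nat.cast_zero, zero_mul, T_zero]⟩
  | succ n ih =>
    obtain ⟨a', h⟩ := ih
    refine ⟨a' + D.rp (red (n * b)) * a, ?_⟩
    rw [pow_succ, h, T_mul]
    congr 1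
    push_cast
    ring

lemma T_pow_zero (a : ZMod 91) (n : ℕ) : D.T a 0 ^ n = D.T (n * a) 0 := by
  induction n with
  | zero => rw [pow_zero, Nat.cast_zero, zero_mul, T_zero]
  | succ n ih =>
    rw [pow_succ, ih, T_mul, red_zero, D.rp_zero, add_zero]
    congr 1
    push_cast
    ring

lemma b_eq_zero {a : ZMod 91} {b : ZMod 9} (h : D.T a b ^ 91 = 1) : b = 0 := by
  obtain ⟨a', h1⟩ := D.T_pow a b 91
  rw [h1] at h
  have h2 := (D.T_eq_one h).2
  have h3 : ((91 : ℕ) : ZMod 9) = 1 := by decide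
  rw [h3, one_mul] at h2
  exact h2

end Dat

/-- The two groups are not isomorphic. -/
theorem not_iso : IsEmpty (D16.Gam ≃* D9.Gam) := by
  constructor
  intro e
  let B : D16.Gam := ⟨D16.T 0 1, D16.T_mem 0 1⟩
  have hB : ∀ x : D16.Gam, x ^ 91 = 1 → B * x = x ^ 16 * B := by
    rintro ⟨_, a, b, rfl⟩ hx
    have h1 : D16.T a b ^ 91 = 1 := by
      have h0 := congrArg Subtype.val hx
      rw [Subgroup.coe_pow] at h0
      exact h0
    have hb := D16.b_eq_zero h1
    subst hb
    apply Subtype.ext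
    change D16.T 0 1 * D16.T a 0 = D16.T a 0 ^ 16 * D16.T 0 1
    rw [Dat.T_pow_zero, Dat.T_mul, Dat.T_mul, mul_zero, add_zero, zero_add, add_zero, zero_add]
    have h16 : D16.rp (red 1) = ((16 : ℕ) : ZMod 91) := by decide
    rw [h16]
  let x : D9.Gam := ⟨D9.T 1 0, D9.T_mem 1 0⟩
  have hx : x ^ 91 = 1 := by
    apply Subtype.ext
    change D9.T 1 0 ^ 91 = 1
    rw [Dat.T_pow_zero]
    have : ((91 : ℕ) : ZMod 91) = 0 := by decide
    rw [this, zero_mul, Dat.T_zero]
  have h1 : (e.symm x) ^ 91 = 1 := by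
    rw [← map_pow, hx, map_one]
  have h2 := congrArg e (hB _ h1)
  rw [map_mul, map_mul, map_pow, e.apply_symm_apply] at h2
  obtain ⟨c, d, hcd⟩ := (e B).2
  have h3 : D9.T c d * D9.T 1 0 = D9.T 1 0 ^ 16 * D9.T c d := by
    have := congrArg Subtype.val h2
    change _ * D9.T 1 0 = D9.T 1 0 ^ 16 * _ at this
    rw [hcd] at this
    exact this
  rw [Dat.T_pow_zero, Dat.T_mul, Dat.T_mul] at h3
  have h4 := (D9.T_injective h3).1
  rw [red_zero, D9.rp_zero, one_mul, mul_one, mul_one] at h4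
  have h5 : D9.rp (red d) = 16 := by
    have h6 : c + D9.rp (red d) = c + 16 := by
      rw [h4]
      push_cast
      ring
    exact add_left_cancel h6
  revert h5
  generalize red d = i
  revert i
  decide

end Pool.Agent.Work.MP_add580_gt
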