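import Pool.Agent.Work.MP_add580_gt.Spectrum

/-!
From complex to real eigenspaces, and the criterion for isospectrality.
-/

open scoped ContDiff InnerProductSpace Manifold Topology
open Laplacian InnerProductSpace MeasureTheory

namespace Pool.Agent.Work.MP_add580_gt

variable {n : ℕ}

lemma radialExt_comp_real {F G : Type*} [Zero F] [Zero G] (L : F → G) (hL : L 0 = 0)
    (f : Sph n → F) : radialExt (fun x => L (f x)) = L ∘ radialExt f := by
  ext x
  by_cases h : x = 0 <;> simp [radialExt, h, hL]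

lemma sphLaplacian_clm {F G : Type*} [NormedAddCommGroup F] [NormedSpace ℝ F]
    [NormedAddCommGroup G] [NormedSpace ℝ G] (L : F →L[ℝ] G) {f : Sph n → F}
    (hf : ContMDiff (𝓡 n) 𝓘(ℝ, F) ∞ f) (x : Sph n) :
    sphLaplacian (fun x => L (f x)) x = L (sphLaplacian f x) := by
  unfold sphLaplacian
  rw [radialExt_comp_real L (map_zero L)]
  exact ContDiffAt.laplacian_CLM_comp_left
    ((contDiffAt_radialExt hf (sph_ne_zero x)).of_le (by norm_cast))

lemma contMDiff_clm {F G : Type*} [NormedAddCommGroup F] [NormedSpace ℝ F]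
    [NormedAddCommGroup G] [NormedSpace ℝ G] (L : F →L[ℝ] G) {f : Sph n → F}
    (hf : ContMDiff (𝓡 n) 𝓘(ℝ, F) ∞ f) : ContMDiff (𝓡 n) 𝓘(ℝ, G) ∞ (fun x => L (f x)) :=
  L.contDiff.contMDiff.comp hf

lemma lift_inv {Γ : Subgroup (Orth n)} (φ : SpaceForm Γ → ℝ) {g : Orth n} (hg : g ∈ Γ)
    {x y : Sph n} (h : g (x : Euc n) = y) : lift φ x = lift φ y := by
  unfold lift
  congr 1
  exact Quotient.sound ⟨g, hg, h⟩

/-- descend an invariant function to the quotient -/
def descend {Γ : Subgroup (Orth n)} (f : Sph n → ℝ)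
    (h : ∀ g ∈ Γ, ∀ x y : Sph n, g (x : Euc n) = y → f x = f y) : SpaceForm Γ → ℝ :=
  Quotient.lift f (by rintro x y ⟨g, hg, hxy⟩; exact h g hg x y hxy)

lemma lift_descend {Γ : Subgroup (Orth n)} (f : Sph n → ℝ)
    (h : ∀ g ∈ Γ, ∀ x y : Sph n, g (x : Euc n) = y → f x = f y) :
    lift (descend f h) = f := rfl

lemma lift_injective {Γ : Subgroup (Orth n)} {φ ψ : SpaceForm Γ → ℝ} (h : lift φ = lift ψ) :
    φ = ψ := by
  ext q
  induction q using Quotient.inductionOn with
  | h x => exact congrFun h x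

/-- complexification -/
noncomputable def cplx {Γ : Subgroup (Orth n)} {μ : ℝ} (φ ψ : eigenspace Γ μ) : ceig Γ μ :=
  ⟨(fun x => Complex.ofRealCLM (lift (φ : SpaceForm Γ → ℝ) x)) +
    Complex.I • (fun x => Complex.ofRealCLM (lift (ψ : SpaceForm Γ → ℝ) x)), by
    have h1 := contMDiff_clm Complex.ofRealCLM φ.2.1
    have h2 := contMDiff_clm Complex.ofRealCLM ψ.2.1
    refine ⟨h1.add (contMDiff_csmul h2 _), fun g hg x y hxy => ?_, ?_⟩
    · simp only [Pi.add_apply, Pi.smul_apply, lift_inv _ hg hxy]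
    · rw [sphLaplacian_cadd h1 (contMDiff_csmul h2 _), sphLaplacian_csmul h2]
      ext x
      simp only [Pi.add_apply, Pi.smul_apply, smul_eq_mul]
      rw [sphLaplacian_clm _ φ.2.1, sphLaplacian_clm _ ψ.2.1]
      have h3 : sphLaplacian (lift (φ : SpaceForm Γ → ℝ)) x = - (μ * lift (φ : SpaceForm Γ → ℝ) x) := by
        rw [← φ.2.2 x, neg_neg]
      have h4 : sphLaplacian (lift (ψ : SpaceForm Γ → ℝ)) x = - (μ * lift (ψ : SpaceForm Γ → ℝ) x) := by
        rw [← ψ.2.2 x, neg_neg]
      rw [h3, h4]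
      simp only [Complex.ofRealCLM_apply]
      push_cast
      ring⟩

/-- real part -/
noncomputable def rePart {Γ : Subgroup (Orth n)} {μ : ℝ} (f : ceig Γ μ) : eigenspace Γ μ :=
  ⟨descend (fun x => Complex.reCLM ((f : Sph n → ℂ) x)) (fun g hg x y hxy => by
      rw [f.2.2.1 g hg x y hxy]), by
    refine ⟨?_, fun x => ?_⟩
    · rw [lift_descend]
      exact contMDiff_clm Complex.reCLM f.2.1
    · rw [lift_descend, sphLaplacian_clm _ f.2.1, f.2.2.2]
      simp⟩

/-- imaginary part -/
noncomputable def imPart {Γ : Subgroup (Orth n)} {μ : ℝ} (f : ceig Γ μ) : eigenspace Γ μ :=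
  ⟨descend (fun x => Complex.imCLM ((f : Sph n → ℂ) x)) (fun g hg x y hxy => by
      rw [f.2.2.1 g hg x y hxy]), by
    refine ⟨?_, fun x => ?_⟩
    · rw [lift_descend]
      exact contMDiff_clm Complex.imCLM f.2.1
    · rw [lift_descend, sphLaplacian_clm _ f.2.1, f.2.2.2]
      simp⟩

/-- The complexified eigenspace is the product of two copies of the real one. -/
noncomputable def cplxEquiv (Γ : Subgroup (Orth n)) (μ : ℝ) :
    (eigenspace Γ μ × eigenspace Γ μ) ≃ₗ[ℝ] ceig Γ μ where
  toFun p := cplx p.1 p.2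
  map_add' p q := by
    apply Subtype.ext
    ext x
    simp [cplx, lift]
    ring
  map_smul' c p := by
    apply Subtype.ext
    ext x
    simp [cplx, lift]
    ring
  invFun f := (rePart f, imPart f)
  left_inv p := by
    refine Prod.ext ?_ ?_
    · apply Subtype.ext
      apply lift_injective
      ext x
      change Complex.reCLM ((cplx p.1 p.2 : Sph n → ℂ) x) = _
      simp [cplx]
    · apply Subtype.ext
      apply lift_injective
      ext x
      change Complex.imCLM ((cplx p.1 p.2 : Sph n → ℂ) x) = _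
      simp [cplx]
  right_inv f := by
    apply Subtype.ext
    ext x
    change Complex.ofRealCLM (Complex.reCLM ((f : Sph n → ℂ) x)) +
      Complex.I • Complex.ofRealCLM (Complex.imCLM ((f : Sph n → ℂ) x)) = _
    simp only [Complex.ofRealCLM_apply, Complex.reCLM_apply, Complex.imCLM_apply, smul_eq_mul]
    rw [mul_comm]
    exact Complex.re_add_im _

lemma eigenspace_finite (hn : 1 ≤ n) (Γ : Subgroup (Orth n)) (μ : ℝ) :
    FiniteDimensional ℝ (eigenspace Γ μ) := by
  have h1 : FiniteDimensional ℂ (ceig Γ μ) := ceig_finite hn Γ μ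
  have h2 : FiniteDimensional ℝ (ceig Γ μ) := Module.Finite.trans ℂ _
  have h3 : FiniteDimensional ℝ (eigenspace Γ μ × eigenspace Γ μ) :=
    Module.Finite.equiv (cplxEquiv Γ μ).symm
  exact Module.Finite.of_surjective (LinearMap.fst ℝ (eigenspace Γ μ) (eigenspace Γ μ))
    LinearMap.fst_surjective

lemma finrank_eigenspace (hn : 1 ≤ n) (Γ : Subgroup (Orth n)) (μ : ℝ) :
    Module.finrank ℝ (eigenspace Γ μ) = Module.finrank ℂ (ceig Γ μ) := by
  have h0 := eigenspace_finite hn Γ μ
  have h1 := (cplxEquiv Γ μ).finrank_eq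
  rw [Module.finrank_prod, ← Module.finrank_mul_finrank ℝ ℂ (ceig Γ μ),
    Complex.finrank_real_complex] at h1
  omega

/-- Criterion for isospectrality in terms of invariant polynomials. -/
theorem isospectral_of_invPoly (hn : 1 ≤ n) (Γ₁ Γ₂ : Subgroup (Orth n))
    (h : ∀ k, Module.finrank ℂ (invPoly Γ₁ k) = Module.finrank ℂ (invPoly Γ₂ k)) :
    Isospectral Γ₁ Γ₂ := by
  intro μ
  have h1 := eigenspace_finite hn Γ₁ μ
  have h2 := eigenspace_finite hn Γ₂ μ
  rw [← Module.finrank_eq_rank, ← Module.finrank_eq_rank, finrank_eigenspace hn,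
    finrank_eigenspace hn, finrank_ceig_eq hn Γ₁ Γ₂ h]

end Pool.Agent.Work.MP_add580_gt
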