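import Pool.Agent.Work.MP_add580_gt.CharSum
import Pool.Agent.Work.MP_add580_gt.RealSpectrum

/-!
Transport of the groups to the standard Euclidean space `ℝ^138`.
-/

open scoped ContDiff InnerProductSpace ComplexConjugate

namespace Pool.Agent.Work.MP_add580_gt

section Conj

variable {V W : Type*} [NormedAddCommGroup V] [InnerProductSpace ℝ V]
  [NormedAddCommGroup W] [InnerProductSpace ℝ W]

/-- conjugation by an isometry -/
def conjHom (e : V ≃ₗᵢ[ℝ] W) : (W ≃ₗᵢ[ℝ] W) →* (V ≃ₗᵢ[ℝ] V) where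
  toFun g := (e.trans g).trans e.symm
  map_one' := by
    apply LinearIsometryEquiv.ext
    intro x
    exact e.symm_apply_apply x
  map_mul' g h := by
    apply LinearIsometryEquiv.ext
    intro x
    change e.symm (g (h (e x))) = e.symm (g (e (e.symm (h (e x)))))
    rw [e.apply_symm_apply]

lemma conjHom_apply (e : V ≃ₗᵢ[ℝ] W) (g : W ≃ₗᵢ[ℝ] W) (x : V) :
    conjHom e g x = e.symm (g (e x)) := rfl

lemma conjHom_injective (e : V ≃ₗᵢ[ℝ] W) : Function.Injective (conjHom e) := by
  intro g h hgh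
  apply LinearIsometryEquiv.ext
  intro y
  have h1 := congrArg (fun f : V ≃ₗᵢ[ℝ] V => f (e.symm y)) hgh
  simp only [conjHom_apply, e.apply_symm_apply] at h1
  exact e.symm.injective h1

lemma finrank_invPoly_conj (e : V ≃ₗᵢ[ℝ] W) (G : Subgroup (W ≃ₗᵢ[ℝ] W)) (k : ℕ) :
    Module.finrank ℂ (invPoly (G.map (conjHom e)) k) = Module.finrank ℂ (invPoly G k) := by
  let φ : (W → ℂ) ≃ₗ[ℂ] (V → ℂ) := LinearEquiv.funCongrLeft ℂ ℂ e.toEquiv
  have hφ : ∀ f : W → ℂ, ∀ x, φ f x = f (e x) := fun f x => rfl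
  have h : (invPoly G k).map (φ : (W → ℂ) →ₗ[ℂ] (V → ℂ)) = invPoly (G.map (conjHom e)) k := by
    ext f
    constructor
    · rintro ⟨p, ⟨h1, h2⟩, rfl⟩
      refine ⟨pull_mem h1 e.toLinearEquiv.toLinearMap, ?_⟩
      rintro _ ⟨g, hg, rfl⟩ x
      change p (e (conjHom e g x)) = p (e x)
      rw [conjHom_apply, e.apply_symm_apply]
      exact h2 g hg (e x)
    · rintro ⟨h1, h2⟩
      refine ⟨fun y => f (e.symm y), ⟨pull_mem h1 e.symm.toLinearEquiv.toLinearMap, ?_⟩, ?_⟩
      · intro g hg y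
        have h3 := h2 _ ⟨g, hg, rfl⟩ (e.symm y)
        rw [conjHom_apply, e.apply_symm_apply] at h3
        exact h3
      · ext x
        change f (e.symm (e x)) = f x
        rw [e.symm_apply_apply]
  rw [← h]
  exact LinearEquiv.finrank_map_eq φ _

end Conj

lemma finrank_CW : Module.finrank ℝ (CW II) = 138 := by
  have h1 : Module.finrank ℝ (CW II) = Module.finrank ℝ (II → ℂ) :=
    (WithLp.linearEquiv 2 ℝ (II → ℂ)).finrank_eq
  rw [h1, Module.finrank_pi_fintype]
  simp [Complex.finrank_real_complex]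

/-- An isometry between `ℝ^138` and `ℂ^69`. -/
noncomputable def theIso : Euc 137 ≃ₗᵢ[ℝ] CW II :=
  (((stdOrthonormalBasis ℝ (CW II)).reindex (finCongr finrank_CW)).repr).symm

/-- The finite subgroup of `O(138)`. -/
noncomputable def Dat.Gp (D : Dat) : Subgroup (Orth 137) := D.Gam.map (conjHom theIso)

lemma Dat.finite (D : Dat) : Finite D.Gp :=
  Finite.of_equiv _ (D.Gam.equivMapOfInjective _ (conjHom_injective theIso)).toEquiv

lemma Dat.actsFreely (D : Dat) : ActsFreely D.Gp := by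
  rintro _ ⟨_, ⟨a, b, rfl⟩, rfl⟩ hne x hx
  apply hne
  rw [conjHom_apply] at hx
  have h1 : D.T a b (theIso (x : Euc 137)) = theIso (x : Euc 137) := by
    have := congrArg theIso hx
    rwa [theIso.apply_symm_apply] at this
  have h2 : theIso (x : Euc 137) ≠ 0 := by
    intro h
    apply sph_ne_zero x
    exact theIso.injective (by rw [h, map_zero])
  obtain ⟨rfl, rfl⟩ := D.T_fixed h2 h1
  rw [D.T_zero, map_one]

theorem isospectral_all (D D' : Dat) : Isospectral D.Gp D'.Gp := by
  apply isospectral_of_invPoly (by norm_num)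
  intro k
  unfold Dat.Gp
  rw [finrank_invPoly_conj, finrank_invPoly_conj]
  exact finrank_eq D D' k

theorem not_iso' : IsEmpty (D16.Gp ≃* D9.Gp) := by
  constructor
  intro e
  apply not_iso.false
  exact ((D16.Gam.equivMapOfInjective _ (conjHom_injective theIso)).trans e).trans
    (D9.Gam.equivMapOfInjective _ (conjHom_injective theIso)).symm

end Pool.Agent.Work.MP_add580_gt
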