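import Pool.Agent.Work.MP_add580_gt.Statement
import Pool.Agent.Work.MP_add580_gt.Transport

/-!
From the internal description of the spectrum to the definitions used in the final statement.
-/

open scoped Manifold ContDiff

namespace Pool.Agent.Work.MP_add580_gt.Bridge

open Pool.Agent.Work.MP_add580_gt

/-- The space form attached to the arithmetic data. -/
noncomputable def form (D : Dat) : Spec.SpaceForm 137 where
  Γ := D.Gp
  finite := D.finite
  free := fun g hg hne x hx => D.actsFreely g hg hne x (congrArg Subtype.val hx)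

/-- The two descriptions of the orbit space. -/
def ptEquiv (D : Dat) : (form D).Pt ≃ SpaceForm D.Gp :=
  Quot.congr (Equiv.refl _) fun _ _ =>
    ⟨fun ⟨g, hg, h⟩ => ⟨g, hg, congrArg Subtype.val h⟩, fun ⟨g, hg, h⟩ => ⟨g, hg, Subtype.ext h⟩⟩

lemma rank_eigenspace (D : Dat) (μ : ℝ) :
    Module.rank ℝ ((form D).eigenspace μ) =
      Module.rank ℝ (eigenspace D.Gp μ) := by
  let φ : (SpaceForm D.Gp → ℝ) ≃ₗ[ℝ] ((form D).Pt → ℝ) :=
    LinearEquiv.funCongrLeft ℝ ℝ (ptEquiv D)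
  have h1 : {ψ | ContMDiff (𝓡 137) 𝓘(ℝ, ℝ) ∞ ((form D).pullback ψ) ∧
      ∀ x : Sph 137, - Spec.sphLaplacian ((form D).pullback ψ) x = μ * (form D).pullback ψ x} =
      (φ : (SpaceForm D.Gp → ℝ) →ₗ[ℝ] ((form D).Pt → ℝ)) ''
        (eigenspace D.Gp μ : Set (SpaceForm D.Gp → ℝ)) := by
    ext ψ
    constructor
    · rintro ⟨h1, h2⟩
      refine ⟨φ.symm ψ, ?_, φ.apply_symm_apply ψ⟩
      have h3 : lift (φ.symm ψ) = (form D).pullback ψ := by
        have h4 : lift (φ.symm ψ) = (form D).pullback (φ (φ.symm ψ)) := rfl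
        rw [h4, φ.apply_symm_apply]
      exact ⟨by rw [h3]; exact h1, fun x => by rw [h3]; exact h2 x⟩
    · rintro ⟨f, ⟨h1, h2⟩, rfl⟩
      exact ⟨h1, h2⟩
  have h2 : (form D).eigenspace μ = (eigenspace D.Gp μ).map
      (φ : (SpaceForm D.Gp → ℝ) →ₗ[ℝ] ((form D).Pt → ℝ)) := by
    unfold Spec.SpaceForm.eigenspace
    rw [h1, ← Submodule.map_span, Submodule.span_eq]
  rw [h2]
  exact (LinearEquiv.rank_eq (φ.submoduleMap (eigenspace D.Gp μ))).symm

theorem main : ∃ n : ℕ, n ≡ 1 [MOD 4] ∧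
    ∃ M N : Spec.SpaceForm n, Spec.Isospectral M N ∧ IsEmpty (M.Γ ≃* N.Γ) :=
  ⟨137, by decide, form D16, form D9, fun μ => by
    rw [rank_eigenspace, rank_eigenspace]
    exact isospectral_all D16 D9 μ, not_iso'⟩

end Pool.Agent.Work.MP_add580_gt.Bridge
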