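import Pool.Agent.Work.MP_add580_gt.Action

/-!
Dimension of the invariants by characters, and the comparison of the two groups.
-/

open scoped ContDiff InnerProductSpace ComplexConjugate

namespace Pool.Agent.Work.MP_add580_gt

section General

variable {V : Type*} [NormedAddCommGroup V] [InnerProductSpace ℝ V] [FiniteDimensional ℝ V]

omit [FiniteDimensional ℝ V] in
lemma pullHom_mul (g h : V ≃ₗᵢ[ℝ] V) (k : ℕ) :
    pullHom (g * h) k = (pullHom h k) * (pullHom g k) := rfl

omit [FiniteDimensional ℝ V] in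
lemma pullHom_one (k : ℕ) : pullHom (1 : V ≃ₗᵢ[ℝ] V) k = 1 := rfl

lemma trace_conj (g h : V ≃ₗᵢ[ℝ] V) (k : ℕ) :
    LinearMap.trace ℂ _ (pullHom (h * g * h⁻¹) k) = LinearMap.trace ℂ _ (pullHom g k) := by
  rw [pullHom_mul, pullHom_mul, ← mul_assoc, LinearMap.trace_mul_comm, ← mul_assoc,
    ← pullHom_mul, inv_mul_cancel, pullHom_one, one_mul]

/-- The representation on homogeneous polynomials. -/
noncomputable def polyRep (G : Subgroup (V ≃ₗᵢ[ℝ] V)) (k : ℕ) :
    Representation ℂ G (homPoly V k) where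
  toFun g := pullHom ((g : V ≃ₗᵢ[ℝ] V)⁻¹) k
  map_one' := by
    simp [pullHom_one]
  map_mul' g h := by
    rw [Subgroup.coe_mul, mul_inv_rev, pullHom_mul]

lemma finrank_invPoly (G : Subgroup (V ≃ₗᵢ[ℝ] V)) [Fintype G] (k : ℕ) :
    (Nat.card G : ℂ)⁻¹ * ∑ g : G, LinearMap.trace ℂ _ (pullHom (g : V ≃ₗᵢ[ℝ] V) k) =
      Module.finrank ℂ (invPoly G k) := by
  have hne : (Nat.card G : ℂ) ≠ 0 := by
    rw [Nat.card_eq_fintype_card]
    exact_mod_cast Fintype.card_ne_zero
  let _ : Invertible (Nat.card G : ℂ) := invertibleOfNonzero hne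
  have h1 := Representation.card_inv_mul_sum_char_eq_finrank (polyRep G k)
  have h2 : ∑ g : G, (polyRep G k).character g =
      ∑ g : G, LinearMap.trace ℂ _ (pullHom (g : V ≃ₗᵢ[ℝ] V) k) := by
    refine Fintype.sum_equiv (Equiv.inv G) _ _ fun g => ?_
    simp [Representation.character, polyRep]
  rw [h2] at h1
  rw [h1]
  congr 1
  have e : ((polyRep G k).invariants).map (homPoly V k).subtype = invPoly G k := by
    ext f
    constructor
    · rintro ⟨p, hp, rfl⟩
      refine ⟨p.2, fun g hg x => ?_⟩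
      have h3 := (Representation.mem_invariants (polyRep G k) p).1 hp ⟨g⁻¹, G.inv_mem hg⟩
      have h4 := congrArg (fun q : homPoly V k => (q : V → ℂ) x) h3
      simp only [polyRep, MonoidHom.coe_mk, OneHom.coe_mk, inv_inv] at h4
      exact h4
    · rintro ⟨h3, h4⟩
      refine ⟨⟨f, h3⟩, ?_, rfl⟩
      rw [SetLike.mem_coe, Representation.mem_invariants]
      intro g
      apply Subtype.ext
      ext x
      exact h4 _ (G.inv_mem g.2) x
  rw [← e]
  exact (Submodule.finrank_map_subtype_eq _ _).symm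

end General

namespace Dat

variable (D : Dat)

/-- The trace of `A^a B^b` on homogeneous polynomials of degree `k`. -/
noncomputable def tr (k : ℕ) (a : ZMod 91) (b : ZMod 9) : ℂ :=
  LinearMap.trace ℂ _ (pullHom (D.T a b) k)

lemma tr_conj (k : ℕ) (a : ZMod 91) {b : ZMod 9} (hb : red b ≠ 0) : D.tr k a b = D.tr k 0 b := by
  have hu : IsUnit (1 - D.rp (red b)) := by
    rw [← D.rp_zero]
    exact D.good.sub 0 (red b) (Ne.symm hb)
  obtain ⟨c, hc⟩ : ∃ c, (1 - D.rp (red b)) * c = a := by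
    obtain ⟨u, hu⟩ := hu
    exact ⟨(u⁻¹ : (ZMod 91)ˣ) * a, by rw [← hu, ← mul_assoc, Units.mul_inv, one_mul]⟩
  have h1 : D.T a b = D.T c 0 * D.T 0 b * (D.T c 0)⁻¹ := by
    rw [eq_mul_inv_iff_mul_eq, T_mul, T_mul, red_zero, D.rp_zero, one_mul]
    congr 1
    · rw [← hc]; ring
    · ring
  unfold tr
  rw [h1, trace_conj]

lemma tr_diag (k : ℕ) (a : ZMod 91) {b : ZMod 9} (hb : red b = 0) :
    D.tr k a b = PowerSeries.coeff k (gf (fun p => ee (a * D.s p) * (ZMod.stdAddChar b : ℂ))) := by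
  rw [coeff_gf]
  unfold tr
  apply trace_diag
  intro z p
  rw [T_apply]
  have hsh : sh b p = p := by simp [sh_apply, hb]
  rw [hsh]

end Dat

lemma T_zero_eq (D D' : Dat) (b : ZMod 9) : D.T 0 b = D'.T 0 b := by
  apply LinearIsometryEquiv.ext
  intro z
  ext p
  rw [Dat.T_apply, Dat.T_apply, zero_mul, zero_mul]

lemma sum_tr_eq (D D' : Dat) (k : ℕ) (b : ZMod 9) :
    ∑ a, D.tr k a b = ∑ a, D'.tr k a b := by
  by_cases hb : red b = 0
  · simp_rw [D.tr_diag k _ hb, D'.tr_diag k _ hb]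
    rw [← map_sum, ← map_sum]
    refine congrArg _ ?_
    have h3 : b + b + b = 0 := by
      revert b; decide
    have hw : (ZMod.stdAddChar b : ℂ) ^ 3 = 1 := by
      have : (ZMod.stdAddChar b : ℂ) ^ 3 = ZMod.stdAddChar (b + b + b) := by
        rw [AddChar.map_add_eq_mul, AddChar.map_add_eq_mul]; ring
      rw [this, h3, AddChar.map_zero_eq_one]
    have hw' : (ZMod.stdAddChar b : ℂ) * conj (ZMod.stdAddChar b : ℂ) = 1 := by
      rw [← AddChar.map_neg_eq_conj, ← AddChar.map_add_eq_mul, add_neg_cancel,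
        AddChar.map_zero_eq_one]
    exact sum_gf_eq D.good D'.good D.s D'.s D.prod_units D'.prod_units hw hw'
  · simp_rw [D.tr_conj k _ hb, D'.tr_conj k _ hb]
    have : D.tr k 0 b = D'.tr k 0 b := by
      unfold Dat.tr
      rw [T_zero_eq D D']
    rw [this]

/-- The two groups have the same number of invariants in every degree. -/
theorem finrank_eq (D D' : Dat) (k : ℕ) :
    Module.finrank ℂ (invPoly D.Gam k) = Module.finrank ℂ (invPoly D'.Gam k) := by
  have key : ∀ E : Dat, (Module.finrank ℂ (invPoly E.Gam k) : ℂ) =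
      (819 : ℂ)⁻¹ * ∑ b, ∑ a, E.tr k a b := by
    intro E
    have h819 : ((819 : ℕ) : ℂ) = 819 := by norm_num
    have hsum : ∑ g : E.Gam, LinearMap.trace ℂ _ (pullHom (g : CW II ≃ₗᵢ[ℝ] CW II) k) =
        ∑ b, ∑ a, E.tr k a b := by
      rw [← Fintype.sum_equiv E.tau (fun p => E.tr k p.1 p.2)
        (fun g : E.Gam => LinearMap.trace ℂ _ (pullHom (g : CW II ≃ₗᵢ[ℝ] CW II) k))
        (fun p => rfl)]
      rw [Fintype.sum_prod_type, Finset.sum_comm]
    rw [← finrank_invPoly, Nat.card_eq_fintype_card, E.card_Gam, hsum, h819]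
  have h : (Module.finrank ℂ (invPoly D.Gam k) : ℂ) = Module.finrank ℂ (invPoly D'.Gam k) := by
    have hs : ∑ b, ∑ a, D.tr k a b = ∑ b, ∑ a, D'.tr k a b :=
      Finset.sum_congr rfl fun b _ => sum_tr_eq D D' k b
    rw [key D, key D', hs]
  exact_mod_cast h

end Pool.Agent.Work.MP_add580_gt
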