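import Mathlib

/-!
Spherical space forms and the spectrum of their Laplace-Beltrami operator.
-/

open scoped Manifold ContDiff

namespace Pool.Agent.Work.MP_add580_gt

/-- Euclidean space `ℝ^(n+1)`. -/
abbrev Euc (n : ℕ) : Type := EuclideanSpace ℝ (Fin (n + 1))

/-- The unit sphere `S^n` in `ℝ^(n+1)`. -/
abbrev Sph (n : ℕ) : Type := Metric.sphere (0 : Euc n) 1

/-- The orthogonal group `O(n+1)`, as the group of linear isometries of `ℝ^(n+1)`. -/
abbrev Orth (n : ℕ) : Type := Euc n ≃ₗᵢ[ℝ] Euc n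

/-- The radially constant extension `x ↦ f (x/‖x‖)` of a function on `S^n` (with value `0` at the
origin). -/
noncomputable def radialExt {n : ℕ} {F : Type*} [Zero F] (f : Sph n → F) (x : Euc n) : F :=
  if h : x = 0 then 0 else f ⟨‖x‖⁻¹ • x, by simp [norm_smul, h]⟩

/-- The Laplace-Beltrami operator of the round unit sphere `S^n`: the Euclidean Laplacian of the
radially constant extension, restricted to `S^n`. -/
noncomputable def sphLaplacian {n : ℕ} {F : Type*} [NormedAddCommGroup F] [NormedSpace ℝ F]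
    (f : Sph n → F) (x : Sph n) : F :=
  Laplacian.laplacian (radialExt f) (x : Euc n)

lemma radialExt_coe {n : ℕ} {F : Type*} [Zero F] (f : Sph n → F) (x : Sph n) :
    radialExt f (x : Euc n) = f x := by
  have hx : ‖(x : Euc n)‖ = 1 := by simp
  have h0 : (x : Euc n) ≠ 0 := by
    intro h; rw [h] at hx; simp at hx
  simp [radialExt, h0]

lemma radialExt_smul {n : ℕ} {F : Type*} [Zero F] (f : Sph n → F) {c : ℝ} (hc : 0 < c)
    (x : Euc n) : radialExt f (c • x) = radialExt f x := by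
  unfold radialExt
  by_cases h : x = 0
  · simp [h]
  · have h' : c • x ≠ 0 := smul_ne_zero hc.ne' h
    rw [dif_neg h, dif_neg h']
    congr 2
    rw [norm_smul, Real.norm_of_nonneg hc.le, smul_smul, mul_inv, mul_assoc,
      mul_comm (‖x‖⁻¹) c, ← mul_assoc, inv_mul_cancel₀ hc.ne', one_mul]

lemma radialExt_of_ne {n : ℕ} {F : Type*} [Zero F] (f : Sph n → F) {x : Euc n} (hx : x ≠ 0) :
    radialExt f x = f ⟨‖x‖⁻¹ • x, by simp [norm_smul, hx]⟩ := by
  simp [radialExt, hx]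

/-- The radial extension of a smooth function is smooth away from the origin. -/
lemma contDiffAt_radialExt {n : ℕ} {F : Type*} [NormedAddCommGroup F] [NormedSpace ℝ F]
    {f : Sph n → F} (hf : ContMDiff (𝓡 n) 𝓘(ℝ, F) ∞ f) {x₀ : Euc n} (hx₀ : x₀ ≠ 0) :
    ContDiffAt ℝ ∞ (radialExt f) x₀ := by
  have hpos : 0 < ‖x₀‖ := norm_pos_iff.2 hx₀
  let χ : ContDiffBump x₀ := ⟨‖x₀‖ / 4, ‖x₀‖ / 2, by positivity, by linarith⟩
  let g : Euc n → Euc n := fun x => x₀ + χ x • (x - x₀)
  have hg : ContDiff ℝ ∞ g := by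
    have h1 : ContDiff ℝ ∞ (χ : Euc n → ℝ) := χ.contDiff
    exact contDiff_const.add (h1.smul (contDiff_id.sub contDiff_const))
  have hg0 : ∀ x, g x ≠ 0 := by
    intro x hx
    have h1 : ‖χ x • (x - x₀)‖ ≤ ‖x₀‖ / 2 := by
      by_cases hxx : x ∈ Metric.ball x₀ (‖x₀‖ / 2)
      · rw [norm_smul, Real.norm_of_nonneg χ.nonneg]
        have h2 : ‖x - x₀‖ < ‖x₀‖ / 2 := by simpa [dist_eq_norm] using hxx
        calc χ x * ‖x - x₀‖ ≤ 1 * ‖x - x₀‖ := by
              gcongr
              exact χ.le_one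
          _ ≤ ‖x₀‖ / 2 := by linarith
      · have : χ x = 0 := by
          by_contra hne
          have : x ∈ Function.support χ := hne
          rw [χ.support_eq] at this
          exact hxx this
        rw [this, zero_smul, norm_zero]
        positivity
    have h2 : x₀ = -(χ x • (x - x₀)) := by
      have : x₀ + χ x • (x - x₀) = 0 := hx
      rw [eq_neg_iff_add_eq_zero]; exact this
    have h3 : ‖x₀‖ ≤ ‖x₀‖ / 2 := by
      calc ‖x₀‖ = ‖χ x • (x - x₀)‖ := by
            conv_lhs => rw [h2]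
            rw [norm_neg]
        _ ≤ _ := h1
    linarith
  have hp : ContDiff ℝ ∞ (fun x => ‖g x‖⁻¹ • g x) := by
    rw [contDiff_iff_contDiffAt]
    intro x
    have h1 : ContDiffAt ℝ ∞ (fun x => ‖g x‖) x := (hg.contDiffAt).norm ℝ (hg0 x)
    exact (h1.inv (norm_ne_zero_iff.2 (hg0 x))).smul hg.contDiffAt
  have hsph : ∀ x, (fun x => ‖g x‖⁻¹ • g x) x ∈ Metric.sphere (0 : Euc n) 1 := by
    intro x
    simp [norm_smul, hg0 x]
  have : Fact (Module.finrank ℝ (Euc n) = n + 1) := ⟨finrank_euclideanSpace_fin⟩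
  have hq : ContMDiff 𝓘(ℝ, Euc n) (𝓡 n) ∞
      (Set.codRestrict _ _ hsph : Euc n → Metric.sphere (0 : Euc n) 1) :=
    ContMDiff.codRestrict_sphere hp.contMDiff hsph
  have hc : ContDiff ℝ ∞ (f ∘ (Set.codRestrict _ _ hsph : Euc n → Metric.sphere (0 : Euc n) 1)) :=
    contMDiff_iff_contDiff.1 (hf.comp hq)
  refine hc.contDiffAt.congr_of_eventuallyEq ?_
  filter_upwards [χ.eventuallyEq_one, isOpen_ne.mem_nhds hx₀] with x hx hne
  have hgx : g x = x := by
    simp only [g]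
    rw [hx]
    simp
  rw [radialExt_of_ne f hne]
  simp only [Function.comp_apply]
  congr 1
  apply Subtype.ext
  simp [hgx]

lemma radialExt_add {n : ℕ} {F : Type*} [AddZeroClass F] (f g : Sph n → F) :
    radialExt (f + g) = radialExt f + radialExt g := by
  ext x
  by_cases h : x = 0 <;> simp [radialExt, h]

lemma radialExt_smul_fun {n : ℕ} {F : Type*} [NormedAddCommGroup F] [NormedSpace ℝ F]
    (c : ℝ) (f : Sph n → F) :
    radialExt (c • f) = c • radialExt f := by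
  ext x
  by_cases h : x = 0 <;> simp [radialExt, h]

lemma sph_ne_zero {n : ℕ} (x : Sph n) : (x : Euc n) ≠ 0 := by
  have hx : ‖(x : Euc n)‖ = 1 := by simp
  intro h; rw [h] at hx; simp at hx

lemma sphLaplacian_add {n : ℕ} {F : Type*} [NormedAddCommGroup F] [NormedSpace ℝ F]
    {f g : Sph n → F} (hf : ContMDiff (𝓡 n) 𝓘(ℝ, F) ∞ f) (hg : ContMDiff (𝓡 n) 𝓘(ℝ, F) ∞ g)
    (x : Sph n) : sphLaplacian (f + g) x = sphLaplacian f x + sphLaplacian g x := by
  unfold sphLaplacian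
  rw [radialExt_add]
  exact ContDiffAt.laplacian_add ((contDiffAt_radialExt hf (sph_ne_zero x)).of_le (by norm_cast))
    ((contDiffAt_radialExt hg (sph_ne_zero x)).of_le (by norm_cast))

lemma sphLaplacian_smul {n : ℕ} {F : Type*} [NormedAddCommGroup F] [NormedSpace ℝ F]
    {f : Sph n → F} (hf : ContMDiff (𝓡 n) 𝓘(ℝ, F) ∞ f) (c : ℝ)
    (x : Sph n) : sphLaplacian (c • f) x = c • sphLaplacian f x := by
  unfold sphLaplacian
  rw [radialExt_smul_fun]
  exact InnerProductSpace.laplacian_smul c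
    ((contDiffAt_radialExt hf (sph_ne_zero x)).of_le (by norm_cast))

/-- The group `Γ ≤ O(n+1)` acts freely on the sphere `S^n`. -/
def ActsFreely {n : ℕ} (Γ : Subgroup (Orth n)) : Prop :=
  ∀ g ∈ Γ, g ≠ 1 → ∀ x : Sph n, g (x : Euc n) ≠ x

/-- The orbit equivalence relation of `Γ ≤ O(n+1)` on `S^n`. -/
def orbitRel {n : ℕ} (Γ : Subgroup (Orth n)) : Setoid (Sph n) where
  r x y := ∃ g ∈ Γ, g (x : Euc n) = y
  iseqv :=
    { refl := fun x => ⟨1, Γ.one_mem, rfl⟩
      symm := by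
        rintro x y ⟨g, hg, h⟩
        refine ⟨g⁻¹, Γ.inv_mem hg, ?_⟩
        rw [← h]
        exact g.symm_apply_apply _
      trans := by
        rintro x y z ⟨g, hg, h⟩ ⟨g', hg', h'⟩
        refine ⟨g' * g, Γ.mul_mem hg' hg, ?_⟩
        rw [← h', ← h]
        rfl }

/-- The quotient `S^n/Γ`. -/
def SpaceForm {n : ℕ} (Γ : Subgroup (Orth n)) : Type := Quotient (orbitRel Γ)

/-- The pullback to `S^n` of a function on `S^n/Γ`. -/
def lift {n : ℕ} {Γ : Subgroup (Orth n)} (φ : SpaceForm Γ → ℝ) : Sph n → ℝ :=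
  fun x => φ (Quotient.mk (orbitRel Γ) x)

/-- The eigenspace of the Laplace-Beltrami operator `-Δ` of the spherical space form `S^n/Γ` for the
real number `μ`: the smooth real functions `φ` on `S^n/Γ` with `-Δ φ = μ φ`. (As `S^n → S^n/Γ` is a
Riemannian covering, smoothness and `Δ` are computed on the pullback of `φ` to `S^n`.) -/
noncomputable def eigenspace {n : ℕ} (Γ : Subgroup (Orth n)) (μ : ℝ) :
    Submodule ℝ (SpaceForm Γ → ℝ) where
  carrier := {φ | ContMDiff (𝓡 n) 𝓘(ℝ, ℝ) ∞ (lift φ) ∧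
    ∀ x : Sph n, - sphLaplacian (lift φ) x = μ * lift φ x}
  add_mem' := by
    rintro φ ψ ⟨h1, h2⟩ ⟨h3, h4⟩
    have e : lift (φ + ψ) = lift φ + lift ψ := rfl
    refine ⟨?_, fun x => ?_⟩
    · rw [e]; exact h1.add h3
    · rw [e, sphLaplacian_add h1 h3, neg_add, h2, h4, Pi.add_apply, mul_add]
  zero_mem' := by
    have e : lift (0 : SpaceForm Γ → ℝ) = (0 : Sph n → ℝ) := rfl
    have h0 : ContMDiff (𝓡 n) 𝓘(ℝ, ℝ) ∞ (0 : Sph n → ℝ) := contMDiff_const
    refine ⟨by rw [e]; exact h0, fun x => ?_⟩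
    rw [e]
    have := sphLaplacian_smul h0 0 x
    rw [smul_zero, zero_smul] at this
    rw [this]; simp
  smul_mem' := by
    rintro c φ ⟨h1, h2⟩
    have e : lift (c • φ) = c • lift φ := rfl
    refine ⟨?_, fun x => ?_⟩
    · rw [e]
      have h3 : ContMDiff (𝓡 n) 𝓘(ℝ, ℝ) ∞ (fun _ : Sph n => c) := contMDiff_const
      exact h3.mul h1
    · rw [e, sphLaplacian_smul h1, Pi.smul_apply, smul_eq_mul, smul_eq_mul, ← mul_neg, h2]
      ring

/-- Two quotients `S^n/Γ₁` and `S^n/Γ₂` are isospectral: for every real number `μ` the eigenspaces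
of their Laplace-Beltrami operators for `μ` have the same dimension. -/
def Isospectral {n : ℕ} (Γ₁ Γ₂ : Subgroup (Orth n)) : Prop :=
  ∀ μ : ℝ, Module.rank ℝ (eigenspace Γ₁ μ) = Module.rank ℝ (eigenspace Γ₂ μ)

end Pool.Agent.Work.MP_add580_gt
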