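import Pool.Agent.Work.MP_add580_gt.Green

/-!
Density of polynomial functions on the sphere.
-/

open scoped ContDiff InnerProductSpace Manifold Topology
open Laplacian InnerProductSpace MeasureTheory

namespace Pool.Agent.Work.MP_add580_gt

variable {n : ℕ}

/-- All polynomial functions. -/
def polyFun (n : ℕ) : Submodule ℂ (Euc n → ℂ) := ⨆ k, homPoly (Euc n) k

lemma polyFun_mul {p q : Euc n → ℂ} (hp : p ∈ polyFun n) (hq : q ∈ polyFun n) :
    p * q ∈ polyFun n := by
  refine Submodule.iSup_induction (homPoly (Euc n)) (motive := fun p => p * q ∈ polyFun n) hp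
    ?_ ?_ ?_
  · intro i p hp
    refine Submodule.iSup_induction (homPoly (Euc n)) (motive := fun q => p * q ∈ polyFun n) hq
      ?_ ?_ ?_
    · intro j q hq
      exact Submodule.mem_iSup_of_mem (i + j) (mul_mem_homPoly hp hq)
    · rw [mul_zero]; exact Submodule.zero_mem _
    · intro x y hx hy
      rw [mul_add]; exact Submodule.add_mem _ hx hy
  · rw [zero_mul]; exact Submodule.zero_mem _
  · intro x y hx hy
    rw [add_mul]; exact Submodule.add_mem _ hx hy

lemma polyFun_conj {p : Euc n → ℂ} (hp : p ∈ polyFun n) :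
    (fun x => (starRingEnd ℂ) (p x)) ∈ polyFun n := by
  refine Submodule.iSup_induction (homPoly (Euc n))
    (motive := fun p => (fun x => (starRingEnd ℂ) (p x)) ∈ polyFun n) hp ?_ ?_ ?_
  · intro i p hp
    exact Submodule.mem_iSup_of_mem i (conj_mem hp)
  · simp only [Pi.zero_apply, map_zero]
    exact Submodule.zero_mem _
  · intro x y hx hy
    simp only [Pi.add_apply, map_add]
    exact Submodule.add_mem _ hx hy

lemma const_mem_polyFun (c : ℂ) : (fun _ => c) ∈ polyFun n :=
  Submodule.mem_iSup_of_mem 0 (mem_homPoly_zero.2 ⟨c, rfl⟩)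

lemma polyFun_continuous {p : Euc n → ℂ} (hp : p ∈ polyFun n) : Continuous p := by
  refine Submodule.iSup_induction (homPoly (Euc n))
    (motive := fun p => Continuous p) hp ?_ ?_ ?_
  · intro i p hp
    exact (homPoly_contDiff hp (m := 1)).continuous
  · exact continuous_const
  · intro x y hx hy
    exact hx.add hy

/-- The star subalgebra of restrictions of polynomial functions to the sphere. -/
def polyAlg (n : ℕ) : StarSubalgebra ℂ C(Sph n, ℂ) where
  carrier := {g | ∃ p ∈ polyFun n, ∀ x : Sph n, g x = p x}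
  mul_mem' := by
    rintro a b ⟨p, hp, h1⟩ ⟨q, hq, h2⟩
    exact ⟨p * q, polyFun_mul hp hq, fun x => by simp [h1, h2]⟩
  one_mem' := ⟨fun _ => 1, const_mem_polyFun 1, fun x => rfl⟩
  add_mem' := by
    rintro a b ⟨p, hp, h1⟩ ⟨q, hq, h2⟩
    exact ⟨p + q, Submodule.add_mem _ hp hq, fun x => by simp [h1, h2]⟩
  zero_mem' := ⟨0, Submodule.zero_mem _, fun x => rfl⟩
  algebraMap_mem' := fun c => ⟨fun _ => c, const_mem_polyFun c, fun x => rfl⟩
  star_mem' := by
    rintro a ⟨p, hp, h1⟩
    exact ⟨_, polyFun_conj hp, fun x => by simp [h1]⟩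

lemma inner_mem_polyFun (v : Euc n) : (fun x : Euc n => ((inner ℝ v x : ℝ) : ℂ)) ∈ polyFun n := by
  refine Submodule.mem_iSup_of_mem 1 ?_
  rw [homPoly_one]
  exact ⟨Complex.ofRealCLM.toLinearMap.comp (innerSL ℝ v).toLinearMap, rfl⟩

lemma polyAlg_separates : (polyAlg n).SeparatesPoints := by
  intro x y hxy
  let v : Euc n := x - y
  refine ⟨fun z => ((inner ℝ v (z : Euc n) : ℝ) : ℂ), ?_, ?_⟩
  · refine ⟨⟨fun z : Sph n => ((inner ℝ v (z : Euc n) : ℝ) : ℂ), by fun_prop⟩, ?_, rfl⟩
    exact ⟨_, inner_mem_polyFun v, fun x => rfl⟩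
  · intro h
    have h1 : (inner ℝ v (x : Euc n) : ℝ) = inner ℝ v (y : Euc n) := Complex.ofReal_injective h
    have h2 : (inner ℝ v v : ℝ) = 0 := by
      have : (inner ℝ v v : ℝ) = inner ℝ v (x : Euc n) - inner ℝ v (y : Euc n) := by
        rw [← inner_sub_right]
      rw [this, h1, sub_self]
    rw [inner_self_eq_zero] at h2
    apply hxy
    apply Subtype.ext
    exact sub_eq_zero.1 h2

lemma polyAlg_dense : (polyAlg n).topologicalClosure = ⊤ :=
  ContinuousMap.starSubalgebra_topologicalClosure_eq_top_of_separatesPoints _ polyAlg_separates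

lemma radialExt_continuousAt {f : Sph n → ℂ} (hf : Continuous f) {x : Euc n} (hx : x ≠ 0) :
    ContinuousAt (radialExt f) x := by
  have h1 : ContinuousOn (fun x : Euc n => ‖x‖⁻¹ • x) {0}ᶜ := by
    intro y hy
    have : y ≠ 0 := hy
    exact ((continuous_norm.continuousAt.inv₀ (norm_ne_zero_iff.2 this)).smul
      continuousAt_id).continuousWithinAt
  rw [← continuousWithinAt_iff_continuousAt (s := {0}ᶜ) (isOpen_ne.mem_nhds hx)]
  revert x
  change ContinuousOn (radialExt f) {0}ᶜ
  rw [continuousOn_iff_continuous_domRestrict] at h1 ⊢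
  have h2 : Continuous (fun y : ({0}ᶜ : Set (Euc n)) =>
      (⟨‖(y : Euc n)‖⁻¹ • (y : Euc n), by
        have : (y : Euc n) ≠ 0 := y.2
        simp [norm_smul, this]⟩ : Sph n)) := h1.subtype_mk _
  convert hf.comp h2 using 1
  ext y
  have : (y : Euc n) ≠ 0 := y.2
  simp only [Set.domRestrict_apply, Function.comp_apply]
  rw [radialExt_of_ne _ this]

/-- the weight -/
noncomputable def wt (n : ℕ) (x : Euc n) : ℝ := cut n x * (‖x‖ ^ 2)⁻¹

lemma wt_nonneg (x : Euc n) : 0 ≤ wt n x := mul_nonneg (cut_nonneg x) (by positivity)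

lemma cut_zero : cut n 0 = 0 := by
  have := notMem_tsupport_iff_eventuallyEq.1 (zero_notMem_tsupport_cut (n := n))
  exact this.eq_of_nhds

lemma integrable_wt {u : Euc n → ℂ} (hu : ∀ x ≠ 0, ContinuousAt u x) :
    Continuous (fun x => ((wt n x : ℝ) : ℂ) * u x) ∧
      Integrable (fun x => ((wt n x : ℝ) : ℂ) * u x) := by
  have h := integrable_mul_of (χ := fun x => (cut n x : ℂ))
    (u := fun x => (((‖x‖ ^ 2)⁻¹ : ℝ) : ℂ) * u x)
    (Complex.continuous_ofReal.comp cut_contDiff.continuous) ?_ ?_ ?_
  · have e : (fun x => ((wt n x : ℝ) : ℂ) * u x) =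
        (fun x => (cut n x : ℂ) * ((((‖x‖ ^ 2)⁻¹ : ℝ) : ℂ) * u x)) := by
      ext x
      simp only [wt]
      push_cast
      ring
    rw [e]
    exact h
  · exact hasCompactSupport_cut.comp_left (g := fun r : ℝ => (r : ℂ)) Complex.ofReal_zero
  · intro h
    apply zero_notMem_tsupport_cut (n := n)
    refine closure_mono ?_ h
    intro x hx hx'
    apply hx
    simp only
    rw [hx']
    simp
  · intro x hx
    have h1 : ContinuousAt (fun x : Euc n => (((‖x‖ ^ 2)⁻¹ : ℝ) : ℂ)) x := by
      apply Complex.continuous_ofReal.continuousAt.comp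
      exact (continuous_norm.pow 2).continuousAt.inv₀ (pow_ne_zero _ (norm_ne_zero_iff.2 hx))
    exact h1.mul (hu x hx)

lemma pair_integrable {f g : Sph n → ℂ} (hf : Continuous f) (hg : Continuous g) :
    Integrable (fun x => ((wt n x : ℝ) : ℂ) * (radialExt f x * radialExt g x)) :=
  (integrable_wt fun _ hx => (radialExt_continuousAt hf hx).mul (radialExt_continuousAt hg hx)).2

lemma pair_def (f g : Sph n → ℂ) :
    pair f g = ∫ x, ((wt n x : ℝ) : ℂ) * (radialExt f x * radialExt g x) := rfl

lemma pair_add_right {f g h : Sph n → ℂ} (hf : Continuous f) (hg : Continuous g)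
    (hh : Continuous h) : pair f (g + h) = pair f g + pair f h := by
  simp only [pair_def]
  rw [← integral_add (pair_integrable hf hg) (pair_integrable hf hh)]
  congr 1
  ext x
  rw [radialExt_add]
  simp only [Pi.add_apply]
  ring

lemma radialExt_csmul (c : ℂ) (f : Sph n → ℂ) :
    radialExt (c • f) = c • radialExt f := by
  ext x
  by_cases h : x = 0 <;> simp [radialExt, h]

lemma pair_smul_right (c : ℂ) (f g : Sph n → ℂ) : pair f (c • g) = c * pair f g := by
  simp only [pair_def]
  rw [← integral_const_mul]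
  congr 1
  ext x
  rw [radialExt_csmul]
  simp only [Pi.smul_apply, smul_eq_mul]
  ring

lemma pair_add_left {f g h : Sph n → ℂ} (hf : Continuous f) (hg : Continuous g)
    (hh : Continuous h) : pair (f + g) h = pair f h + pair g h := by
  rw [pair_comm, pair_add_right hh hf hg, pair_comm h f, pair_comm h g]

lemma pair_smul_left (c : ℂ) (f g : Sph n → ℂ) : pair (c • f) g = c * pair f g := by
  rw [pair_comm, pair_smul_right, pair_comm]

lemma pair_bound {f : Sph n → ℂ} (hf : Continuous f) (g : C(Sph n, ℂ)) :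
    ‖pair f g‖ ≤ (∫ x, ‖((wt n x : ℝ) : ℂ) * radialExt f x‖) * ‖g‖ := by
  rw [pair_def, ← integral_mul_const]
  refine norm_integral_le_of_norm_le ?_ ?_
  · exact ((integrable_wt fun _ hx => (radialExt_continuousAt hf hx)).2.norm.mul_const _)
  · refine Filter.Eventually.of_forall fun x => ?_
    rw [← mul_assoc, norm_mul]
    gcongr
    unfold radialExt
    split_ifs with h
    · simp
    · exact g.norm_coe_le_norm _

lemma pair_star_self {f : Sph n → ℂ} (hf : Continuous f)
    (h : pair f (fun x => (starRingEnd ℂ) (f x)) = 0) : f = 0 := by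
  have e : ∀ x, radialExt (fun x => (starRingEnd ℂ) (f x)) x = (starRingEnd ℂ) (radialExt f x) := by
    intro x
    by_cases h : x = 0 <;> simp [radialExt, h]
  have e2 : ∀ x, ((wt n x : ℝ) : ℂ) * (radialExt f x * radialExt (fun x => (starRingEnd ℂ) (f x)) x)
      = ((wt n x * ‖radialExt f x‖ ^ 2 : ℝ) : ℂ) := by
    intro x
    rw [e, Complex.mul_conj, Complex.normSq_eq_norm_sq]
    push_cast
    ring
  have hcont : Continuous (fun x => ((wt n x * ‖radialExt f x‖ ^ 2 : ℝ) : ℂ)) := by
    have := (integrable_wt (u := fun x => radialExt f x *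
      radialExt (fun x => (starRingEnd ℂ) (f x)) x) fun x hx =>
      (radialExt_continuousAt hf hx).mul (radialExt_continuousAt
        (Complex.continuous_conj.comp hf) hx)).1
    simp_rw [e2] at this
    exact this
  have hcont' : Continuous (fun x => (wt n x * ‖radialExt f x‖ ^ 2 : ℝ)) := by
    have := Complex.continuous_re.comp hcont
    exact this
  have hint := pair_integrable hf (Complex.continuous_conj.comp hf)
  have hint' : Integrable (fun x => (wt n x * ‖radialExt f x‖ ^ 2 : ℝ)) := by
    have h1 : Integrable (fun x => ((wt n x * ‖radialExt f x‖ ^ 2 : ℝ) : ℂ)) := by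
      simp_rw [← e2]
      exact hint
    exact h1.re
  rw [pair_def] at h
  simp_rw [e2] at h
  have h0 : ∫ x, (wt n x * ‖radialExt f x‖ ^ 2 : ℝ) = 0 := by
    have h0' : (((∫ x, (wt n x * ‖radialExt f x‖ ^ 2 : ℝ)) : ℝ) : ℂ) = 0 := by
      rw [← h]
      exact (integral_ofReal (𝕜 := ℂ)).symm
    exact_mod_cast h0'
  rw [integral_eq_zero_iff_of_nonneg (fun x => mul_nonneg (wt_nonneg x) (by positivity)) hint'] at h0
  have h1 : (fun x => (wt n x * ‖radialExt f x‖ ^ 2 : ℝ)) = fun _ => 0 :=
    (hcont'.ae_eq_iff_eq volume continuous_const).1 h0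
  ext x
  have h2 := congrFun h1 (x : Euc n)
  simp only [wt, cut_sph, radialExt_coe] at h2
  have hx : ‖(x : Euc n)‖ = 1 := by simp
  rw [hx] at h2
  simpa using h2

/-- Completeness: a continuous function orthogonal to all polynomials vanishes. -/
theorem eq_zero_of_pair {f : Sph n → ℂ} (hf : Continuous f)
    (h : ∀ k, ∀ p ∈ homPoly (Euc n) k, pair f (fun x : Sph n => p x) = 0) : f = 0 := by
  apply pair_star_self hf
  have h1 : ∀ p ∈ polyFun n, pair f (fun x : Sph n => p x) = 0 := by
    intro p hp
    have : Continuous p ∧ pair f (fun x : Sph n => p x) = 0 := by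
      refine Submodule.iSup_induction (homPoly (Euc n))
        (motive := fun p => Continuous p ∧ pair f (fun x : Sph n => p x) = 0) hp ?_ ?_ ?_
      · intro i p hp
        exact ⟨(homPoly_contDiff hp (m := 1)).continuous, h i p hp⟩
      · refine ⟨continuous_const, ?_⟩
        have := pair_smul_right 0 f (fun x : Sph n => (0 : ℂ))
        rw [zero_mul] at this
        rw [← this]
        congr 1
        ext x
        simp
      · rintro x y ⟨hx, hx'⟩ ⟨hy, hy'⟩
        refine ⟨hx.add hy, ?_⟩
        have := pair_add_right hf (hx.comp continuous_subtype_val : Continuous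
          (fun z : Sph n => x z)) (hy.comp continuous_subtype_val : Continuous
          (fun z : Sph n => y z))
        have hx'' : pair f (x ∘ (Subtype.val : Sph n → Euc n)) = 0 := hx'
        have hy'' : pair f (y ∘ (Subtype.val : Sph n → Euc n)) = 0 := hy'
        rw [hx'', hy'', add_zero] at this
        exact this
    exact this.2
  let F : C(Sph n, ℂ) := ⟨fun x => (starRingEnd ℂ) (f x), Complex.continuous_conj.comp hf⟩
  have hF : F ∈ (polyAlg n).topologicalClosure := by
    rw [polyAlg_dense]; trivial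
  have hF' : F ∈ closure ((polyAlg n : Set C(Sph n, ℂ))) := hF
  set C := (∫ x, ‖((wt n x : ℝ) : ℂ) * radialExt f x‖) with hC
  have hC0 : 0 ≤ C := integral_nonneg fun x => norm_nonneg _
  have key : ∀ ε > 0, ‖pair f F‖ ≤ C * ε := by
    intro ε hε
    obtain ⟨g, hg, hdist⟩ := Metric.mem_closure_iff.1 hF' ε hε
    obtain ⟨p, hp, hgp⟩ := hg
    have hg0 : pair f g = 0 := by
      have : (g : Sph n → ℂ) = fun x : Sph n => p x := by
        ext x; exact hgp x
      rw [this]
      exact h1 p hp
    have h2 : pair f F = pair f ((F - g : C(Sph n, ℂ)) : Sph n → ℂ) := by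
      have h3 := pair_add_right hf g.continuous (F - g).continuous
      rw [hg0, zero_add] at h3
      rw [← h3]
      congr 1
      ext x
      simp
    rw [h2]
    refine (pair_bound hf _).trans ?_
    rw [← hC]
    gcongr
    rw [← dist_eq_norm]
    exact hdist.le
  have h3 : ‖pair f F‖ = 0 := by
    by_contra hne
    have hpos : 0 < ‖pair f F‖ := lt_of_le_of_ne (norm_nonneg _) (Ne.symm hne)
    have h4 := key (‖pair f F‖ / (2 * (C + 1))) (by positivity)
    have h5 : C * (‖pair f F‖ / (2 * (C + 1))) < ‖pair f F‖ := by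
      rw [mul_div_assoc']
      rw [div_lt_iff₀ (by positivity)]
      nlinarith
    linarith
  exact norm_eq_zero.1 h3

end Pool.Agent.Work.MP_add580_gt
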