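import Pool.Agent.Work.MP_add580_gt.Trace

/-!
Generating functions, and the equality of the averaged generating functions.
-/

open scoped ContDiff InnerProductSpace ComplexConjugate

namespace Pool.Agent.Work.MP_add580_gt

open PowerSeries

section General

variable {ι : Type} [Fintype ι] [DecidableEq ι]

/-- geometric series -/
noncomputable def geo (t : ℂ) : PowerSeries ℂ := PowerSeries.mk fun n => t ^ n

lemma geo_mul (t : ℂ) : geo t * (1 - C t * X) = 1 := by
  ext n
  rcases n with _ | n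
  · simp [geo, mul_sub, ← mul_assoc]
  · rw [mul_sub, mul_one, map_sub, ← mul_assoc, PowerSeries.coeff_succ_mul_X,
      PowerSeries.coeff_mul_C, PowerSeries.coeff_one]
    simp [geo, pow_succ]

/-- the quadratic factor -/
noncomputable def qf (t : ℂ) : PowerSeries ℂ := (1 - C t * X) * (1 - C (conj t) * X)

/-- generating function of the traces -/
noncomputable def gf (c : ι → ℂ) : PowerSeries ℂ := ∏ v, geo (Sum.elim c (fun s => conj (c s)) v)

lemma coeff_gf (c : ι → ℂ) (k : ℕ) : coeff k (gf c) =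
    ∑ γ ∈ Finset.finsuppAntidiag (Finset.univ : Finset (ι ⊕ ι)) k, monoEv c γ := by
  unfold gf
  rw [PowerSeries.coeff_prod]
  refine Finset.sum_congr rfl fun γ _ => ?_
  unfold monoEv
  refine Finset.prod_congr rfl fun v _ => ?_
  simp [geo]

lemma gf_mul (c : ι → ℂ) : gf c * ∏ s, qf (c s) = 1 := by
  unfold gf qf
  rw [Fintype.prod_sum_type, ← Finset.prod_mul_distrib, ← Finset.prod_mul_distrib]
  refine Finset.prod_eq_one fun s _ => ?_
  simp only [Sum.elim_inl, Sum.elim_inr]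
  have h1 := geo_mul (c s)
  have h2 := geo_mul (conj (c s))
  linear_combination (geo (conj (c s)) * (1 - C (conj (c s)) * X)) * h1 + h2

lemma constantCoeff_qf (t : ℂ) : constantCoeff (qf t) = 1 := by
  simp [qf]

end General

section Arith

variable {m : ℕ} [NeZero m]

/-- the additive character -/
noncomputable abbrev ee (x : ZMod m) : ℂ := ZMod.stdAddChar x

lemma ee_add (x y : ZMod m) : ee (x + y) = ee x * ee y := AddChar.map_add_eq_mul _ _ _

lemma ee_zero : ee (0 : ZMod m) = 1 := AddChar.map_zero_eq_one _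

lemma conj_ee (x : ZMod m) : conj (ee x) = ee (-x) := (AddChar.map_neg_eq_conj _ _).symm

/-- Ramanujan type sum -/
noncomputable def ram (a : ZMod m) : ℂ := ∑ u : (ZMod m)ˣ, ee ((u : ZMod m) * a)

lemma ram_mul_unit (a : ZMod m) {v : ZMod m} (hv : IsUnit v) : ram (a * v) = ram a := by
  obtain ⟨v, rfl⟩ := hv
  unfold ram
  refine Fintype.sum_equiv (Equiv.mulRight v) _ _ fun u => ?_
  congr 1
  simp only [Equiv.coe_mulRight, Units.val_mul]
  ring

/-- the common denominator -/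
noncomputable def den (a : ZMod m) (w : ℂ) : PowerSeries ℂ :=
  ∏ u : (ZMod m)ˣ, qf (ee (a * (u : ZMod m)) * w)

lemma den_mul_unit (a : ZMod m) (w : ℂ) (v : (ZMod m)ˣ) : den ((v : ZMod m) * a) w = den a w := by
  unfold den
  refine Fintype.prod_equiv (Equiv.mulRight v) _ _ fun u => ?_
  congr 3
  simp only [Equiv.coe_mulRight, Units.val_mul]
  ring

lemma constantCoeff_den (a : ZMod m) (w : ℂ) : constantCoeff (den a w) = 1 := by
  unfold den
  rw [map_prod]
  exact Finset.prod_eq_one fun u _ => constantCoeff_qf _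

/-- the numerator -/
noncomputable def num (rp : Fin 3 → ZMod m) (a : ZMod m) (w : ℂ) : PowerSeries ℂ :=
  ∏ i, qf (ee (a * rp i) * w)

/-- the basic period -/
noncomputable def per (rp : Fin 3 → ZMod m) (a : ZMod m) : ℂ := ∑ i, ee (a * rp i)

lemma num_eq {rp : Fin 3 → ZMod m} (h0 : rp 0 + rp 1 + rp 2 = 0) (a : ZMod m) {w : ℂ}
    (hw : w ^ 3 = 1) (hw' : w * conj w = 1) :
    num rp a w = 1 - C (w * per rp a + conj w * per rp (-a)) * X
      + C (w * per rp a + conj w * per rp (-a) + per rp a * per rp (-a)) * X ^ 2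
      - C (2 + w ^ 2 * per rp a ^ 2 + conj w ^ 2 * per rp (-a) ^ 2) * X ^ 3
      + C (w * per rp a + conj w * per rp (-a) + per rp a * per rp (-a)) * X ^ 4
      - C (w * per rp a + conj w * per rp (-a)) * X ^ 5 + X ^ 6 := by
  have e3 : ee (a * rp 0) * ee (a * rp 1) * ee (a * rp 2) = 1 := by
    rw [← ee_add, ← ee_add, ← mul_add, ← mul_add, h0, mul_zero, ee_zero]
  have hc : ∀ i, ee (a * rp i) * ee (-a * rp i) = 1 := by
    intro i
    rw [← ee_add]
    have : a * rp i + -a * rp i = 0 := by ring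
    rw [this, ee_zero]
  have hcc : ∀ i, conj (ee (a * rp i)) = ee (-a * rp i) := by
    intro i
    rw [conj_ee]
    congr 1
    ring
  unfold num qf per
  simp only [Fin.prod_univ_three, Fin.sum_univ_three, map_mul, hcc]
  set y0 := ee (a * rp 0)
  set y1 := ee (a * rp 1)
  set y2 := ee (a * rp 2)
  set z0 := ee (-a * rp 0)
  set z1 := ee (-a * rp 1)
  set z2 := ee (-a * rp 2)
  set w' := conj w
  have c0 := hc 0
  have c1 := hc 1
  have c2 := hc 2
  change y0 * z0 = 1 at c0
  change y1 * z1 = 1 at c1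
  change y2 * z2 = 1 at c2
  -- products of two
  have d0 : y1 * y2 = z0 := by
    linear_combination z0 * e3 - y1 * y2 * c0
  have d1 : y0 * y2 = z1 := by
    linear_combination z1 * e3 - y0 * y2 * c1
  have d2 : y0 * y1 = z2 := by
    linear_combination z2 * e3 - y0 * y1 * c2
  have f3 : z0 * z1 * z2 = 1 := by
    linear_combination (-z0 * z1 * z2) * e3 + (y1 * z1 * y2 * z2) * c0 + (y2 * z2) * c1 + c2
  have f0 : z1 * z2 = y0 := by
    linear_combination y0 * f3 - z1 * z2 * c0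
  have f1 : z0 * z2 = y1 := by
    linear_combination y1 * f3 - z0 * z2 * c1
  have f2 : z0 * z1 = y2 := by
    linear_combination y2 * f3 - z0 * z1 * c2
  have ww : w ^ 2 = w' := by
    linear_combination w' * hw - w ^ 2 * hw'
  have ww' : w' ^ 2 = w := by
    rw [← ww]; linear_combination w * hw
  have P1 : (1 - C y0 * C w * X) * (1 - C y1 * C w * X) * (1 - C y2 * C w * X) =
      1 - C (w * (y0 + y1 + y2)) * X + C (w' * (z0 + z1 + z2)) * X ^ 2 - X ^ 3 := by
    have g1 : (C (w' * (z0 + z1 + z2)) : PowerSeries ℂ) =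
        C w ^ 2 * (C y1 * C y2 + C y0 * C y2 + C y0 * C y1) := by
      rw [← d0, ← d1, ← d2, ← ww]
      simp only [map_mul, map_add, map_pow]
    have g2 : (C y0 * C y1 * C y2 * C w ^ 3 : PowerSeries ℂ) = 1 := by
      rw [← map_mul, ← map_mul, ← map_pow, ← map_mul, e3, hw]
      simp
    rw [g1]
    simp only [map_mul, map_add]
    linear_combination (-X ^ 3) * g2
  have P2 : (1 - C z0 * C w' * X) * (1 - C z1 * C w' * X) * (1 - C z2 * C w' * X) =
      1 - C (w' * (z0 + z1 + z2)) * X + C (w * (y0 + y1 + y2)) * X ^ 2 - X ^ 3 := by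
    have g1 : (C (w * (y0 + y1 + y2)) : PowerSeries ℂ) =
        C w' ^ 2 * (C z1 * C z2 + C z0 * C z2 + C z0 * C z1) := by
      rw [← f0, ← f1, ← f2, ← ww']
      simp only [map_mul, map_add, map_pow]
    have g2 : (C z0 * C z1 * C z2 * C w' ^ 3 : PowerSeries ℂ) = 1 := by
      have hw3 : w' ^ 3 = 1 := by
        calc w' ^ 3 = w' ^ 2 * w' := by ring
          _ = w * w' := by rw [ww']
          _ = 1 := hw'
      rw [← map_mul, ← map_mul, ← map_pow, ← map_mul, f3, hw3]
      simp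
    rw [g1]
    simp only [map_mul, map_add]
    linear_combination (-X ^ 3) * g2
  calc _ = ((1 - C y0 * C w * X) * (1 - C y1 * C w * X) * (1 - C y2 * C w * X)) *
      ((1 - C z0 * C w' * X) * (1 - C z1 * C w' * X) * (1 - C z2 * C w' * X)) := by ring
    _ = _ := by
      rw [P1, P2]
      have hCw : (C w * C w' : PowerSeries ℂ) = 1 := by
        rw [← map_mul, hw']; simp
      simp only [map_mul, map_add, map_pow]
      have h2 : (C (2 : ℂ) : PowerSeries ℂ) = 2 := map_ofNat _ 2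
      rw [h2]
      linear_combination (X ^ 2 * (C y0 + C y1 + C y2) * (C z0 + C z1 + C z2) +
        X ^ 4 * (C y0 + C y1 + C y2) * (C z0 + C z1 + C z2)) * hCw

lemma sum_per {rp : Fin 3 → ZMod m} (hu : ∀ i, IsUnit (rp i)) (a : ZMod m) :
    ∑ u : (ZMod m)ˣ, per rp ((u : ZMod m) * a) = 3 * ram a := by
  unfold per
  rw [Finset.sum_comm]
  have : ∀ i, ∑ u : (ZMod m)ˣ, ee ((u : ZMod m) * a * rp i) = ram a := by
    intro i
    rw [← ram_mul_unit a (hu i)]
    unfold ram
    refine Finset.sum_congr rfl fun u _ => ?_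
    rw [mul_assoc]
  simp only [this]
  simp

lemma sum_per_mul {rp : Fin 3 → ZMod m} (hd : ∀ i j, i ≠ j → IsUnit (rp i - rp j)) (a : ZMod m) :
    ∑ u : (ZMod m)ˣ, per rp ((u : ZMod m) * a) * per rp (-((u : ZMod m) * a)) =
      3 * ram (0 : ZMod m) + 6 * ram a := by
  have h1 : ∀ u : (ZMod m)ˣ, per rp ((u : ZMod m) * a) * per rp (-((u : ZMod m) * a)) =
      ∑ i, ∑ j, ee ((u : ZMod m) * (a * (rp i - rp j))) := by
    intro u
    unfold per
    rw [Finset.sum_mul_sum]
    refine Finset.sum_congr rfl fun i _ => Finset.sum_congr rfl fun j _ => ?_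
    rw [← ee_add]
    congr 1
    ring
  simp_rw [h1]
  rw [Finset.sum_comm]
  have h2 : ∀ i, ∑ u : (ZMod m)ˣ, ∑ j, ee ((u : ZMod m) * (a * (rp i - rp j))) =
      ∑ j, ram (a * (rp i - rp j)) := by
    intro i
    rw [Finset.sum_comm]
    rfl
  simp_rw [h2]
  simp only [Fin.sum_univ_three, sub_self, mul_zero]
  rw [ram_mul_unit a (hd 0 1 (by decide)), ram_mul_unit a (hd 0 2 (by decide)),
    ram_mul_unit a (hd 1 0 (by decide)), ram_mul_unit a (hd 1 2 (by decide)),
    ram_mul_unit a (hd 2 0 (by decide)), ram_mul_unit a (hd 2 1 (by decide))]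
  ring

lemma sum_per_sq {rp : Fin 3 → ZMod m} (hs : ∀ i j, IsUnit (rp i + rp j)) (a : ZMod m) :
    ∑ u : (ZMod m)ˣ, per rp ((u : ZMod m) * a) ^ 2 = 9 * ram a := by
  have h1 : ∀ u : (ZMod m)ˣ, per rp ((u : ZMod m) * a) ^ 2 =
      ∑ i, ∑ j, ee ((u : ZMod m) * (a * (rp i + rp j))) := by
    intro u
    unfold per
    rw [sq, Finset.sum_mul_sum]
    refine Finset.sum_congr rfl fun i _ => Finset.sum_congr rfl fun j _ => ?_
    rw [← ee_add]
    congr 1
    ring
  simp_rw [h1]
  rw [Finset.sum_comm]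
  have h2 : ∀ i : Fin 3, ∑ u : (ZMod m)ˣ, ∑ j, ee ((u : ZMod m) * (a * (rp i + rp j))) =
      ∑ _j : Fin 3, ram a := by
    intro i
    rw [Finset.sum_comm]
    refine Finset.sum_congr rfl fun j _ => ?_
    rw [← ram_mul_unit a (hs i j)]
    rfl
  simp_rw [h2]
  simp
  ring

/-- Conditions on the triple `(1, r, r^2)`. -/
structure Good (rp : Fin 3 → ZMod m) : Prop where
  sum : rp 0 + rp 1 + rp 2 = 0
  unit : ∀ i, IsUnit (rp i)
  sub : ∀ i j, i ≠ j → IsUnit (rp i - rp j)
  add : ∀ i j, IsUnit (rp i + rp j)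

lemma ram_neg (a : ZMod m) : ram (-a) = ram a := by
  have h := ram_mul_unit a (v := -1) (by exact isUnit_one.neg)
  rwa [mul_neg, mul_one] at h

lemma sum_num {rp : Fin 3 → ZMod m} (h : Good rp) (a : ZMod m) {w : ℂ}
    (hw : w ^ 3 = 1) (hw' : w * conj w = 1) :
    ∑ u : (ZMod m)ˣ, num rp ((u : ZMod m) * a) w =
      (Fintype.card (ZMod m)ˣ : PowerSeries ℂ) - C ((w + conj w) * (3 * ram a)) * X
      + C ((w + conj w) * (3 * ram a) + (3 * ram (0 : ZMod m) + 6 * ram a)) * X ^ 2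
      - C (2 * Fintype.card (ZMod m)ˣ + (w ^ 2 + conj w ^ 2) * (9 * ram a)) * X ^ 3
      + C ((w + conj w) * (3 * ram a) + (3 * ram (0 : ZMod m) + 6 * ram a)) * X ^ 4
      - C ((w + conj w) * (3 * ram a)) * X ^ 5
      + (Fintype.card (ZMod m)ˣ : PowerSeries ℂ) * X ^ 6 := by
  simp_rw [num_eq h.sum _ hw hw']
  have n1 : ∑ u : (ZMod m)ˣ, per rp (-((u : ZMod m) * a)) = 3 * ram a := by
    have := sum_per h.unit (-a)
    rw [ram_neg] at this
    rw [← this]
    refine Finset.sum_congr rfl fun u _ => ?_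
    rw [mul_neg]
  have n2 : ∑ u : (ZMod m)ˣ, per rp (-((u : ZMod m) * a)) ^ 2 = 9 * ram a := by
    have := sum_per_sq h.add (-a)
    rw [ram_neg] at this
    rw [← this]
    refine Finset.sum_congr rfl fun u _ => ?_
    rw [mul_neg]
  have s1 : ∑ u : (ZMod m)ˣ, (w * per rp ((u : ZMod m) * a) +
      conj w * per rp (-((u : ZMod m) * a))) = (w + conj w) * (3 * ram a) := by
    rw [Finset.sum_add_distrib, ← Finset.mul_sum, ← Finset.mul_sum, sum_per h.unit, n1]
    ring
  have s2 : ∑ u : (ZMod m)ˣ, (w * per rp ((u : ZMod m) * a) +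
      conj w * per rp (-((u : ZMod m) * a)) + per rp ((u : ZMod m) * a) *
        per rp (-((u : ZMod m) * a))) =
      (w + conj w) * (3 * ram a) + (3 * ram (0 : ZMod m) + 6 * ram a) := by
    rw [Finset.sum_add_distrib, s1, sum_per_mul h.sub]
  have s3 : ∑ u : (ZMod m)ˣ, (2 + w ^ 2 * per rp ((u : ZMod m) * a) ^ 2 +
      conj w ^ 2 * per rp (-((u : ZMod m) * a)) ^ 2) =
      2 * Fintype.card (ZMod m)ˣ + (w ^ 2 + conj w ^ 2) * (9 * ram a) := by
    rw [Finset.sum_add_distrib, Finset.sum_add_distrib, ← Finset.mul_sum, ← Finset.mul_sum,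
      sum_per_sq h.add, n2]
    simp
    ring
  simp only [Finset.sum_add_distrib, Finset.sum_sub_distrib, ← Finset.sum_mul, ← map_sum,
    s1, s2, s3, Finset.sum_const, Finset.card_univ, nsmul_eq_mul, mul_one]

/-- the averaged generating function -/
lemma sum_num_den {rp : Fin 3 → ZMod m} (w : ℂ) :
    (Fintype.card (ZMod m)ˣ : PowerSeries ℂ) * ∑ a : ZMod m, num rp a w * (den a w)⁻¹ =
      ∑ a : ZMod m, (∑ u : (ZMod m)ˣ, num rp ((u : ZMod m) * a) w) * (den a w)⁻¹ := by
  have h1 : ∀ u : (ZMod m)ˣ, ∑ a : ZMod m, num rp a w * (den a w)⁻¹ =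
      ∑ a : ZMod m, num rp ((u : ZMod m) * a) w * (den a w)⁻¹ := by
    intro u
    refine (Fintype.sum_equiv (Units.mulLeft u) _ _ fun a => ?_).symm
    rw [Units.mulLeft_apply, den_mul_unit]
  have h2 : (Fintype.card (ZMod m)ˣ : PowerSeries ℂ) * ∑ a : ZMod m, num rp a w * (den a w)⁻¹ =
      ∑ u : (ZMod m)ˣ, ∑ a : ZMod m, num rp a w * (den a w)⁻¹ := by
    simp
  rw [h2]
  simp_rw [Finset.sum_mul]
  rw [Finset.sum_comm (s := (Finset.univ : Finset (ZMod m)))]
  exact Finset.sum_congr rfl fun u _ => h1 u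

/-- The key equality. -/
theorem sum_gf_eq {ι ι' : Type} [Fintype ι] [DecidableEq ι] [Fintype ι'] [DecidableEq ι']
    {rp rp' : Fin 3 → ZMod m} (h : Good rp) (h' : Good rp')
    (s : ι → ZMod m) (s' : ι' → ZMod m)
    (hs : ∀ F : ZMod m → PowerSeries ℂ, ∏ u : (ZMod m)ˣ, F (u : ZMod m) =
      (∏ j, F (s j)) * ∏ i, F (rp i))
    (hs' : ∀ F : ZMod m → PowerSeries ℂ, ∏ u : (ZMod m)ˣ, F (u : ZMod m) =
      (∏ j, F (s' j)) * ∏ i, F (rp' i))
    {w : ℂ} (hw : w ^ 3 = 1) (hw' : w * conj w = 1) :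
    ∑ a : ZMod m, gf (fun j => ee (a * s j) * w) =
      ∑ a : ZMod m, gf (fun j => ee (a * s' j) * w) := by
  have key : ∀ (κ : Type) [Fintype κ] [DecidableEq κ] (p : Fin 3 → ZMod m) (t : κ → ZMod m),
      (∀ F : ZMod m → PowerSeries ℂ, ∏ u : (ZMod m)ˣ, F (u : ZMod m) =
        (∏ j, F (t j)) * ∏ i, F (p i)) →
      ∀ a : ZMod m, gf (fun j => ee (a * t j) * w) = num p a w * (den a w)⁻¹ := by
    intro κ _ _ p t hpt a
    have h1 := gf_mul (fun j => ee (a * t j) * w)
    have h2 : den a w = (∏ j, qf (ee (a * t j) * w)) * num p a w :=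
      hpt (fun x => qf (ee (a * x) * w))
    have h3 : constantCoeff (den a w) ≠ 0 := by
      rw [constantCoeff_den]; exact one_ne_zero
    rw [PowerSeries.eq_mul_inv_iff_mul_eq h3, h2, ← mul_assoc, h1, one_mul]
  have hcard : (Fintype.card (ZMod m)ˣ : PowerSeries ℂ) ≠ 0 := by
    have : (Fintype.card (ZMod m)ˣ : ℂ) ≠ 0 := by
      exact_mod_cast Fintype.card_ne_zero
    intro h0
    apply this
    have := congrArg constantCoeff h0
    simpa using this
  simp_rw [key ι rp s hs, key ι' rp' s' hs']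
  apply mul_left_cancel₀ hcard
  rw [sum_num_den, sum_num_den]
  refine Finset.sum_congr rfl fun a _ => ?_
  rw [sum_num h a hw hw', sum_num h' a hw hw']

end Arith

end Pool.Agent.Work.MP_add580_gt
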