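import Pool.Agent.Work.MP_add580_gt.Radial

/-!
Self-adjointness of the Laplace-Beltrami operator on the sphere.
-/

open scoped ContDiff InnerProductSpace Manifold Topology
open Laplacian InnerProductSpace MeasureTheory

namespace Pool.Agent.Work.MP_add580_gt

variable {n : ℕ}

section RadialFacts

variable {f : Sph n → ℂ}

lemma radialExt_differentiableAt (hf : ContMDiff (𝓡 n) 𝓘(ℝ, ℂ) ∞ f) {x : Euc n} (hx : x ≠ 0) :
    DifferentiableAt ℝ (radialExt f) x :=
  (contDiffAt_radialExt hf hx).differentiableAt (by simp)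

lemma dirD_contDiffAt {F : Euc n → ℂ} {x : Euc n} (h : ContDiffAt ℝ ∞ F x) (v : Euc n) :
    ContDiffAt ℝ ∞ (dirD v F) x := by
  have h1 : ContDiffAt ℝ ∞ (fderiv ℝ F) x := h.fderiv_right (m := ∞) (by norm_cast)
  exact h1.clm_apply contDiffAt_const

/-- The radial derivative of the radially constant extension vanishes. -/
lemma dirD_radial (hf : ContMDiff (𝓡 n) 𝓘(ℝ, ℂ) ∞ f) {x : Euc n} (hx : x ≠ 0) :
    dirD x (radialExt f) x = 0 := by
  have h1 : HasFDerivAt (radialExt f) (fderiv ℝ (radialExt f) x) ((1 + (0 : ℝ)) • x) := by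
    have : (1 + (0 : ℝ)) • x = x := by simp
    rw [this]
    exact (radialExt_differentiableAt hf hx).hasFDerivAt
  have h2 : HasDerivAt (fun t : ℝ => (1 + t) • x) x 0 := by
    have := ((hasDerivAt_id (0 : ℝ)).const_add 1).smul_const x
    simpa using this
  have h3 := h1.comp_hasDerivAt (0 : ℝ) h2
  have h4 : (radialExt f ∘ fun t : ℝ => (1 + t) • x) =ᶠ[𝓝 (0 : ℝ)] fun _ => radialExt f x := by
    have : Set.Ioi (-1 : ℝ) ∈ 𝓝 (0 : ℝ) := Ioi_mem_nhds (by norm_num)
    filter_upwards [this] with t ht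
    have : 0 < 1 + t := by
      have : -1 < t := ht
      linarith
    simp only [Function.comp_apply]
    exact radialExt_smul f this x
  have h5 : HasDerivAt (fun _ : ℝ => radialExt f x) ((fderiv ℝ (radialExt f) x) x) 0 :=
    h3.congr_of_eventuallyEq h4.symm
  exact h5.unique (hasDerivAt_const _ _)

lemma radialExt_comp_smul (f : Sph n → ℂ) {c : ℝ} (hc : 0 < c) :
    (fun y => radialExt f (c • y)) = radialExt f := by
  ext y
  exact radialExt_smul f hc y

lemma dirD_comp_smul (F : Euc n → ℂ) (c : ℝ) (v x : Euc n) :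
    dirD v (fun y => F (c • y)) x = (c : ℂ) * dirD v F (c • x) := by
  simp only [dirD]
  rw [fderiv_comp_smul]
  simp

lemma laplacian_radialExt_scale (hf : ContMDiff (𝓡 n) 𝓘(ℝ, ℂ) ∞ f) {x : Euc n} (hx : x ≠ 0)
    {c : ℝ} (hc : 0 < c) :
    Laplacian.laplacian (radialExt f) x =
      (c : ℂ) ^ 2 * Laplacian.laplacian (radialExt f) (c • x) := by
  have hcx : c • x ≠ 0 := smul_ne_zero hc.ne' hx
  rw [laplacian_eq_sum ((contDiffAt_radialExt hf hx).of_le (by norm_cast)),
    laplacian_eq_sum ((contDiffAt_radialExt hf hcx).of_le (by norm_cast)), Finset.mul_sum]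
  refine Finset.sum_congr rfl fun i _ => ?_
  set v := (stdOrthonormalBasis ℝ (Euc n)) i
  have h1 : dirD v (radialExt f) = (c : ℂ) • (fun y => dirD v (radialExt f) (c • y)) := by
    ext y
    conv_lhs => rw [← radialExt_comp_smul f hc]
    rw [dirD_comp_smul]
    rfl
  have h2 : DifferentiableAt ℝ (fun y => dirD v (radialExt f) (c • y)) x := by
    have h3 : DifferentiableAt ℝ (dirD v (radialExt f)) (c • x) :=
      (dirD_contDiffAt (contDiffAt_radialExt hf hcx) v).differentiableAt (by simp)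
    exact h3.comp x (differentiableAt_id.const_smul c)
  conv_lhs => rw [h1]
  rw [dirD_smul_apply _ h2, dirD_comp_smul]
  ring

/-- Homogeneity of the Laplacian of the radially constant extension. -/
lemma laplacian_radialExt (hf : ContMDiff (𝓡 n) 𝓘(ℝ, ℂ) ∞ f) {x : Euc n} (hx : x ≠ 0) :
    Laplacian.laplacian (radialExt f) x =
      (((‖x‖ ^ 2)⁻¹ : ℝ) : ℂ) * radialExt (sphLaplacian f) x := by
  have hpos : 0 < ‖x‖ := norm_pos_iff.2 hx
  rw [laplacian_radialExt_scale hf hx (inv_pos.2 hpos), radialExt_of_ne _ hx]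
  unfold sphLaplacian
  congr 1
  push_cast
  rw [inv_pow]

end RadialFacts

section Cutoff

/-- A smooth bump function on the line around `1`. -/
noncomputable def bump : ContDiffBump (1 : ℝ) := ⟨1 / 4, 1 / 2, by norm_num, by norm_num⟩

/-- A radial cutoff function. -/
noncomputable def cut (n : ℕ) (x : Euc n) : ℝ := bump (‖x‖ ^ 2)

lemma cut_contDiff : ContDiff ℝ ∞ (cut n) := by
  have h1 : ContDiff ℝ ∞ (bump : ℝ → ℝ) := bump.contDiff
  exact h1.comp (contDiff_norm_sq ℝ)

lemma cut_nonneg (x : Euc n) : 0 ≤ cut n x := bump.nonneg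

lemma cut_sph (x : Sph n) : cut n x = 1 := by
  unfold cut
  have hx : ‖(x : Euc n)‖ = 1 := by simp
  rw [hx, one_pow]
  exact bump.one_of_mem_closedBall (by simp [bump])

lemma support_cut : Function.support (cut n) ⊆ {x : Euc n | 1 / 2 ≤ ‖x‖ ^ 2 ∧ ‖x‖ ^ 2 ≤ 3 / 2} := by
  intro x hx
  have h1 : ‖x‖ ^ 2 ∈ Function.support (bump : ℝ → ℝ) := hx
  rw [bump.support_eq] at h1
  simp only [bump, Metric.mem_ball, Real.dist_eq, abs_lt] at h1
  constructor <;> linarith [h1.1, h1.2]

lemma tsupport_cut : tsupport (cut n) ⊆ {x : Euc n | 1 / 2 ≤ ‖x‖ ^ 2 ∧ ‖x‖ ^ 2 ≤ 3 / 2} := by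
  refine closure_minimal support_cut ?_
  have h : Continuous (fun x : Euc n => ‖x‖ ^ 2) := by fun_prop
  exact (isClosed_le continuous_const h).inter (isClosed_le h continuous_const)

lemma ne_zero_of_mem_tsupport_cut {x : Euc n} (hx : x ∈ tsupport (cut n)) : x ≠ 0 := by
  rintro rfl
  have := (tsupport_cut hx).1
  norm_num at this

lemma hasCompactSupport_cut : HasCompactSupport (cut n) := by
  refine HasCompactSupport.of_support_subset_isCompact (isCompact_closedBall (0 : Euc n) 2) ?_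
  intro x hx
  have h := (support_cut hx).2
  simp only [Metric.mem_closedBall, dist_zero_right]
  nlinarith [norm_nonneg x]

lemma zero_notMem_tsupport_cut : (0 : Euc n) ∉ tsupport (cut n) :=
  fun h => ne_zero_of_mem_tsupport_cut h rfl

lemma dirD_cut (v : Euc n) (x : Euc n) :
    fderiv ℝ (cut n) x v = deriv (bump : ℝ → ℝ) (‖x‖ ^ 2) * (2 * inner ℝ x v) := by
  have h1 : HasFDerivAt (fun y : Euc n => ‖y‖ ^ 2) (2 • (innerSL ℝ x)) x :=
    (hasStrictFDerivAt_norm_sq x).hasFDerivAt
  have h0 : ContDiff ℝ ∞ (bump : ℝ → ℝ) := bump.contDiff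
  have h2 : HasDerivAt (bump : ℝ → ℝ) (deriv (bump : ℝ → ℝ) (‖x‖ ^ 2)) (‖x‖ ^ 2) :=
    ((h0.differentiable (by simp)) _).hasDerivAt
  have h3 := h2.comp_hasFDerivAt x h1
  have h4 : fderiv ℝ (cut n) x = _ := h3.fderiv
  rw [h4]
  simp

/-- Continuity and compact support of products with a function that is continuous away from `0`. -/
lemma integrable_mul_of {χ u : Euc n → ℂ} (hχ : Continuous χ) (hc : HasCompactSupport χ)
    (h0 : (0 : Euc n) ∉ tsupport χ) (hu : ∀ x ≠ 0, ContinuousAt u x) :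
    Continuous (fun x => χ x * u x) ∧ Integrable (fun x => χ x * u x) := by
  have hcont : Continuous (fun x => χ x * u x) := by
    rw [continuous_iff_continuousAt]
    intro x
    by_cases hx : x = 0
    · subst hx
      have h1 : χ =ᶠ[𝓝 0] 0 := notMem_tsupport_iff_eventuallyEq.1 h0
      have h2 : (fun x => χ x * u x) =ᶠ[𝓝 0] fun _ => 0 := by
        filter_upwards [h1] with y hy
        rw [hy]; simp
      exact (continuousAt_const).congr h2.symm
    · exact hχ.continuousAt.mul (hu x hx)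
  refine ⟨hcont, hcont.integrable_of_hasCompactSupport ?_⟩
  exact hc.mul_right

end Cutoff

section Green

variable {f g : Sph n → ℂ}

/-- the cut-off extension -/
noncomputable def cutExt (n : ℕ) (G : Euc n → ℂ) (x : Euc n) : ℂ := (cut n x : ℂ) * G x

lemma support_cutExt (G : Euc n → ℂ) : Function.support (cutExt n G) ⊆ Function.support (cut n) := by
  intro x hx hx'
  apply hx
  simp only [cutExt]
  rw [hx']
  simp

lemma tsupport_cutExt (G : Euc n → ℂ) : tsupport (cutExt n G) ⊆ tsupport (cut n) :=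
  closure_mono (support_cutExt G)

lemma contDiff_cutExt {G : Euc n → ℂ} (hG : ∀ x ≠ 0, ContDiffAt ℝ ∞ G x) :
    ContDiff ℝ ∞ (cutExt n G) := by
  rw [contDiff_iff_contDiffAt]
  intro x
  by_cases hx : x = 0
  · subst hx
    have h1 : cutExt n G =ᶠ[𝓝 0] 0 :=
      notMem_tsupport_iff_eventuallyEq.1 fun h => zero_notMem_tsupport_cut (tsupport_cutExt G h)
    exact (contDiffAt_const (c := (0 : ℂ))).congr_of_eventuallyEq h1
  · have h1 : ContDiffAt ℝ ∞ (fun x : Euc n => (cut n x : ℂ)) x :=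
      (Complex.ofRealCLM.contDiff.comp cut_contDiff).contDiffAt
    exact h1.mul (hG x hx)

lemma hasCompactSupport_cutExt (G : Euc n → ℂ) : HasCompactSupport (cutExt n G) :=
  HasCompactSupport.mono hasCompactSupport_cut (support_cutExt G)

lemma dirD_cutExt {G : Euc n → ℂ} {x : Euc n} (hG : DifferentiableAt ℝ G x) (v : Euc n) :
    dirD v (cutExt n G) x = (fderiv ℝ (cut n) x v : ℂ) * G x + (cut n x : ℂ) * dirD v G x := by
  have h0 : DifferentiableAt ℝ (cut n) x := (cut_contDiff.differentiable (by simp)) x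
  have h1 : HasFDerivAt (fun y : Euc n => (cut n y : ℂ))
      (Complex.ofRealCLM.comp (fderiv ℝ (cut n) x)) x :=
    Complex.ofRealCLM.hasFDerivAt.comp x h0.hasFDerivAt
  have h2 := h1.mul hG.hasFDerivAt
  change fderiv ℝ ((fun y : Euc n => (cut n y : ℂ)) * G) x v = _
  rw [h2.fderiv]
  simp [dirD]
  ring

/-- Integration by parts in the direction `v`. -/
lemma ibp (hf : ContMDiff (𝓡 n) 𝓘(ℝ, ℂ) ∞ f) (hg : ContMDiff (𝓡 n) 𝓘(ℝ, ℂ) ∞ g) (v : Euc n) :
    Integrable (fun x => cutExt n (radialExt g) x * dirD v (dirD v (radialExt f)) x) ∧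
    Integrable (fun x => dirD v (cutExt n (radialExt g)) x * dirD v (radialExt f) x) ∧
    ∫ x, cutExt n (radialExt g) x * dirD v (dirD v (radialExt f)) x =
      - ∫ x, dirD v (cutExt n (radialExt g)) x * dirD v (radialExt f) x := by
  have hF : ∀ x ≠ 0, ContDiffAt ℝ ∞ (radialExt f) x := fun x hx => contDiffAt_radialExt hf hx
  have hG : ∀ x ≠ 0, ContDiffAt ℝ ∞ (radialExt g) x := fun x hx => contDiffAt_radialExt hg hx
  have hcG := contDiff_cutExt hG
  have h0G : (0 : Euc n) ∉ tsupport (cutExt n (radialExt g)) :=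
    fun h => zero_notMem_tsupport_cut (tsupport_cutExt _ h)
  have hdF : ∀ x ≠ 0, ContDiffAt ℝ ∞ (dirD v (radialExt f)) x :=
    fun x hx => dirD_contDiffAt (hF x hx) v
  have hddF : ∀ x ≠ 0, ContDiffAt ℝ ∞ (dirD v (dirD v (radialExt f))) x :=
    fun x hx => dirD_contDiffAt (hdF x hx) v
  have hcdG : ContDiff ℝ ∞ (dirD v (cutExt n (radialExt g))) := by
    rw [contDiff_iff_contDiffAt]
    intro x
    exact dirD_contDiffAt hcG.contDiffAt v
  have hsd : Function.support (dirD v (cutExt n (radialExt g))) ⊆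
      tsupport (cutExt n (radialExt g)) := by
    intro x hx
    by_contra hcon
    apply hx
    have h1 : cutExt n (radialExt g) =ᶠ[𝓝 x] 0 := notMem_tsupport_iff_eventuallyEq.1 hcon
    simp only [dirD, h1.fderiv_eq]
    simp
  have h1 := (integrable_mul_of (u := dirD v (dirD v (radialExt f))) hcG.continuous
    (hasCompactSupport_cutExt _) h0G (fun x hx => (hddF x hx).continuousAt)).2
  have h2 := (integrable_mul_of (u := dirD v (radialExt f)) hcG.continuous
    (hasCompactSupport_cutExt _) h0G (fun x hx => (hdF x hx).continuousAt)).2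
  have hts : tsupport (dirD v (cutExt n (radialExt g))) ⊆ tsupport (cutExt n (radialExt g)) :=
    closure_minimal hsd (isClosed_tsupport _)
  have h3 := (integrable_mul_of (u := dirD v (radialExt f)) hcdG.continuous
    (HasCompactSupport.of_support_subset_isCompact (hasCompactSupport_cutExt _) hsd)
    (fun h => h0G (hts h)) (fun x hx => (hdF x hx).continuousAt)).2
  refine ⟨h1, h3, ?_⟩
  exact integral_mul_fderiv_eq_neg_fderiv_mul_of_integrable (𝕜 := ℂ)
    (f := cutExt n (radialExt g)) (g := dirD v (radialExt f)) (v := v) h3 h1 h2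
    (fun x _ => (hcG.differentiable (by simp)) x)
    (fun x hx => (hdF x (ne_zero_of_mem_tsupport_cut (tsupport_cutExt _ hx))).differentiableAt
      (by simp))

lemma sum_dirD_cutExt (hf : ContMDiff (𝓡 n) 𝓘(ℝ, ℂ) ∞ f) (hg : ContMDiff (𝓡 n) 𝓘(ℝ, ℂ) ∞ g)
    (x : Euc n) :
    ∑ i, dirD (stdOrthonormalBasis ℝ (Euc n) i) (cutExt n (radialExt g)) x *
        dirD (stdOrthonormalBasis ℝ (Euc n) i) (radialExt f) x =
      (cut n x : ℂ) * ∑ i, dirD (stdOrthonormalBasis ℝ (Euc n) i) (radialExt g) x *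
        dirD (stdOrthonormalBasis ℝ (Euc n) i) (radialExt f) x := by
  set b := stdOrthonormalBasis ℝ (Euc n)
  by_cases hx : x = 0
  · subst hx
    have h1 : cutExt n (radialExt g) =ᶠ[𝓝 0] 0 :=
      notMem_tsupport_iff_eventuallyEq.1 fun h => zero_notMem_tsupport_cut (tsupport_cutExt _ h)
    have h2 : cut n 0 = 0 := by
      have := notMem_tsupport_iff_eventuallyEq.1 (zero_notMem_tsupport_cut (n := n))
      exact this.eq_of_nhds
    rw [h2]
    have h3 : ∀ v, dirD v (cutExt n (radialExt g)) 0 = 0 := by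
      intro v
      simp only [dirD, h1.fderiv_eq]
      simp
    simp [h3]
  · have hG := radialExt_differentiableAt hg hx
    have hF := radialExt_differentiableAt hf hx
    have h1 : ∀ i, dirD (b i) (cutExt n (radialExt g)) x * dirD (b i) (radialExt f) x =
        (2 * deriv (bump : ℝ → ℝ) (‖x‖ ^ 2) * radialExt g x) *
          (((inner ℝ (b i) x : ℝ) : ℂ) * dirD (b i) (radialExt f) x) +
        (cut n x : ℂ) * (dirD (b i) (radialExt g) x * dirD (b i) (radialExt f) x) := by
      intro i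
      rw [dirD_cutExt hG, dirD_cut, real_inner_comm]
      push_cast
      ring
    simp_rw [h1]
    rw [Finset.sum_add_distrib, ← Finset.mul_sum, ← Finset.mul_sum]
    have h2 : ∑ i, ((inner ℝ (b i) x : ℝ) : ℂ) * dirD (b i) (radialExt f) x = 0 := by
      have h3 := dirD_radial hf hx
      have h4 : dirD x (radialExt f) x =
          (fderiv ℝ (radialExt f) x) (∑ i, (inner ℝ (b i) x : ℝ) • b i) := by
        rw [b.sum_repr' x]
        rfl
      rw [h4, map_sum] at h3
      rw [← h3]
      refine Finset.sum_congr rfl fun i _ => ?_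
      rw [map_smul, Complex.real_smul]
      rfl
    rw [h2]
    ring

lemma green_aux (hf : ContMDiff (𝓡 n) 𝓘(ℝ, ℂ) ∞ f) (hg : ContMDiff (𝓡 n) 𝓘(ℝ, ℂ) ∞ g) :
    ∫ x, cutExt n (radialExt g) x * Laplacian.laplacian (radialExt f) x =
      - ∫ x, (cut n x : ℂ) * ∑ i, dirD (stdOrthonormalBasis ℝ (Euc n) i) (radialExt g) x *
        dirD (stdOrthonormalBasis ℝ (Euc n) i) (radialExt f) x := by
  have h1 : ∀ x, cutExt n (radialExt g) x * Laplacian.laplacian (radialExt f) x =
      ∑ i, cutExt n (radialExt g) x * dirD (stdOrthonormalBasis ℝ (Euc n) i)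
        (dirD (stdOrthonormalBasis ℝ (Euc n) i) (radialExt f)) x := by
    intro x
    by_cases hx : x = 0
    · subst hx
      have h2 : cut n 0 = 0 := by
        have := notMem_tsupport_iff_eventuallyEq.1 (zero_notMem_tsupport_cut (n := n))
        exact this.eq_of_nhds
      simp [cutExt, h2]
    · rw [laplacian_eq_sum ((contDiffAt_radialExt hf hx).of_le (by norm_cast)), Finset.mul_sum]
  simp_rw [h1]
  rw [integral_finsetSum _ fun i _ => (ibp hf hg _).1]
  simp_rw [← sum_dirD_cutExt hf hg]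
  rw [integral_finsetSum _ fun i _ => (ibp hf hg _).2.1, ← Finset.sum_neg_distrib]
  exact Finset.sum_congr rfl fun i _ => (ibp hf hg _).2.2

/-- The bilinear pairing of functions on the sphere. -/
noncomputable def pair (f g : Sph n → ℂ) : ℂ :=
  ∫ x, ((cut n x * (‖x‖ ^ 2)⁻¹ : ℝ) : ℂ) * (radialExt f x * radialExt g x)

lemma pair_comm (f g : Sph n → ℂ) : pair f g = pair g f := by
  unfold pair
  congr 1
  ext x
  ring

lemma pair_eq (hf : ContMDiff (𝓡 n) 𝓘(ℝ, ℂ) ∞ f) (g : Sph n → ℂ) :
    pair (sphLaplacian f) g =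
      ∫ x, cutExt n (radialExt g) x * Laplacian.laplacian (radialExt f) x := by
  unfold pair
  congr 1
  ext x
  by_cases hx : x = 0
  · subst hx
    have h2 : cut n 0 = 0 := by
      have := notMem_tsupport_iff_eventuallyEq.1 (zero_notMem_tsupport_cut (n := n))
      exact this.eq_of_nhds
    simp [cutExt, h2]
  · rw [laplacian_radialExt hf hx]
    simp only [cutExt]
    push_cast
    ring

/-- Self-adjointness of the Laplace-Beltrami operator. -/
theorem pair_symm (hf : ContMDiff (𝓡 n) 𝓘(ℝ, ℂ) ∞ f) (hg : ContMDiff (𝓡 n) 𝓘(ℝ, ℂ) ∞ g) :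
    pair (sphLaplacian f) g = pair f (sphLaplacian g) := by
  rw [pair_comm f, pair_eq hf, pair_eq hg, green_aux hf hg, green_aux hg hf]
  congr 1
  congr 1
  ext x
  congr 1
  exact Finset.sum_congr rfl fun i _ => mul_comm _ _

end Green

end Pool.Agent.Work.MP_add580_gt
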