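import Pool.Agent.Work.MP_add580_gt.GenFun

/-!
The metacyclic groups and their fixed point free representations.
-/

open scoped ContDiff InnerProductSpace ComplexConjugate

namespace Pool.Agent.Work.MP_add580_gt

section Mon

variable {ι : Type} [Fintype ι]

/-- monomial isometries of `ℂ^ι` -/
noncomputable def mon (c : ι → Circle) (σ : Equiv.Perm ι) : CW ι ≃ₗᵢ[ℝ] CW ι :=
  (LinearIsometryEquiv.piLpCongrLeft 2 ℝ ℂ σ.symm).trans
    (LinearIsometryEquiv.piLpCongrRight 2 (fun i => rotation (c i)))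

lemma mon_apply (c : ι → Circle) (σ : Equiv.Perm ι) (z : CW ι) (s : ι) :
    (mon c σ z) s = (c s : ℂ) * z (σ s) := by
  simp [mon, LinearIsometryEquiv.piLpCongrLeft_apply, Equiv.piCongrLeft']

end Mon

lemma isUnit_of_coprime {m : ℕ} [NeZero m] {x : ZMod m} (h : Nat.Coprime (ZMod.val x) m) :
    IsUnit x := by
  have := (ZMod.isUnit_iff_coprime (ZMod.val x) m).2 h
  rwa [ZMod.natCast_zmod_val] at this

lemma coprime_of_isUnit {m : ℕ} [NeZero m] {x : ZMod m} (h : IsUnit x) :
    Nat.Coprime (ZMod.val x) m := by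
  rw [← ZMod.isUnit_iff_coprime, ZMod.natCast_zmod_val]
  exact h

lemma prod_units_filter {m : ℕ} [NeZero m] {M : Type*} [CommMonoid M] (F : ZMod m → M) :
    ∏ u : (ZMod m)ˣ, F (u : ZMod m) =
      ∏ x ∈ ((Finset.univ : Finset (ZMod m)).filter
        (fun x : ZMod m => Nat.Coprime (ZMod.val x) m)), F x := by
  refine Finset.prod_bij (fun u _ => (u : ZMod m)) ?_ ?_ ?_ ?_
  · intro u _
    simp only [Finset.mem_filter, Finset.mem_univ, true_and]
    exact coprime_of_isUnit u.isUnit
  · intro u _ v _ h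
    exact Units.ext h
  · intro x hx
    obtain ⟨u, hu⟩ := isUnit_of_coprime (Finset.mem_filter.1 hx).2
    exact ⟨u, Finset.mem_univ _, hu⟩
  · intro u _
    rfl

/-- reduction modulo 3 -/
def red (b : ZMod 9) : Fin 3 := (ZMod.castHom (by norm_num : 3 ∣ 9) (ZMod 3) b : ZMod 3)

lemma red_add (b c : ZMod 9) : red (b + c) = red b + red c := by
  revert b c; decide

lemma red_zero : red 0 = 0 := by decide

/-- The arithmetic data defining the groups. -/
structure Dat where
  rp : Fin 3 → ZMod 91
  k : Fin 23 → ZMod 91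
  good : Good rp
  mul : ∀ i j, rp (i + j) = rp i * rp j
  part : ((Finset.univ : Finset (ZMod 91)).filter (fun x : ZMod 91 => Nat.Coprime (ZMod.val x) 91)).val =
    (Finset.univ : Finset (Fin 23 × Fin 3)).val.map (fun p => k p.1 * rp p.2) +
      (Finset.univ : Finset (Fin 3)).val.map rp

/-- The index set. -/
abbrev II := Fin 23 × Fin 3

namespace Dat

variable (D : Dat)

/-- the rotation numbers -/
def s (p : II) : ZMod 91 := D.k p.1 * D.rp p.2

lemma rp_zero : D.rp 0 = 1 := by
  have h := D.mul 0 0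
  have hu := D.good.unit 0
  rw [add_zero] at h
  exact hu.mul_left_cancel (by rw [mul_one]; exact h.symm)

/-- the shift -/
def sh (b : ZMod 9) : Equiv.Perm II := Equiv.prodCongr (Equiv.refl _) (Equiv.addRight (red b))

lemma sh_apply (b : ZMod 9) (p : II) : sh b p = (p.1, p.2 + red b) := rfl

/-- The isometry `A^a B^b`. -/
noncomputable def T (a : ZMod 91) (b : ZMod 9) : CW II ≃ₗᵢ[ℝ] CW II :=
  mon (fun p => ZMod.toCircle (a * D.s p) * ZMod.toCircle b) (sh b)

lemma T_apply (a : ZMod 91) (b : ZMod 9) (z : CW II) (p : II) :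
    (D.T a b z) p = ZMod.stdAddChar (a * D.s p) * ZMod.stdAddChar b * z (sh b p) := by
  unfold T
  rw [mon_apply]
  rfl

lemma s_sh (b : ZMod 9) (p : II) : D.s (sh b p) = D.s p * D.rp (red b) := by
  simp only [s, sh_apply, D.mul]
  ring

lemma T_mul (a a' : ZMod 91) (b b' : ZMod 9) :
    D.T a b * D.T a' b' = D.T (a + D.rp (red b) * a') (b + b') := by
  apply LinearIsometryEquiv.ext
  intro z
  ext p
  change (D.T a b (D.T a' b' z)) p = _
  rw [T_apply, T_apply, T_apply]
  have h1 : (a + D.rp (red b) * a') * D.s p = a * D.s p + a' * D.s (sh b p) := by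
    rw [s_sh]; ring
  have h2 : sh (b + b') p = sh b' (sh b p) := by
    simp only [sh_apply, red_add, add_assoc]
  rw [h1, h2, AddChar.map_add_eq_mul, AddChar.map_add_eq_mul]
  ring

lemma T_zero : D.T 0 0 = 1 := by
  apply LinearIsometryEquiv.ext
  intro z
  ext p
  rw [T_apply]
  have : sh 0 p = p := by simp [sh_apply, red_zero]
  rw [this]
  simp

lemma T_inv (a : ZMod 91) (b : ZMod 9) :
    (D.T a b)⁻¹ = D.T (-(D.rp (red (-b)) * a)) (-b) := by
  apply inv_eq_of_mul_eq_one_left
  rw [T_mul]
  have h1 : -(D.rp (red (-b)) * a) + D.rp (red (-b)) * a = 0 := by ring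
  rw [h1, neg_add_cancel, T_zero]

/-- The group `Γ`. -/
noncomputable def Gam : Subgroup (CW II ≃ₗᵢ[ℝ] CW II) where
  carrier := {g | ∃ a b, g = D.T a b}
  mul_mem' := by
    rintro _ _ ⟨a, b, rfl⟩ ⟨a', b', rfl⟩
    exact ⟨_, _, D.T_mul a a' b b'⟩
  one_mem' := ⟨0, 0, D.T_zero.symm⟩
  inv_mem' := by
    rintro _ ⟨a, b, rfl⟩
    exact ⟨_, _, D.T_inv a b⟩

lemma isUnit_s (p : II) : IsUnit (D.s p) := by
  have h1 : D.s p ∈ ((Finset.univ : Finset (ZMod 91)).filter
      (fun x : ZMod 91 => Nat.Coprime (ZMod.val x) 91)).val := by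
    rw [D.part, Multiset.mem_add]
    left
    exact Multiset.mem_map.2 ⟨p, Finset.mem_univ_val _, rfl⟩
  have h2 : D.s p ∈ ((Finset.univ : Finset (ZMod 91)).filter
      (fun x : ZMod 91 => Nat.Coprime (ZMod.val x) 91)) := h1
  exact isUnit_of_coprime (Finset.mem_filter.1 h2).2

lemma prod_units (F : ZMod 91 → PowerSeries ℂ) : ∏ u : (ZMod 91)ˣ, F (u : ZMod 91) =
      (∏ j, F (D.s j)) * ∏ i, F (D.rp i) := by
  rw [prod_units_filter]
  unfold Finset.prod
  rw [D.part, Multiset.map_add, Multiset.prod_add, Multiset.map_map, Multiset.map_map]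
  rfl

end Dat

/-- The data with `r = 16`. -/
def D16 : Dat where
  rp := ![1, 16, 74]
  k := ![2, 3, 4, 5, 8, 9, 10, 11, 15, 17, 19, 20, 22, 25, 27, 33, 34, 38, 43, 44, 45, 50, 55]
  good :=
    { sum := by decide
      unit := by
        intro i; apply isUnit_of_coprime; revert i; decide
      sub := by
        intro i j h; apply isUnit_of_coprime; revert i j; decide
      add := by
        intro i j; apply isUnit_of_coprime; revert i j; decide }
  mul := by decide
  part := by decide +kernel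

/-- The data with `r = 9`. -/
def D9 : Dat where
  rp := ![1, 9, 81]
  k := ![2, 3, 4, 5, 6, 8, 10, 12, 15, 16, 19, 20, 23, 24, 29, 30, 37, 38, 40, 46, 47, 48, 57]
  good :=
    { sum := by decide
      unit := by
        intro i; apply isUnit_of_coprime; revert i; decide
      sub := by
        intro i j h; apply isUnit_of_coprime; revert i j; decide
      add := by
        intro i j; apply isUnit_of_coprime; revert i j; decide }
  mul := by decide
  part := by decide +kernel

end Pool.Agent.Work.MP_add580_gt
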