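import Pool.Agent.Work.MP_add580_gt.PolyFun

/-!
Monomials in `z` and its conjugate form a basis of the homogeneous polynomial functions on `ℂ^ι`,
and the trace of a diagonal isometry.
-/

open scoped ContDiff InnerProductSpace

namespace Pool.Agent.Work.MP_add580_gt

variable {ι : Type} [Fintype ι] [DecidableEq ι]

/-- `ℂ^ι` as a real Euclidean space. -/
abbrev CW (ι : Type) [Fintype ι] := PiLp 2 (fun _ : ι => ℂ)

/-- coordinate functions `z_s` and their conjugates, as monoid homomorphisms -/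
noncomputable def coordHom (v : ι ⊕ ι) : (ι → ℂ) →* ℂ :=
  Sum.elim (fun s => Pi.evalMonoidHom (fun _ : ι => ℂ) s)
    (fun s => (starRingEnd ℂ : ℂ →* ℂ).comp (Pi.evalMonoidHom (fun _ : ι => ℂ) s)) v

omit [Fintype ι] [DecidableEq ι] in
@[simp] lemma coordHom_inl (s : ι) (z : ι → ℂ) : coordHom (Sum.inl s) z = z s := rfl
omit [Fintype ι] [DecidableEq ι] in
@[simp] lemma coordHom_inr (s : ι) (z : ι → ℂ) :
    coordHom (Sum.inr s) z = (starRingEnd ℂ) (z s) := rfl

/-- monomials as monoid homomorphisms -/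
noncomputable def monoHom (γ : ι ⊕ ι →₀ ℕ) : (ι → ℂ) →* ℂ := ∏ v, coordHom v ^ (γ v)

omit [DecidableEq ι] in
lemma monoHom_apply (γ : ι ⊕ ι →₀ ℕ) (z : ι → ℂ) :
    monoHom γ z = ∏ v, coordHom v z ^ (γ v) := by
  simp [monoHom]

lemma monoHom_mulSingle (γ : ι ⊕ ι →₀ ℕ) (s : ι) (t : ℂ) :
    monoHom γ (Pi.mulSingle s t) = t ^ (γ (Sum.inl s)) * (starRingEnd ℂ) t ^ (γ (Sum.inr s)) := by
  rw [monoHom_apply, Fintype.prod_sum_type]
  congr 1
  · rw [Finset.prod_eq_single s]
    · simp
    · intro b _ hb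
      simp [Pi.mulSingle_eq_of_ne hb]
    · simp
  · rw [Finset.prod_eq_single s]
    · simp
    · intro b _ hb
      simp [Pi.mulSingle_eq_of_ne hb]
    · simp

lemma pow_pair_injective {p q p' q' : ℕ}
    (h : ∀ t : ℂ, t ^ p * (starRingEnd ℂ) t ^ q = t ^ p' * (starRingEnd ℂ) t ^ q') :
    p = p' ∧ q = q' := by
  have h2 := h 2
  have e2 : (starRingEnd ℂ) (2 : ℂ) = 2 := Complex.conj_ofReal 2
  rw [e2, ← pow_add, ← pow_add] at h2
  have h3 : p + q = p' + q' := by
    have h4 : (2 : ℕ) ^ (p + q) = 2 ^ (p' + q') := by exact_mod_cast h2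
    exact Nat.pow_right_injective le_rfl h4
  have h5 := h (Complex.exp Complex.I)
  rw [← Complex.exp_conj, Complex.conj_I, ← Complex.exp_nat_mul, ← Complex.exp_nat_mul,
    ← Complex.exp_nat_mul, ← Complex.exp_nat_mul, ← Complex.exp_add, ← Complex.exp_add,
    Complex.exp_eq_exp_iff_exists_int] at h5
  obtain ⟨m, hm⟩ := h5
  have h6 : ((p : ℝ) - q) = (p' - q') + m * (2 * Real.pi) := by
    have h7 := congrArg Complex.im hm
    simp at h7
    linarith
  have hm0 : m = 0 := by
    by_contra hne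
    have h8 : Irrational Real.pi := irrational_pi
    apply h8
    refine ⟨(((p : ℚ) - q) - (p' - q')) / (m * 2), ?_⟩
    have hmr : (m : ℝ) ≠ 0 := by exact_mod_cast hne
    push_cast
    rw [div_eq_iff (by positivity)]
    linarith
  rw [hm0] at h6
  simp only [Int.cast_zero, zero_mul, add_zero] at h6
  have h9 : (p : ℤ) - q = p' - q' := by exact_mod_cast h6
  omega

lemma monoHom_injective : Function.Injective (monoHom (ι := ι)) := by
  intro γ γ' h
  have h1 : ∀ s, γ (Sum.inl s) = γ' (Sum.inl s) ∧ γ (Sum.inr s) = γ' (Sum.inr s) := by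
    intro s
    apply pow_pair_injective
    intro t
    rw [← monoHom_mulSingle, ← monoHom_mulSingle, h]
  ext v
  rcases v with s | s
  · exact (h1 s).1
  · exact (h1 s).2

/-- monomial functions on `ℂ^ι` -/
noncomputable def mono (γ : ι ⊕ ι →₀ ℕ) (z : CW ι) : ℂ := monoHom γ (WithLp.ofLp z)

lemma mono_linearIndependent : LinearIndependent ℂ (mono (ι := ι)) := by
  have h1 : LinearIndependent ℂ (fun γ : ι ⊕ ι →₀ ℕ => (⇑(monoHom γ) : (ι → ℂ) → ℂ)) :=
    (linearIndependent_monoidHom (ι → ℂ) ℂ).comp _ monoHom_injective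
  have h2 : Function.Surjective (WithLp.ofLp : CW ι → (ι → ℂ)) := WithLp.ofLp_surjective 2
  have h3 := h1.map' (LinearMap.funLeft ℂ ℂ (WithLp.ofLp : CW ι → (ι → ℂ)))
    (LinearMap.ker_eq_bot.2 (LinearMap.funLeft_injective_of_surjective ℂ ℂ _ h2))
  exact h3

/-- coordinate function as a linear form -/
noncomputable def coordLin (v : ι ⊕ ι) : CW ι →ₗ[ℝ] ℂ where
  toFun z := coordHom v (WithLp.ofLp z)
  map_add' x y := by rcases v with s | s <;> simp
  map_smul' c x := by rcases v with s | s <;> simp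

lemma mono_eq_prod (γ : ι ⊕ ι →₀ ℕ) : mono γ = ∏ v, (⇑(coordLin v) : CW ι → ℂ) ^ (γ v) := by
  ext z
  simp only [mono, monoHom_apply, Finset.prod_apply, Pi.pow_apply]
  rfl

lemma pow_mem_homPoly {V : Type*} [AddCommGroup V] [Module ℝ V] (l : V →ₗ[ℝ] ℂ) (m : ℕ) :
    (⇑l : V → ℂ) ^ m ∈ homPoly V m := by
  unfold homPoly
  exact Submodule.pow_mem_pow _ (lin_mem l) m

lemma prod_mem_homPoly {V : Type*} [AddCommGroup V] [Module ℝ V] {κ : Type*}
    (s : Finset κ) (f : κ → V → ℂ) (m : κ → ℕ) (h : ∀ i ∈ s, f i ∈ homPoly V (m i)) :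
    ∏ i ∈ s, f i ∈ homPoly V (∑ i ∈ s, m i) := by
  classical
  induction s using Finset.induction_on with
  | empty =>
    simp only [Finset.prod_empty, Finset.sum_empty]
    exact mem_homPoly_zero.2 ⟨1, rfl⟩
  | insert a s ha ih =>
    rw [Finset.prod_insert ha, Finset.sum_insert ha]
    exact mul_mem_homPoly (h a (Finset.mem_insert_self _ _))
      (ih fun i hi => h i (Finset.mem_insert_of_mem hi))

lemma mono_mem (γ : ι ⊕ ι →₀ ℕ) : mono γ ∈ homPoly (CW ι) (∑ v, γ v) := by
  rw [mono_eq_prod]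
  exact prod_mem_homPoly _ _ _ fun i _ => pow_mem_homPoly _ _

lemma mono_add_single (γ : ι ⊕ ι →₀ ℕ) (v : ι ⊕ ι) :
    mono (γ + Finsupp.single v 1) = (⇑(coordLin v) : CW ι → ℂ) * mono γ := by
  rw [mono_eq_prod, mono_eq_prod]
  simp only [Finsupp.add_apply, pow_add, Finset.prod_mul_distrib]
  rw [mul_comm]
  congr 1
  rw [Finset.prod_eq_single v]
  · simp
  · intro b _ hb
    simp [Finsupp.single_eq_of_ne hb]
  · simp

/-- every real linear form is a combination of the coordinate functions -/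
lemma lin_eq_sum (l : CW ι →ₗ[ℝ] ℂ) : ∃ a : ι ⊕ ι → ℂ,
    (⇑l : CW ι → ℂ) = ∑ v, a v • (⇑(coordLin v) : CW ι → ℂ) := by
  let e : ι → ℂ → CW ι := fun s w => WithLp.toLp 2 (Pi.single s w)
  refine ⟨Sum.elim (fun s => (l (e s 1) - Complex.I * l (e s Complex.I)) / 2)
    (fun s => (l (e s 1) + Complex.I * l (e s Complex.I)) / 2), ?_⟩
  ext z
  have hz : z = ∑ s, ((z s).re • e s 1 + (z s).im • e s Complex.I) := by
    ext s
    simp only [WithLp.ofLp_sum, WithLp.ofLp_add, WithLp.ofLp_smul, Finset.sum_apply, Pi.add_apply,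
      Pi.smul_apply, e]
    rw [Finset.sum_eq_single s]
    · simp only [Pi.single_eq_same, Complex.real_smul, mul_one]
      exact (Complex.re_add_im _).symm
    · intro b _ hb
      simp [Pi.single_eq_of_ne (Ne.symm hb)]
    · simp
  conv_lhs => rw [hz]
  rw [map_sum, Finset.sum_apply, Fintype.sum_sum_type, ← Finset.sum_add_distrib]
  refine Finset.sum_congr rfl fun s _ => ?_
  simp only [map_add, map_smul, Complex.real_smul, Sum.elim_inl, Sum.elim_inr, Pi.smul_apply,
    smul_eq_mul, coordLin, LinearMap.coe_mk, AddHom.coe_mk, coordHom_inl, coordHom_inr]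
  have h1 : (z s : ℂ) = (z s).re + (z s).im * Complex.I := (Complex.re_add_im _).symm
  have h2 : (starRingEnd ℂ) (z s) = (z s).re - (z s).im * Complex.I := by
    apply Complex.ext <;> simp
  set a := (z s).re
  set b := (z s).im
  rw [h2, h1]
  linear_combination ((b : ℂ) * l (e s Complex.I)) * Complex.I_sq

/-- The spanning set of monomials. -/
def monoSpan (ι : Type) [Fintype ι] [DecidableEq ι] (k : ℕ) : Submodule ℂ (CW ι → ℂ) :=
  Submodule.span ℂ (mono '' {γ : ι ⊕ ι →₀ ℕ | ∑ v, γ v = k})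

lemma homPoly_eq_monoSpan (k : ℕ) : homPoly (CW ι) k = monoSpan ι k := by
  apply le_antisymm
  · intro f hf
    refine homPoly_induction (C := fun k f => f ∈ monoSpan ι k) ?_ ?_ ?_ k f hf
    · intro c
      have h1 : (fun _ => c : CW ι → ℂ) = c • mono 0 := by
        ext z
        simp [mono_eq_prod]
      rw [h1]
      exact Submodule.smul_mem _ _ (Submodule.subset_span ⟨0, by simp, rfl⟩)
    · intro k f g _ _ hf hg
      exact Submodule.add_mem _ hf hg
    · intro k l f _ hf
      obtain ⟨a, ha⟩ := lin_eq_sum l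
      rw [ha, Finset.sum_mul]
      refine Submodule.sum_mem _ fun v _ => ?_
      rw [smul_mul_assoc]
      refine Submodule.smul_mem _ _ ?_
      refine Submodule.span_induction (p := fun f _ => (⇑(coordLin v) : CW ι → ℂ) * f ∈
        monoSpan ι (k + 1)) ?_ ?_ ?_ ?_ hf
      · rintro _ ⟨γ, hγ, rfl⟩
        rw [← mono_add_single]
        refine Submodule.subset_span ⟨_, ?_, rfl⟩
        have hγ' : ∑ v, γ v = k := hγ
        simp only [Set.mem_ofPred_eq, Finsupp.add_apply, Finset.sum_add_distrib, hγ']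
        congr 1
        rw [Finset.sum_eq_single v]
        · simp
        · intro b _ hb
          simp [Finsupp.single_eq_of_ne hb]
        · simp
      · rw [mul_zero]; exact Submodule.zero_mem _
      · intro x y _ _ hx hy
        rw [mul_add]; exact Submodule.add_mem _ hx hy
      · intro c x _ hx
        rw [mul_smul_comm]; exact Submodule.smul_mem _ _ hx
  · refine Submodule.span_le.2 ?_
    rintro _ ⟨γ, hγ, rfl⟩
    have hγ' : ∑ v, γ v = k := hγ
    rw [← hγ']
    exact mono_mem γ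

/-- index set of monomials of degree `k` -/
abbrev Idx (ι : Type) [Fintype ι] [DecidableEq ι] (k : ℕ) :=
  {γ : ι ⊕ ι →₀ ℕ // γ ∈ Finset.finsuppAntidiag (Finset.univ : Finset (ι ⊕ ι)) k}

lemma idx_sum {k : ℕ} (γ : Idx ι k) : ∑ v, γ.1 v = k :=
  (Finset.mem_finsuppAntidiag.1 γ.2).1

/-- the basis of monomials -/
noncomputable def monoBasis (ι : Type) [Fintype ι] [DecidableEq ι] (k : ℕ) :
    Module.Basis (Idx ι k) ℂ (homPoly (CW ι) k) :=
  Module.Basis.mk (v := fun γ => ⟨mono γ.1, by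
    have := mono_mem γ.1
    rwa [idx_sum γ] at this⟩) (by
    apply LinearIndependent.of_comp (homPoly (CW ι) k).subtype
    exact mono_linearIndependent.comp _ Subtype.val_injective) (by
    rintro ⟨f, hf⟩ _
    have hf' := hf
    rw [homPoly_eq_monoSpan] at hf'
    unfold monoSpan at hf'
    have h1 : Submodule.span ℂ (mono '' {γ : ι ⊕ ι →₀ ℕ | ∑ v, γ v = k}) ≤
        (Submodule.span ℂ (Set.range (fun γ : Idx ι k => (⟨mono γ.1, by
          have := mono_mem γ.1
          rwa [idx_sum γ] at this⟩ : homPoly (CW ι) k)))).map (homPoly (CW ι) k).subtype := by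
      rw [Submodule.span_le]
      rintro _ ⟨γ, hγ, rfl⟩
      refine ⟨_, Submodule.subset_span ⟨⟨γ, Finset.mem_finsuppAntidiag.2
        ⟨hγ, Finset.subset_univ _⟩⟩, rfl⟩, rfl⟩
    obtain ⟨g, hg, hgf⟩ := h1 hf'
    have : g = ⟨f, hf⟩ := Subtype.ext hgf
    rw [← this]
    exact hg)

lemma monoBasis_apply (k : ℕ) (γ : Idx ι k) :
    ((monoBasis ι k γ : homPoly (CW ι) k) : CW ι → ℂ) = mono γ.1 := by
  unfold monoBasis
  rw [Module.Basis.mk_apply]

/-- composition with an isometry on homogeneous polynomials -/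
noncomputable def pullHom {V : Type*} [NormedAddCommGroup V] [InnerProductSpace ℝ V]
    (g : V ≃ₗᵢ[ℝ] V) (k : ℕ) : homPoly V k →ₗ[ℂ] homPoly V k where
  toFun f := ⟨fun x => (f : V → ℂ) (g x), pull_mem f.2 g.toLinearEquiv.toLinearMap⟩
  map_add' _ _ := rfl
  map_smul' _ _ := rfl

end Pool.Agent.Work.MP_add580_gt
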