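import Mathlib

/-!
Complex valued polynomial functions on a finite dimensional real inner product space,
graded by degree, and their elementary calculus.
-/

open scoped ContDiff InnerProductSpace
open Laplacian InnerProductSpace

namespace Pool.Agent.Work.MP_add580_gt

section Defs

variable (V : Type*) [AddCommGroup V] [Module ℝ V]

/-- The complex valued real-linear forms on `V`, as a complex subspace of `V → ℂ`. -/
def linForms : Submodule ℂ (V → ℂ) where
  carrier := {f | ∃ l : V →ₗ[ℝ] ℂ, ⇑l = f}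
  add_mem' := by
    rintro f g ⟨l, rfl⟩ ⟨m, rfl⟩
    exact ⟨l + m, rfl⟩
  zero_mem' := ⟨0, rfl⟩
  smul_mem' := by
    rintro c f ⟨l, rfl⟩
    exact ⟨c • l, rfl⟩

/-- Homogeneous polynomial functions of degree `k`. -/
def homPoly (k : ℕ) : Submodule ℂ (V → ℂ) := linForms V ^ k

end Defs

section Algebra

variable {V : Type*} [AddCommGroup V] [Module ℝ V]
variable {W : Type*} [AddCommGroup W] [Module ℝ W]

lemma mem_linForms {f : V → ℂ} : f ∈ linForms V ↔ ∃ l : V →ₗ[ℝ] ℂ, ⇑l = f := Iff.rfl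

lemma lin_mem (l : V →ₗ[ℝ] ℂ) : ⇑l ∈ linForms V := ⟨l, rfl⟩

lemma homPoly_zero : homPoly V 0 = 1 := Submodule.pow_zero _

lemma homPoly_one : homPoly V 1 = linForms V := Submodule.pow_one _

lemma homPoly_succ (k : ℕ) : homPoly V (k + 1) = linForms V * homPoly V k := by
  unfold homPoly
  rw [pow_succ']

lemma homPoly_add (j k : ℕ) : homPoly V (j + k) = homPoly V j * homPoly V k := by
  unfold homPoly
  rw [pow_add]

lemma mem_homPoly_zero {f : V → ℂ} : f ∈ homPoly V 0 ↔ ∃ c : ℂ, f = fun _ => c := by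
  rw [homPoly_zero, Submodule.mem_one]
  constructor
  · rintro ⟨c, rfl⟩
    exact ⟨c, rfl⟩
  · rintro ⟨c, rfl⟩
    exact ⟨c, rfl⟩

lemma mul_mem_homPoly {j k : ℕ} {f g : V → ℂ} (hf : f ∈ homPoly V j) (hg : g ∈ homPoly V k) :
    f * g ∈ homPoly V (j + k) := by
  rw [homPoly_add]
  exact Submodule.mul_mem_mul hf hg

/-- induction principle for homogeneous polynomial functions -/
lemma homPoly_induction {C : ℕ → (V → ℂ) → Prop}
    (h0 : ∀ c : ℂ, C 0 (fun _ => c))
    (hadd : ∀ k f g, f ∈ homPoly V k → g ∈ homPoly V k → C k f → C k g → C k (f + g))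
    (hmul : ∀ k (l : V →ₗ[ℝ] ℂ) f, f ∈ homPoly V k → C k f → C (k + 1) (⇑l * f)) :
    ∀ k f, f ∈ homPoly V k → C k f := by
  intro k
  induction k with
  | zero =>
    intro f hf
    obtain ⟨c, rfl⟩ := mem_homPoly_zero.1 hf
    exact h0 c
  | succ k ih =>
    intro f hf
    have key : f ∈ homPoly V (k + 1) ∧ C (k + 1) f := by
      have hf' := hf
      rw [homPoly_succ] at hf'
      refine Submodule.mul_induction_on (C := fun f => f ∈ homPoly V (k + 1) ∧ C (k + 1) f)
        hf' ?_ ?_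
      · rintro _ ⟨l, rfl⟩ g hg
        refine ⟨?_, hmul k l g hg (ih g hg)⟩
        rw [homPoly_succ]
        exact Submodule.mul_mem_mul (lin_mem l) hg
      · rintro f g ⟨hf, hf'⟩ ⟨hg, hg'⟩
        exact ⟨Submodule.add_mem _ hf hg, hadd _ f g hf hg hf' hg'⟩
    exact key.2

/-- homogeneity -/
lemma homPoly_smul {k : ℕ} {f : V → ℂ} (hf : f ∈ homPoly V k) (c : ℝ) (x : V) :
    f (c • x) = (c : ℂ) ^ k * f x := by
  revert f
  intro f hf
  refine homPoly_induction (C := fun k f => f (c • x) = (c : ℂ) ^ k * f x) ?_ ?_ ?_ k f hf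
  · intro c; simp
  · intro k f g _ _ hf hg
    simp only [Pi.add_apply, hf, hg]; ring
  · intro k l f _ hf
    simp only [Pi.mul_apply, hf, map_smul, Complex.real_smul]
    ring

/-- pullback along a linear map, as an algebra homomorphism -/
def pull (g : V →ₗ[ℝ] W) : (W → ℂ) →ₐ[ℂ] (V → ℂ) where
  toFun f := f ∘ g
  map_one' := rfl
  map_mul' _ _ := rfl
  map_zero' := rfl
  map_add' _ _ := rfl
  commutes' _ := rfl

@[simp] lemma pull_apply (g : V →ₗ[ℝ] W) (f : W → ℂ) (x : V) : pull g f x = f (g x) := rfl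

lemma pull_linForms_le (g : V →ₗ[ℝ] W) :
    (linForms W).map (pull g).toLinearMap ≤ linForms V := by
  rintro _ ⟨_, ⟨l, rfl⟩, rfl⟩
  exact ⟨l.comp g, rfl⟩

lemma pull_homPoly_le (g : V →ₗ[ℝ] W) (k : ℕ) :
    (homPoly W k).map (pull g).toLinearMap ≤ homPoly V k := by
  unfold homPoly
  rw [Submodule.map_pow]
  induction k with
  | zero => simp
  | succ k ih =>
    rw [pow_succ, pow_succ]
    exact Submodule.mul_le.2 fun a ha b hb =>
      Submodule.mul_mem_mul (ih ha) (pull_linForms_le g hb)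

lemma pull_mem {k : ℕ} {f : W → ℂ} (hf : f ∈ homPoly W k) (g : V →ₗ[ℝ] W) :
    (fun x => f (g x)) ∈ homPoly V k :=
  pull_homPoly_le g k ⟨f, hf, rfl⟩

/-- closed under complex conjugation -/
lemma conj_mem {k : ℕ} {f : V → ℂ} (hf : f ∈ homPoly V k) :
    (fun x => (starRingEnd ℂ) (f x)) ∈ homPoly V k := by
  refine homPoly_induction (C := fun k f => (fun x => (starRingEnd ℂ) (f x)) ∈ homPoly V k)
    ?_ ?_ ?_ k f hf
  · intro c
    rw [mem_homPoly_zero]
    exact ⟨_, rfl⟩
  · intro k f g _ _ hf hg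
    have := Submodule.add_mem _ hf hg
    convert this using 1
    ext x; simp
  · intro k l f _ hf
    rw [homPoly_succ]
    have h1 : (fun x => (starRingEnd ℂ) (l x)) ∈ linForms V :=
      ⟨(Complex.conjAe.toLinearMap.restrictScalars ℝ).comp l, rfl⟩
    have := Submodule.mul_mem_mul h1 hf
    convert this using 1
    ext x; simp

/-- finite dimensionality of linear forms -/
lemma linForms_fg [FiniteDimensional ℝ V] : (linForms V).FG := by
  let φ : (V →ₗ[ℝ] ℂ) →ₗ[ℂ] (V → ℂ) :=
    { toFun := fun l => ⇑l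
      map_add' := fun _ _ => rfl
      map_smul' := fun _ _ => rfl }
  have h : linForms V = LinearMap.range φ := by
    ext f; rfl
  have : Module.Finite ℂ (V →ₗ[ℝ] ℂ) := Module.Finite.of_restrictScalars_finite ℝ ℂ _
  rw [h, LinearMap.range_eq_map]
  exact Module.Finite.fg_top.map φ

lemma homPoly_fg [FiniteDimensional ℝ V] (k : ℕ) : (homPoly V k).FG :=
  linForms_fg.pow k

instance [FiniteDimensional ℝ V] (k : ℕ) : FiniteDimensional ℂ (homPoly V k) :=
  Module.Finite.iff_fg.2 (homPoly_fg k)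

end Algebra

section Calculus

variable {V : Type*} [NormedAddCommGroup V] [InnerProductSpace ℝ V] [FiniteDimensional ℝ V]

lemma homPoly_contDiff {k : ℕ} {f : V → ℂ} (hf : f ∈ homPoly V k) {m : WithTop ℕ∞} :
    ContDiff ℝ m f := by
  refine homPoly_induction (C := fun _ f => ContDiff ℝ m f) ?_ ?_ ?_ k f hf
  · intro c
    exact contDiff_const
  · intro k f g _ _ hf hg
    exact hf.add hg
  · intro k l f _ hf
    exact (LinearMap.toContinuousLinearMap l).contDiff.mul hf

lemma homPoly_differentiable {k : ℕ} {f : V → ℂ} (hf : f ∈ homPoly V k) : Differentiable ℝ f :=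
  (homPoly_contDiff hf (m := 1)).differentiable (by simp)

/-- directional derivative -/
noncomputable def dirD (v : V) (f : V → ℂ) : V → ℂ := fun x => fderiv ℝ f x v

lemma dirD_zero {f : V → ℂ} (hf : f ∈ homPoly V 0) (v : V) : dirD v f = 0 := by
  obtain ⟨c, rfl⟩ := mem_homPoly_zero.1 hf
  ext x
  simp [dirD]

lemma dirD_mul_lin (l : V →ₗ[ℝ] ℂ) {f : V → ℂ} (hf : Differentiable ℝ f) (v : V) :
    dirD v (⇑l * f) = l v • f + ⇑l * dirD v f := by
  ext x
  have h1 : HasFDerivAt (⇑l) (LinearMap.toContinuousLinearMap l) x :=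
    (LinearMap.toContinuousLinearMap l).hasFDerivAt
  have h2 := h1.mul (hf x).hasFDerivAt
  simp only [dirD, h2.fderiv]
  simp [dirD]
  ring

lemma dirD_mem' {k : ℕ} {f : V → ℂ} (hf : f ∈ homPoly V k) (v : V) :
    (k = 0 → dirD v f = 0) ∧ (∀ j, k = j + 1 → dirD v f ∈ homPoly V j) := by
  refine homPoly_induction (C := fun k f => (k = 0 → dirD v f = 0) ∧
    (∀ j, k = j + 1 → dirD v f ∈ homPoly V j)) ?_ ?_ ?_ k f hf
  · intro c
    refine ⟨fun _ => dirD_zero (mem_homPoly_zero.2 ⟨c, rfl⟩) v, fun j hj => by omega⟩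
  · intro k f g hf hg h1 h2
    have hadd : dirD v (f + g) = dirD v f + dirD v g := by
      ext x
      simp only [dirD, Pi.add_apply]
      rw [fderiv_add (homPoly_differentiable hf x) (homPoly_differentiable hg x)]
      rfl
    rw [hadd]
    refine ⟨fun h => by rw [h1.1 h, h2.1 h, add_zero], fun j hj => ?_⟩
    exact Submodule.add_mem _ (h1.2 j hj) (h2.2 j hj)
  · intro k l f hf h1
    refine ⟨fun h => by omega, fun j hj => ?_⟩
    obtain rfl : k = j := by omega
    rw [dirD_mul_lin l (homPoly_differentiable hf)]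
    refine Submodule.add_mem _ (Submodule.smul_mem _ _ hf) ?_
    rcases k with _ | k
    · rw [h1.1 rfl, mul_zero]
      exact Submodule.zero_mem _
    · rw [homPoly_succ]
      exact Submodule.mul_mem_mul (lin_mem l) (h1.2 k rfl)

lemma dirD_mem {k : ℕ} {f : V → ℂ} (hf : f ∈ homPoly V (k + 1)) (v : V) :
    dirD v f ∈ homPoly V k := (dirD_mem' hf v).2 k rfl

lemma euler {k : ℕ} {f : V → ℂ} (hf : f ∈ homPoly V k) (x : V) :
    fderiv ℝ f x x = k * f x := by
  refine homPoly_induction (C := fun k f => fderiv ℝ f x x = k * f x) ?_ ?_ ?_ k f hf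
  · intro c; simp
  · intro k f g hf hg h1 h2
    rw [fderiv_add (homPoly_differentiable hf x) (homPoly_differentiable hg x)]
    simp only [_root_.add_apply, h1, h2, Pi.add_apply]
    ring
  · intro k l f hf h1
    have := congrFun (dirD_mul_lin l (homPoly_differentiable hf) x) x
    simp only [dirD, Pi.add_apply, Pi.mul_apply, Pi.smul_apply, smul_eq_mul, h1] at this
    rw [this]
    simp only [Pi.mul_apply]
    push_cast
    ring

lemma iteratedFDeriv_two_eq_dirD {f : V → ℂ} {x : V} (hf : ContDiffAt ℝ 2 f x) (v : V) :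
    iteratedFDeriv ℝ 2 f x ![v, v] = dirD v (dirD v f) x := by
  rw [iteratedFDeriv_two_apply]
  have h1 : DifferentiableAt ℝ (fderiv ℝ f) x := by
    have := hf.fderiv_right (m := 1) (by norm_num)
    exact this.differentiableAt (by norm_num)
  change _ = fderiv ℝ (fun y => fderiv ℝ f y v) x v
  rw [fderiv_clm_apply h1 (differentiableAt_const v)]
  simp

lemma laplacian_eq_sum {f : V → ℂ} {x : V} (hf : ContDiffAt ℝ 2 f x) :
    Laplacian.laplacian f x = ∑ i, dirD (stdOrthonormalBasis ℝ V i)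
      (dirD (stdOrthonormalBasis ℝ V i) f) x := by
  rw [laplacian_eq_iteratedFDeriv_stdOrthonormalBasis]
  exact Finset.sum_congr rfl fun i _ => iteratedFDeriv_two_eq_dirD hf _

lemma laplacian_mem {k : ℕ} {f : V → ℂ} (hf : f ∈ homPoly V (k + 2)) :
    Laplacian.laplacian f ∈ homPoly V k := by
  have h : Laplacian.laplacian f = ∑ i, dirD (stdOrthonormalBasis ℝ V i)
      (dirD (stdOrthonormalBasis ℝ V i) f) := by
    ext x
    rw [laplacian_eq_sum (homPoly_contDiff hf).contDiffAt]
    simp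
  rw [h]
  exact Submodule.sum_mem _ fun i _ => dirD_mem (dirD_mem hf _) _

lemma laplacian_low {k : ℕ} (hk : k < 2) {f : V → ℂ} (hf : f ∈ homPoly V k) :
    Laplacian.laplacian f = 0 := by
  ext x
  rw [laplacian_eq_sum (homPoly_contDiff hf).contDiffAt]
  rw [Pi.zero_apply]
  refine Finset.sum_eq_zero fun i _ => ?_
  interval_cases k
  · rw [dirD_zero hf]
    simp [dirD]
  · rw [dirD_zero (dirD_mem hf _)]
    simp

end Calculus

end Pool.Agent.Work.MP_add580_gt
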