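import Pool.Agent.Work.MP_add580_gt.PolyFun
import Pool.Agent.Work.MP_add580_gt.Defs

/-!
The Laplace-Beltrami operator on restrictions of homogeneous polynomials.
-/

open scoped ContDiff InnerProductSpace Manifold Topology
open Laplacian InnerProductSpace

namespace Pool.Agent.Work.MP_add580_gt

section General

variable {V : Type*} [NormedAddCommGroup V] [InnerProductSpace ℝ V]

lemma normSq_pos {x : V} (hx : x ≠ 0) : 0 < ‖x‖ ^ 2 := by positivity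

lemma dirD_congr {f g : V → ℂ} {x : V} (h : f =ᶠ[𝓝 x] g) (v : V) : dirD v f x = dirD v g x := by
  simp only [dirD, h.fderiv_eq]

lemma dirD_add_apply {f g : V → ℂ} {x v : V} (hf : DifferentiableAt ℝ f x)
    (hg : DifferentiableAt ℝ g x) : dirD v (f + g) x = dirD v f x + dirD v g x := by
  simp only [dirD]
  rw [fderiv_add hf hg]
  rfl

lemma dirD_smul_apply {f : V → ℂ} {x v : V} (c : ℂ) (hf : DifferentiableAt ℝ f x) :
    dirD v (c • f) x = c * dirD v f x := by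
  simp only [dirD]
  rw [fderiv_const_smul hf]
  rfl

lemma hasFDerivAt_weight (a : ℝ) {x : V} (hx : x ≠ 0) :
    HasFDerivAt (fun y : V => (((‖y‖ ^ 2) ^ a : ℝ) : ℂ))
      (Complex.ofRealCLM.comp ((a * (‖x‖ ^ 2) ^ (a - 1)) • (2 • (innerSL ℝ x)))) x := by
  have h1 : HasFDerivAt (fun y : V => ‖y‖ ^ 2) (2 • (innerSL ℝ x)) x := by
    exact (hasStrictFDerivAt_norm_sq x).hasFDerivAt
  have h2 := (Real.hasDerivAt_rpow_const (x := ‖x‖ ^ 2) (p := a)
    (Or.inl (normSq_pos hx).ne')).comp_hasFDerivAt x h1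
  exact Complex.ofRealCLM.hasFDerivAt.comp x h2

lemma dirD_weight (a : ℝ) {q : V → ℂ} {x : V} (hx : x ≠ 0) (hq : DifferentiableAt ℝ q x) (v : V) :
    dirD v (fun y => (((‖y‖ ^ 2) ^ a : ℝ) : ℂ) * q y) x =
      2 * a * (((‖x‖ ^ 2) ^ (a - 1) : ℝ) : ℂ) * ((inner ℝ x v : ℝ) : ℂ) * q x +
      (((‖x‖ ^ 2) ^ a : ℝ) : ℂ) * dirD v q x := by
  have h := (hasFDerivAt_weight a hx).mul hq.hasFDerivAt
  change fderiv ℝ ((fun y : V => (((‖y‖ ^ 2) ^ a : ℝ) : ℂ)) * q) x v = _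
  rw [h.fderiv]
  simp [dirD]
  ring


lemma dirD_inner_mul {q : V → ℂ} {x : V} (hq : DifferentiableAt ℝ q x) (v : V) :
    dirD v (fun y => ((inner ℝ y v : ℝ) : ℂ) * q y) x =
      ((inner ℝ v v : ℝ) : ℂ) * q x + ((inner ℝ x v : ℝ) : ℂ) * dirD v q x := by
  have h1 : HasFDerivAt (fun y : V => ((inner ℝ y v : ℝ) : ℂ))
      (Complex.ofRealCLM.comp ((innerSL ℝ v))) x := by
    have : (fun y : V => ((inner ℝ y v : ℝ) : ℂ)) = Complex.ofRealCLM.comp (innerSL ℝ v) := by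
      ext y
      simp [real_inner_comm]
    rw [this]
    exact ContinuousLinearMap.hasFDerivAt _
  have h := h1.mul hq.hasFDerivAt
  change fderiv ℝ ((fun y : V => ((inner ℝ y v : ℝ) : ℂ)) * q) x v = _
  rw [h.fderiv]
  simp [dirD]
  ring

lemma differentiableAt_weight (a : ℝ) {x : V} (hx : x ≠ 0) :
    DifferentiableAt ℝ (fun y : V => (((‖y‖ ^ 2) ^ a : ℝ) : ℂ)) x :=
  (hasFDerivAt_weight a hx).differentiableAt

lemma dirD_dirD_weight (a : ℝ) {q : V → ℂ} (hq : ContDiff ℝ 2 q) {x : V} (hx : ‖x‖ = 1) (v : V) :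
    dirD v (dirD v (fun y => (((‖y‖ ^ 2) ^ a : ℝ) : ℂ) * q y)) x =
      4 * a * (a - 1) * ((inner ℝ x v : ℝ) : ℂ) ^ 2 * q x
      + 2 * a * (((inner ℝ v v : ℝ) : ℂ) * q x + ((inner ℝ x v : ℝ) : ℂ) * dirD v q x)
      + 2 * a * ((inner ℝ x v : ℝ) : ℂ) * dirD v q x + dirD v (dirD v q) x := by
  have hx0 : x ≠ 0 := by
    rintro rfl
    simp at hx
  have hqd : Differentiable ℝ q := hq.differentiable (by norm_num)
  have hdq : ∀ x, DifferentiableAt ℝ (dirD v q) x := by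
    intro x
    have h1 : DifferentiableAt ℝ (fderiv ℝ q) x := by
      have := (hq.fderiv_right (m := 1) (by norm_num))
      exact this.differentiable (by norm_num) x
    exact h1.clm_apply (differentiableAt_const v)
  have hev : dirD v (fun y => (((‖y‖ ^ 2) ^ a : ℝ) : ℂ) * q y) =ᶠ[𝓝 x]
      ((2 * a : ℂ) • (fun y : V => (((‖y‖ ^ 2) ^ (a - 1) : ℝ) : ℂ) *
        (((inner ℝ y v : ℝ) : ℂ) * q y))) +
      (fun y : V => (((‖y‖ ^ 2) ^ a : ℝ) : ℂ) * dirD v q y) := by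
    filter_upwards [isOpen_ne.mem_nhds hx0] with y hy
    rw [dirD_weight a hy (hqd y)]
    simp only [Pi.add_apply, Pi.smul_apply, smul_eq_mul]
    ring
  rw [dirD_congr hev]
  have hi : DifferentiableAt ℝ (fun y : V => ((inner ℝ y v : ℝ) : ℂ) * q y) x := by
    have : (fun y : V => ((inner ℝ y v : ℝ) : ℂ)) = Complex.ofRealCLM.comp (innerSL ℝ v) := by
      ext y
      simp [real_inner_comm]
    have h3 : DifferentiableAt ℝ (fun y : V => ((inner ℝ y v : ℝ) : ℂ)) x := by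
      rw [this]
      exact ContinuousLinearMap.differentiableAt _
    exact h3.mul (hqd x)
  have hd1 : DifferentiableAt ℝ (fun y : V => (((‖y‖ ^ 2) ^ (a - 1) : ℝ) : ℂ) *
        (((inner ℝ y v : ℝ) : ℂ) * q y)) x := (differentiableAt_weight _ hx0).mul hi
  have hd2 : DifferentiableAt ℝ (fun y : V => (((‖y‖ ^ 2) ^ a : ℝ) : ℂ) * dirD v q y) x :=
    (differentiableAt_weight _ hx0).mul (hdq x)
  have hsplit : dirD v (((2 * a : ℂ) • (fun y : V => (((‖y‖ ^ 2) ^ (a - 1) : ℝ) : ℂ) *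
        (((inner ℝ y v : ℝ) : ℂ) * q y))) +
      (fun y : V => (((‖y‖ ^ 2) ^ a : ℝ) : ℂ) * dirD v q y)) x =
      (2 * a : ℂ) * dirD v (fun y : V => (((‖y‖ ^ 2) ^ (a - 1) : ℝ) : ℂ) *
        (((inner ℝ y v : ℝ) : ℂ) * q y)) x +
      dirD v (fun y : V => (((‖y‖ ^ 2) ^ a : ℝ) : ℂ) * dirD v q y) x := by
    rw [dirD_add_apply (hd1.const_smul (2 * a : ℂ)) hd2, dirD_smul_apply _ hd1]
  rw [hsplit, dirD_weight _ hx0 hi, dirD_weight _ hx0 (hdq x), dirD_inner_mul (hqd x)]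
  simp only [hx, one_pow, Real.one_rpow, Complex.ofReal_one]
  push_cast
  ring

end General

section Sphere

variable {n : ℕ}

lemma contMDiff_restrict {p : Euc n → ℂ} (hp : ContDiff ℝ ∞ p) :
    ContMDiff (𝓡 n) 𝓘(ℝ, ℂ) ∞ (fun y : Sph n => p y) := by
  have : Fact (Module.finrank ℝ (Euc n) = n + 1) := ⟨finrank_euclideanSpace_fin⟩
  exact hp.contMDiff.comp contMDiff_coe_sphere

lemma radialExt_restrict {k : ℕ} {p : Euc n → ℂ} (hp : p ∈ homPoly (Euc n) k) {x : Euc n}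
    (hx : x ≠ 0) : radialExt (fun y : Sph n => p y) x =
      (((‖x‖ ^ 2) ^ (-(k : ℝ) / 2) : ℝ) : ℂ) * p x := by
  rw [radialExt_of_ne _ hx]
  change p (‖x‖⁻¹ • x) = _
  rw [homPoly_smul hp]
  congr 1
  rw [← Complex.ofReal_pow]
  congr 1
  have hpos : 0 < ‖x‖ := norm_pos_iff.2 hx
  rw [← Real.rpow_natCast (‖x‖) 2, ← Real.rpow_mul hpos.le]
  have : ((2 : ℕ) : ℝ) * (-(k : ℝ) / 2) = -(k : ℝ) := by push_cast; ring
  rw [this, Real.rpow_neg hpos.le, Real.rpow_natCast, inv_pow]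

/-- The Laplace-Beltrami operator on the restriction of a homogeneous polynomial. -/
theorem sphLaplacian_restrict {k : ℕ} {p : Euc n → ℂ} (hp : p ∈ homPoly (Euc n) k) (x : Sph n) :
    sphLaplacian (fun y : Sph n => p y) x =
      Laplacian.laplacian p (x : Euc n) - (k : ℂ) * (k + n - 1) * p x := by
  have hx : ‖(x : Euc n)‖ = 1 := by simp
  have hx0 : (x : Euc n) ≠ 0 := sph_ne_zero x
  unfold sphLaplacian
  have hev : radialExt (fun y : Sph n => p y) =ᶠ[𝓝 (x : Euc n)]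
      (fun y => (((‖y‖ ^ 2) ^ (-(k : ℝ) / 2) : ℝ) : ℂ) * p y) := by
    filter_upwards [isOpen_ne.mem_nhds hx0] with y hy
    exact radialExt_restrict hp hy
  have hsm : ContDiffAt ℝ 2 (radialExt (fun y : Sph n => p y)) (x : Euc n) :=
    (contDiffAt_radialExt (contMDiff_restrict (homPoly_contDiff hp)) hx0).of_le (by norm_cast)
  have hsm2 : ContDiffAt ℝ 2 (fun y : Euc n => (((‖y‖ ^ 2) ^ (-(k : ℝ) / 2) : ℝ) : ℂ) * p y)
      (x : Euc n) := hsm.congr_of_eventuallyEq hev.symm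
  rw [(laplacian_congr_nhds hev).eq_of_nhds, laplacian_eq_sum hsm2]
  have hp2 : ContDiff ℝ 2 p := homPoly_contDiff hp
  simp_rw [dirD_dirD_weight _ hp2 hx]
  set b := stdOrthonormalBasis ℝ (Euc n)
  have e1 : ∑ i, ((inner ℝ (x : Euc n) (b i) : ℝ) : ℂ) ^ 2 = 1 := by
    have := b.sum_sq_inner_left (x : Euc n)
    rw [hx] at this
    have h2 : ((∑ i, (inner ℝ (x : Euc n) (b i) : ℝ) ^ 2 : ℝ) : ℂ) = ((1 ^ 2 : ℝ) : ℂ) := by
      rw [this]
    push_cast at h2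
    rw [h2]; norm_num
  have e2 : ∑ i, ((inner ℝ (b i) (b i) : ℝ) : ℂ) = (n + 1 : ℂ) := by
    have : ∀ i, (inner ℝ (b i) (b i) : ℝ) = 1 := by
      intro i
      rw [real_inner_self_eq_norm_sq, b.norm_eq_one]; norm_num
    simp [this]
  have e3 : ∑ i, ((inner ℝ (x : Euc n) (b i) : ℝ) : ℂ) * dirD (b i) p x = k * p x := by
    rw [← euler hp (x : Euc n)]
    have h3 : (fderiv ℝ p (x : Euc n)) (x : Euc n) =
        (fderiv ℝ p (x : Euc n)) (∑ i, (inner ℝ (b i) (x : Euc n) : ℝ) • b i) := by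
      rw [b.sum_repr' (x : Euc n)]
    rw [h3, map_sum]
    refine Finset.sum_congr rfl fun i _ => ?_
    rw [map_smul, Complex.real_smul, real_inner_comm]
    rfl
  have e4 : Laplacian.laplacian p (x : Euc n) = ∑ i, dirD (b i) (dirD (b i) p) x :=
    laplacian_eq_sum hp2.contDiffAt
  rw [e4]
  have e5 : ∀ i, 4 * ((-(k : ℝ) / 2 : ℝ) : ℂ) * (((-(k : ℝ) / 2 : ℝ) : ℂ) - 1) *
      ((inner ℝ (x : Euc n) (b i) : ℝ) : ℂ) ^ 2 * p x
      + 2 * ((-(k : ℝ) / 2 : ℝ) : ℂ) * (((inner ℝ (b i) (b i) : ℝ) : ℂ) * p x +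
        ((inner ℝ (x : Euc n) (b i) : ℝ) : ℂ) * dirD (b i) p x)
      + 2 * ((-(k : ℝ) / 2 : ℝ) : ℂ) * ((inner ℝ (x : Euc n) (b i) : ℝ) : ℂ) * dirD (b i) p x
      + dirD (b i) (dirD (b i) p) x =
      ((inner ℝ (x : Euc n) (b i) : ℝ) : ℂ) ^ 2 * ((k : ℂ) * (k + 2) * p x)
      + ((inner ℝ (b i) (b i) : ℝ) : ℂ) * (- (k : ℂ) * p x)
      + ((inner ℝ (x : Euc n) (b i) : ℝ) : ℂ) * dirD (b i) p x * (- 2 * (k : ℂ))
      + dirD (b i) (dirD (b i) p) x := by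
    intro i
    push_cast
    ring
  simp_rw [e5]
  rw [Finset.sum_add_distrib, Finset.sum_add_distrib, Finset.sum_add_distrib,
    ← Finset.sum_mul, ← Finset.sum_mul, ← Finset.sum_mul, e1, e2, e3]
  ring

end Sphere

end Pool.Agent.Work.MP_add580_gt
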