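import Pool.Agent.Work.MP_add580_gt.Complete

/-!
The spectrum of a spherical space form in terms of invariant polynomials.
-/

open scoped ContDiff InnerProductSpace Manifold Topology
open Laplacian InnerProductSpace MeasureTheory

namespace Pool.Agent.Work.MP_add580_gt

variable {n : ℕ}

lemma sphLaplacian_cadd {f g : Sph n → ℂ} (hf : ContMDiff (𝓡 n) 𝓘(ℝ, ℂ) ∞ f)
    (hg : ContMDiff (𝓡 n) 𝓘(ℝ, ℂ) ∞ g) :
    sphLaplacian (f + g) = sphLaplacian f + sphLaplacian g := by
  ext x
  exact sphLaplacian_add hf hg x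

lemma sphLaplacian_csmul {f : Sph n → ℂ} (hf : ContMDiff (𝓡 n) 𝓘(ℝ, ℂ) ∞ f) (c : ℂ) :
    sphLaplacian (c • f) = c • sphLaplacian f := by
  ext x
  unfold sphLaplacian
  rw [radialExt_csmul]
  exact InnerProductSpace.laplacian_smul _
    ((contDiffAt_radialExt hf (sph_ne_zero x)).of_le (by norm_cast))

lemma contMDiff_csmul {f : Sph n → ℂ} (hf : ContMDiff (𝓡 n) 𝓘(ℝ, ℂ) ∞ f) (c : ℂ) :
    ContMDiff (𝓡 n) 𝓘(ℝ, ℂ) ∞ (c • f) := by
  have h : ContMDiff 𝓘(ℝ, ℂ) 𝓘(ℝ, ℂ) ∞ (fun z : ℂ => c * z) :=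
    (contDiff_const.mul contDiff_id).contMDiff
  exact h.comp hf

lemma pair_zero_right (f : Sph n → ℂ) : pair f 0 = 0 := by
  have := pair_smul_right 0 f 0
  rwa [zero_smul, zero_mul] at this

/-- the restriction map -/
def res (n : ℕ) : (Euc n → ℂ) →ₗ[ℂ] (Sph n → ℂ) where
  toFun p := fun x => p x
  map_add' _ _ := rfl
  map_smul' _ _ := rfl

lemma res_continuous {k : ℕ} {p : Euc n → ℂ} (hp : p ∈ homPoly (Euc n) k) :
    Continuous (res n p) :=
  (homPoly_contDiff hp (m := 1)).continuous.comp continuous_subtype_val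

lemma res_smooth {k : ℕ} {p : Euc n → ℂ} (hp : p ∈ homPoly (Euc n) k) :
    ContMDiff (𝓡 n) 𝓘(ℝ, ℂ) ∞ (res n p) := contMDiff_restrict (homPoly_contDiff hp)

lemma res_laplacian {k : ℕ} {p : Euc n → ℂ} (hp : p ∈ homPoly (Euc n) k) :
    sphLaplacian (res n p) = res n (Laplacian.laplacian p) + (-(ev n k : ℂ)) • res n p := by
  ext x
  have := sphLaplacian_restrict' hp x
  simp only [Pi.add_apply, Pi.smul_apply, smul_eq_mul]
  change sphLaplacian (fun y : Sph n => p y) x = _
  rw [this]
  simp only [res, LinearMap.coe_mk, AddHom.coe_mk]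
  ring

lemma lapMap_coe (Γ : Subgroup (Orth n)) (k : ℕ) (p : invPoly Γ (k + 2)) :
    ((lapMap Γ k p : invPoly Γ k) : Euc n → ℂ) = Laplacian.laplacian (p : Euc n → ℂ) := rfl

lemma core (hn : 1 ≤ n) {f : Sph n → ℂ} (hf : ContMDiff (𝓡 n) 𝓘(ℝ, ℂ) ∞ f) {μ : ℝ}
    (hμ : sphLaplacian f = (-(μ : ℂ)) • f)
    (horth : ∀ k, ev n k = μ → ∀ h ∈ harmPoly (⊥ : Subgroup (Orth n)) k, pair f (res n h) = 0) :
    f = 0 := by
  have hfc : Continuous f := hf.continuous
  have main : ∀ k, ∀ p ∈ homPoly (Euc n) k, pair f (res n p) = 0 := by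
   intro k
   induction k using Nat.strong_induction_on with
   | _ k ih =>
    intro p hp
    have hq : pair f (res n (Laplacian.laplacian p)) = 0 := by
      by_cases hk : k < 2
      · rw [laplacian_low hk hp, map_zero]
        exact pair_zero_right f
      · obtain ⟨i, rfl⟩ : ∃ i, k = i + 2 := ⟨k - 2, by omega⟩
        exact ih i (by omega) _ (laplacian_mem hp)
    have h1 := pair_symm hf (res_smooth hp)
    have hlapc : Continuous (res n (Laplacian.laplacian p)) := by
      by_cases hk : k < 2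
      · rw [laplacian_low hk hp, map_zero]
        exact continuous_const
      · obtain ⟨i, rfl⟩ : ∃ i, k = i + 2 := ⟨k - 2, by omega⟩
        exact res_continuous (laplacian_mem hp)
    rw [hμ, pair_smul_left, res_laplacian hp, pair_add_right hfc hlapc
      ((res_continuous hp).const_smul _), hq, pair_smul_right] at h1
    by_cases hev : ev n k = μ
    · have horth' := horth k hev
      by_cases hk : k < 2
      · apply horth' p
        rw [harmPoly_low _ hk]
        refine ⟨hp, ?_⟩
        intro g hg x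
        rw [Subgroup.mem_bot.1 hg]
        rfl
      · obtain ⟨i, rfl⟩ : ∃ i, k = i + 2 := ⟨k - 2, by omega⟩
        have hp' : p ∈ invPoly (⊥ : Subgroup (Orth n)) (i + 2) := by
          refine ⟨hp, ?_⟩
          intro g hg x
          rw [Subgroup.mem_bot.1 hg]
          rfl
        obtain ⟨s, hs⟩ := lapMul_surjective (⊥ : Subgroup (Orth n)) hn i
          (lapMap (⊥ : Subgroup (Orth n)) i ⟨p, hp'⟩)
        rw [LinearMap.comp_apply] at hs
        set ms := mulMap (⊥ : Subgroup (Orth n)) i s with hms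
        have hharm : p - (ms : Euc n → ℂ) ∈ harmPoly (⊥ : Subgroup (Orth n)) (i + 2) := by
          refine ⟨Submodule.sub_mem _ hp' ms.2, ?_⟩
          have h2 : lapMap (⊥ : Subgroup (Orth n)) i (⟨p, hp'⟩ - ms) = 0 := by
            rw [map_sub, sub_eq_zero]
            exact hs.symm
          have h7 := congrArg Subtype.val h2
          rw [lapMap_coe, Submodule.coe_sub, Submodule.coe_zero] at h7
          exact h7
        have h3 := horth' _ hharm
        have h4 : res n (ms : Euc n → ℂ) = res n (s : Euc n → ℂ) := by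
          ext y
          have hy : ‖(y : Euc n)‖ = 1 := by simp
          simp [res, hms, mulMap, hy]
        have h5 : pair f (res n (s : Euc n → ℂ)) = 0 := ih i (by omega) _ s.2.1
        have h6 : res n p = res n (p - (ms : Euc n → ℂ)) + res n (s : Euc n → ℂ) := by
          rw [← h4, ← map_add, sub_add_cancel]
        rw [h6, pair_add_right hfc (res_continuous hharm.1.1) (res_continuous s.2.1), h3, h5,
          add_zero]
    · have h2 : ((ev n k - μ : ℝ) : ℂ) * pair f (res n p) = 0 := by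
        push_cast
        linear_combination h1
      rcases mul_eq_zero.1 h2 with h3 | h3
      · exfalso
        apply hev
        have : ev n k - μ = 0 := by exact_mod_cast h3
        linarith
      · exact h3
  exact eq_zero_of_pair hfc main

lemma harmPoly_conj {Γ : Subgroup (Orth n)} {k : ℕ} {p : Euc n → ℂ} (hp : p ∈ harmPoly Γ k) :
    (fun x => (starRingEnd ℂ) (p x)) ∈ harmPoly Γ k := by
  refine ⟨⟨conj_mem hp.1.1, fun g hg x => by
    change (starRingEnd ℂ) (p (g x)) = (starRingEnd ℂ) (p x)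
    rw [hp.1.2 g hg x]⟩, ?_⟩
  have h : (fun x => (starRingEnd ℂ) (p x)) = Complex.conjCLE ∘ p := rfl
  rw [h, InnerProductSpace.laplacian_CLE_comp_left, hp.2]
  ext x
  simp

instance (Γ : Subgroup (Orth n)) (k : ℕ) : FiniteDimensional ℂ (harmPoly Γ k) :=
  Submodule.finiteDimensional_of_le (S₂ := invPoly Γ k) fun _ h => h.1

/-- the pairing as a map to the dual -/
noncomputable def dualMap (n k : ℕ) : harmPoly (⊥ : Subgroup (Orth n)) k →ₗ[ℂ]
    Module.Dual ℂ (harmPoly (⊥ : Subgroup (Orth n)) k) where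
  toFun h :=
    { toFun := fun h' => pair (res n (h : Euc n → ℂ)) (res n (h' : Euc n → ℂ))
      map_add' := fun a b => by
        rw [Submodule.coe_add, map_add]
        exact pair_add_right (res_continuous h.2.1.1) (res_continuous a.2.1.1)
          (res_continuous b.2.1.1)
      map_smul' := fun c a => by
        rw [Submodule.coe_smul, map_smul]
        exact pair_smul_right _ _ _ }
  map_add' a b := by
    ext h
    simp only [LinearMap.coe_mk, AddHom.coe_mk, LinearMap.add_apply, Submodule.coe_add, map_add]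
    exact pair_add_left (res_continuous a.2.1.1) (res_continuous b.2.1.1) (res_continuous h.2.1.1)
  map_smul' c a := by
    ext h
    simp only [LinearMap.coe_mk, AddHom.coe_mk, LinearMap.smul_apply, Submodule.coe_smul,
      map_smul, RingHom.id_apply]
    exact pair_smul_left _ _ _

lemma res_eq_zero {k : ℕ} {p : Euc n → ℂ} (hp : p ∈ homPoly (Euc n) k) (h : res n p = 0) :
    p = 0 := restrict_injective hp fun x => congrFun h x

lemma dualMap_surjective (n k : ℕ) : Function.Surjective (dualMap n k) := by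
  have hinj : Function.Injective (dualMap n k) := by
    rw [← LinearMap.ker_eq_bot, LinearMap.ker_eq_bot']
    intro h hh
    have h1 := LinearMap.congr_fun hh ⟨_, harmPoly_conj h.2⟩
    have h2 : pair (res n (h : Euc n → ℂ))
        (fun x => (starRingEnd ℂ) (res n (h : Euc n → ℂ) x)) = 0 := h1
    have h3 := pair_star_self (res_continuous h.2.1.1) h2
    exact Subtype.ext (res_eq_zero h.2.1.1 h3)
  exact (LinearMap.injective_iff_surjective_of_finrank_eq_finrank
    (Subspace.dual_finrank_eq).symm).1 hinj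

/-- Every eigenfunction for `ev n k` is the restriction of a harmonic polynomial. -/
theorem eigen_harmonic (hn : 1 ≤ n) {f : Sph n → ℂ} (hf : ContMDiff (𝓡 n) 𝓘(ℝ, ℂ) ∞ f) {k : ℕ}
    (hμ : sphLaplacian f = (-(ev n k : ℂ)) • f) :
    ∃ h ∈ harmPoly (⊥ : Subgroup (Orth n)) k, f = res n h := by
  have hfc : Continuous f := hf.continuous
  let φ : Module.Dual ℂ (harmPoly (⊥ : Subgroup (Orth n)) k) :=
    { toFun := fun h' => pair f (res n (h' : Euc n → ℂ))
      map_add' := fun a b => by
        rw [Submodule.coe_add, map_add]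
        exact pair_add_right hfc (res_continuous a.2.1.1) (res_continuous b.2.1.1)
      map_smul' := fun c a => by
        rw [Submodule.coe_smul, map_smul]
        exact pair_smul_right _ _ _ }
  obtain ⟨h0, hh0⟩ := dualMap_surjective n k φ
  refine ⟨h0, h0.2, ?_⟩
  have hsm := res_smooth h0.2.1.1
  have hd : f + (-1 : ℂ) • res n (h0 : Euc n → ℂ) = 0 := by
    have hsm' := contMDiff_csmul hsm (-1)
    refine core hn (μ := ev n k) (hf.add hsm') ?_ ?_
    · rw [sphLaplacian_cadd hf hsm', sphLaplacian_csmul hsm, res_laplacian h0.2.1.1, h0.2.2,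
        map_zero, zero_add, hμ, smul_add]
      congr 1
      rw [smul_smul, smul_smul, mul_comm]
    · intro k' hk' h hh
      obtain rfl := ev_injective hn hk'
      rw [pair_add_left hfc ((res_continuous h0.2.1.1).const_smul _) (res_continuous hh.1.1),
        pair_smul_left]
      have h1 := LinearMap.congr_fun hh0 ⟨h, hh⟩
      have h2 : pair (res n (h0 : Euc n → ℂ)) (res n h) = pair f (res n h) := h1
      rw [h2]
      ring
  have : f = res n (h0 : Euc n → ℂ) := by
    have h3 : f = f + (-1 : ℂ) • res n (h0 : Euc n → ℂ) + res n (h0 : Euc n → ℂ) := by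
      rw [add_assoc]
      simp
    rw [h3, hd, zero_add]
  exact this

/-- Complex eigenspaces. -/
noncomputable def ceig (Γ : Subgroup (Orth n)) (μ : ℝ) : Submodule ℂ (Sph n → ℂ) where
  carrier := {f | ContMDiff (𝓡 n) 𝓘(ℝ, ℂ) ∞ f ∧
    (∀ g ∈ Γ, ∀ x y : Sph n, g (x : Euc n) = y → f x = f y) ∧
    sphLaplacian f = (-(μ : ℂ)) • f}
  add_mem' := by
    rintro a b ⟨h1, h2, h3⟩ ⟨h4, h5, h6⟩
    refine ⟨h1.add h4, fun g hg x y hxy => ?_, ?_⟩
    · simp only [Pi.add_apply, h2 g hg x y hxy, h5 g hg x y hxy]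
    · rw [sphLaplacian_cadd h1 h4, h3, h6, smul_add]
  zero_mem' := by
    have h0 : ContMDiff (𝓡 n) 𝓘(ℝ, ℂ) ∞ (0 : Sph n → ℂ) := contMDiff_const
    refine ⟨h0, fun g hg x y hxy => rfl, ?_⟩
    have := sphLaplacian_csmul h0 0
    rw [zero_smul, zero_smul] at this
    rw [this, smul_zero]
  smul_mem' := by
    rintro c a ⟨h1, h2, h3⟩
    refine ⟨contMDiff_csmul h1 c, fun g hg x y hxy => ?_, ?_⟩
    · simp only [Pi.smul_apply, h2 g hg x y hxy]
    · rw [sphLaplacian_csmul h1, h3, smul_comm]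

lemma ceig_eq_map (hn : 1 ≤ n) (Γ : Subgroup (Orth n)) (k : ℕ) :
    ceig Γ (ev n k) = (harmPoly Γ k).map (res n) := by
  ext f
  constructor
  · rintro ⟨h1, h2, h3⟩
    obtain ⟨h, hh, rfl⟩ := eigen_harmonic hn h1 h3
    refine ⟨h, ⟨⟨hh.1.1, fun g hg x => ?_⟩, hh.2⟩, rfl⟩
    have hd : (fun y => h (g y)) - h = 0 := by
      have hmem : (fun y => h (g y)) - h ∈ homPoly (Euc n) k :=
        Submodule.sub_mem _ (pull_mem hh.1.1 g.toLinearEquiv.toLinearMap) hh.1.1
      refine restrict_injective hmem fun y => ?_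
      have h4 := h2 g hg y ⟨g y, by simp⟩ rfl
      simp only [Pi.sub_apply, sub_eq_zero]
      exact h4.symm
    have := congrFun hd x
    simp only [Pi.sub_apply, Pi.zero_apply, sub_eq_zero] at this
    exact this
  · rintro ⟨h, hh, rfl⟩
    refine ⟨res_smooth hh.1.1, fun g hg x y hxy => ?_, ?_⟩
    · have h1 := hh.1.2 g hg x
      rw [hxy] at h1
      exact h1.symm
    · rw [res_laplacian hh.1.1, hh.2, map_zero, zero_add]

lemma ceig_eq_bot (hn : 1 ≤ n) (Γ : Subgroup (Orth n)) {μ : ℝ} (hμ : ∀ k, ev n k ≠ μ) :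
    ceig Γ μ = ⊥ := by
  rw [Submodule.eq_bot_iff]
  rintro f ⟨h1, h2, h3⟩
  exact core hn h1 h3 fun k hk => absurd hk (hμ k)

lemma ceig_finite (hn : 1 ≤ n) (Γ : Subgroup (Orth n)) (μ : ℝ) :
    FiniteDimensional ℂ (ceig Γ μ) := by
  by_cases h : ∃ k, ev n k = μ
  · obtain ⟨k, rfl⟩ := h
    rw [ceig_eq_map hn]
    infer_instance
  · push Not at h
    rw [ceig_eq_bot hn Γ h]
    infer_instance

lemma finrank_ceig (hn : 1 ≤ n) (Γ : Subgroup (Orth n)) (k : ℕ) :
    Module.finrank ℂ (ceig Γ (ev n k)) = Module.finrank ℂ (harmPoly Γ k) := by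
  rw [ceig_eq_map hn]
  have hinj : Function.Injective ((res n).domRestrict (harmPoly Γ k)) := by
    rw [← LinearMap.ker_eq_bot, LinearMap.ker_eq_bot']
    intro h hh
    exact Subtype.ext (res_eq_zero h.2.1.1 hh)
  have := LinearMap.finrank_range_of_inj hinj
  rw [LinearMap.range_domRestrict] at this
  exact this

lemma finrank_ceig_eq (hn : 1 ≤ n) (Γ₁ Γ₂ : Subgroup (Orth n))
    (h : ∀ k, Module.finrank ℂ (invPoly Γ₁ k) = Module.finrank ℂ (invPoly Γ₂ k)) (μ : ℝ) :
    Module.finrank ℂ (ceig Γ₁ μ) = Module.finrank ℂ (ceig Γ₂ μ) := by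
  by_cases hμ : ∃ k, ev n k = μ
  · obtain ⟨k, rfl⟩ := hμ
    rw [finrank_ceig hn, finrank_ceig hn]
    by_cases hk : k < 2
    · rw [harmPoly_low _ hk, harmPoly_low _ hk, h]
    · obtain ⟨i, rfl⟩ : ∃ i, k = i + 2 := ⟨k - 2, by omega⟩
      have h1 := finrank_harmPoly Γ₁ hn i
      have h2 := finrank_harmPoly Γ₂ hn i
      rw [h i, h (i + 2)] at h1
      omega
  · push Not at hμ
    rw [ceig_eq_bot hn Γ₁ hμ, ceig_eq_bot hn Γ₂ hμ]

end Pool.Agent.Work.MP_add580_gt
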