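import Mathlib

/-!
Spherical space forms and isospectrality: the definitions used in the final statement.
-/

open scoped Manifold ContDiff

namespace Pool.Agent.Work.MP_add580_gt.Spec

/-- Euclidean space `ℝ^(n+1)`. -/
abbrev Euc (n : ℕ) : Type := EuclideanSpace ℝ (Fin (n + 1))

/-- The unit sphere `S^n` in `ℝ^(n+1)`. -/
abbrev Sph (n : ℕ) : Type := Metric.sphere (0 : Euc n) 1

/-- The orthogonal group `O(n+1)`: the linear isometries of `ℝ^(n+1)`. -/
def Orth (n : ℕ) : Type := Euc n ≃ₗᵢ[ℝ] Euc n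

/-- The group structure of `O(n+1)` (composition). -/
noncomputable instance Orth.instGroup (n : ℕ) : Group (Orth n) :=
  LinearIsometryEquiv.instGroup (R := ℝ) (E := Euc n)

/-- The action of `O(n+1)` on `S^n`. -/
noncomputable def Orth.act {n : ℕ} (g : Orth n) (x : Sph n) : Sph n :=
  ⟨(show Euc n ≃ₗᵢ[ℝ] Euc n from g) x, by simp⟩

/-- A spherical space form `S^n/Γ`: a finite subgroup `Γ` of `O(n+1)` acting freely on `S^n`. -/
structure SpaceForm (n : ℕ) where
  Γ : Subgroup (Orth n)
  finite : Finite Γ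
  free : ∀ g ∈ Γ, g ≠ 1 → ∀ x : Sph n, g.act x ≠ x

/-- The points of `S^n/Γ`: the orbits of `Γ` on `S^n`. -/
def SpaceForm.Pt {n : ℕ} (M : SpaceForm n) : Type :=
  Quot fun x y : Sph n => ∃ g ∈ M.Γ, g.act x = y

/-- The pullback to `S^n` of a function on `S^n/Γ`. -/
def SpaceForm.pullback {n : ℕ} (M : SpaceForm n) (φ : M.Pt → ℝ) (x : Sph n) : ℝ :=
  φ (Quot.mk _ x)

/-- The radially constant extension `x ↦ f (x/‖x‖)` of a function on `S^n`. -/
noncomputable def radialExt {n : ℕ} (f : Sph n → ℝ) (x : Euc n) : ℝ :=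
  if h : x = 0 then 0 else f ⟨‖x‖⁻¹ • x, by simp [norm_smul, h]⟩

/-- The Laplace-Beltrami operator of the round unit sphere `S^n`: the Euclidean Laplacian of the
radially constant extension, restricted to `S^n`. -/
noncomputable def sphLaplacian {n : ℕ} (f : Sph n → ℝ) (x : Sph n) : ℝ :=
  Laplacian.laplacian (radialExt f) (x : Euc n)

/-- The eigenspace of the Laplace-Beltrami operator `-Δ` of `S^n/Γ` for `μ`: the span of the smooth
real functions `φ` on `S^n/Γ` with `-Δ φ = μ φ`. As `S^n → S^n/Γ` is a Riemannian covering,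
smoothness of `φ` and `Δ φ` are expressed on the pullback of `φ` to `S^n`. -/
noncomputable def SpaceForm.eigenspace {n : ℕ} (M : SpaceForm n) (μ : ℝ) :
    Submodule ℝ (M.Pt → ℝ) :=
  Submodule.span ℝ {φ | ContMDiff (𝓡 n) 𝓘(ℝ, ℝ) ∞ (M.pullback φ) ∧
    ∀ x : Sph n, - sphLaplacian (M.pullback φ) x = μ * M.pullback φ x}

/-- Two spherical space forms of dimension `n` are isospectral: every real number `μ` has the same
multiplicity as an eigenvalue of their Laplace-Beltrami operators. -/
def Isospectral {n : ℕ} (M N : SpaceForm n) : Prop :=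
  ∀ μ : ℝ, Module.rank ℝ (M.eigenspace μ) = Module.rank ℝ (N.eigenspace μ)

end Pool.Agent.Work.MP_add580_gt.Spec
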