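import Pool.Agent.Work.MP_add580_gt.Mono

/-!
The trace of a diagonal isometry on homogeneous polynomials.
-/

open scoped ContDiff InnerProductSpace

namespace Pool.Agent.Work.MP_add580_gt

variable {ι : Type} [Fintype ι] [DecidableEq ι]

/-- eigenvalue of a diagonal isometry on a monomial -/
noncomputable def monoEv (c : ι → ℂ) (γ : ι ⊕ ι →₀ ℕ) : ℂ :=
  ∏ v, (Sum.elim c (fun s => (starRingEnd ℂ) (c s)) v) ^ (γ v)

lemma mono_diag (g : CW ι ≃ₗᵢ[ℝ] CW ι) (c : ι → ℂ)
    (hg : ∀ z s, (g z) s = c s * z s) (γ : ι ⊕ ι →₀ ℕ) (z : CW ι) :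
    mono γ (g z) = monoEv c γ * mono γ z := by
  simp only [mono, monoHom_apply, monoEv]
  rw [← Finset.prod_mul_distrib]
  refine Finset.prod_congr rfl fun v _ => ?_
  rw [← mul_pow]
  congr 1
  rcases v with s | s
  · simp [hg]
  · simp [hg]

lemma pullHom_monoBasis (g : CW ι ≃ₗᵢ[ℝ] CW ι) (c : ι → ℂ)
    (hg : ∀ z s, (g z) s = c s * z s) (k : ℕ) (γ : Idx ι k) :
    pullHom g k (monoBasis ι k γ) = monoEv c γ.1 • monoBasis ι k γ := by
  apply Subtype.ext
  ext z
  have h1 : ((pullHom g k (monoBasis ι k γ) : homPoly (CW ι) k) : CW ι → ℂ) z =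
      ((monoBasis ι k γ : homPoly (CW ι) k) : CW ι → ℂ) (g z) := rfl
  rw [h1, monoBasis_apply, Submodule.coe_smul, Pi.smul_apply, monoBasis_apply, smul_eq_mul]
  exact mono_diag g c hg γ.1 z

/-- The trace of a diagonalisable endomorphism. -/
lemma trace_of_diag {κ M : Type*} [Fintype κ] [DecidableEq κ] [AddCommGroup M] [Module ℂ M]
    (b : Module.Basis κ ℂ M) (f : M →ₗ[ℂ] M) (e : κ → ℂ) (h : ∀ i, f (b i) = e i • b i) :
    LinearMap.trace ℂ M f = ∑ i, e i := by
  rw [LinearMap.trace_eq_matrix_trace ℂ b]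
  simp only [Matrix.trace, Matrix.diag_apply, LinearMap.toMatrix_apply, h, map_smul,
    Finsupp.smul_apply, Module.Basis.repr_self, Finsupp.single_eq_same, smul_eq_mul, mul_one]

/-- The trace of a diagonal isometry on the homogeneous polynomials of degree `k`. -/
lemma trace_diag (g : CW ι ≃ₗᵢ[ℝ] CW ι) (c : ι → ℂ)
    (hg : ∀ z s, (g z) s = c s * z s) (k : ℕ) :
    LinearMap.trace ℂ _ (pullHom g k) =
      ∑ γ ∈ Finset.finsuppAntidiag (Finset.univ : Finset (ι ⊕ ι)) k, monoEv c γ := by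
  rw [trace_of_diag (monoBasis ι k) (pullHom g k) (fun γ => monoEv c γ.1)
    (pullHom_monoBasis g c hg k)]
  exact Finset.sum_coe_sort _ (fun γ => monoEv c γ)

end Pool.Agent.Work.MP_add580_gt
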